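import Mathlib

/-!
# SETH for constant-depth circuits: the definitions used in the statement
-/

namespace Pool.Agent.H68.AC

/-- A circuit with `s` gates over the inputs `I`: AND and OR gates of unbounded fan-in; negations are
free (literals and signed wires). -/
structure Circuit (I : Type) (s : ℕ) where
  /-- `true` for an AND gate, `false` for an OR gate -/
  isAnd : Fin s → Bool
  /-- the literals feeding gate `g`; `(i, b)` is the literal which is true iff input `i` has value `b` -/
  lits : Fin s → Set (I × Bool)
  /-- the gates feeding gate `g`; the wire `(g', b)` is true iff gate `g'` has value `b` -/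
  wires : Fin s → Set (Fin s × Bool)
  /-- the gates are numbered in topological order -/
  topo : ∀ g, ∀ c ∈ wires g, c.1 < g
  /-- the output gate -/
  out : Fin s

/-- Gate `g` has the value true at the input `y`. -/
def Circuit.Holds {I : Type} {s : ℕ} (C : Circuit I s) (y : I → Bool) (g : Fin s) : Prop :=
  if C.isAnd g = true then
    (∀ c ∈ C.lits g, y c.1 = c.2) ∧ ∀ c, ∀ _h : c ∈ C.wires g, (C.Holds y c.1 ↔ c.2 = true)
  else
    (∃ c ∈ C.lits g, y c.1 = c.2) ∨ ∃ c, ∃ _h : c ∈ C.wires g, (C.Holds y c.1 ↔ c.2 = true)
termination_by g
decreasing_by all_goals exact C.topo _ _ (by assumption)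

/-- The circuit has depth at most `d`: there are no `d + 1` gates each feeding the next (the gates can be
partitioned into `d` levels such that wires go from lower to higher levels). -/
def Circuit.DepthLE {I : Type} {s : ℕ} (C : Circuit I s) (d : ℕ) : Prop :=
  ∃ lev : Fin s → ℕ, (∀ g, lev g < d) ∧ ∀ g, ∀ c ∈ C.wires g, lev c.1 < lev g

/-- The CNF with incidence matrix `φ` (`φ (j, i, b) = true` iff the literal saying that variable `i` has
value `b` occurs in clause `j`) is satisfiable. -/
def Satisfiable {m n : ℕ} (φ : Fin m × Fin n × Bool → Bool) : Prop :=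
  ∃ a : Fin n → Bool, ∀ j, ∃ i, φ (j, i, a i) = true

/-- The number of literals of clause `j`. -/
def width {m n : ℕ} (φ : Fin m × Fin n × Bool → Bool) (j : Fin m) : ℕ :=
  (Finset.univ.filter (fun l : Fin n × Bool => φ (j, l) = true)).card

open Classical in
/-- For a probability distribution `μ` on pairs `(S i, U i)` of inputs: the probability that the circuit
gives different answers to `S i` and `U i`. -/
noncomputable def Circuit.diffProb {I ι : Type} [Fintype ι] {s : ℕ} (C : Circuit I s) (μ : ι → ℝ)
    (S U : ι → I → Bool) : ℝ :=
  ∑ i, if (C.Holds (S i) C.out ↔ C.Holds (U i) C.out) then 0 else μ i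

end Pool.Agent.H68.AC
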