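import Pool.Agent.H68.AC.Basic
import Pool.Agent.H68.AC.Stmt

/-!
# SETH for constant-depth circuits: module targets
-/

namespace Pool.Agent.H68.AC

open Finset Filter

/-! ## Auxiliary definitions -/

/-- `κA` extends `κB`, it differs from it only on `D`, and `κB` is undefined on `D`. -/
def ExtOn {V : Type} (D : Set V) (κA κB : PA V) : Prop :=
  (∀ v, v ∉ D → κA v = κB v) ∧ ∀ v ∈ D, κB v = none

/-- The trees of `csA` are equivalent to those of `csB` (given `κA`) and have all their paths avoiding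
`D`. -/
def Sim {V : Type} (D : Set V) (κA : PA V) (csA csB : List (Bool × DT V)) : Prop :=
  List.Forall₂ (fun a b => a.1 = b.1 ∧ (∀ y, Ext κA y → a.2.eval y = b.2.eval y) ∧
    ∀ τ c, IsPath b.2 τ c → Avoid D τ → IsPath a.2 τ c) csA csB

/-- The weight of a list of answered queries: `1/8` for queries in `P`, `μ` for the others. -/
noncomputable def gW {V : Type} [DecidableEq V] (μ : ℝ) (P : Finset V) (ψ : List (V × Bool)) : ℝ :=
  (ψ.map (fun c => if c.1 ∈ P then (1 / 8 : ℝ) else μ)).prod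

/-- Repeated queries are answered consistently. -/
def Cons {V : Type} (τ : List (V × Bool)) : Prop := ∀ c ∈ τ, ∀ c' ∈ τ, c.1 = c'.1 → c.2 = c'.2

/-- `0`-`1` indicator. -/
noncomputable def ind (p : Prop) : ℝ := by
  classical exact if p then 1 else 0

/-- The possible decodings: like block paths, but the block may be any nonempty set `B` of variables of
the path `τ` which contains exactly those variables of `τ` in `P` that are free. -/
def IsD {V : Type} [DecidableEq V] (cs : List (Bool × DT V)) (P : Finset V) :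
    PA V → List (List (V × Bool)) → Prop
  | _, [] => True
  | κ, α :: π => (∃ τ, nxt cs κ = some τ ∧ α ≠ [] ∧ ∃ B : Finset V,
      (∀ v ∈ P, v ∈ τ.map Prod.fst → (v ∈ B ↔ κ v = none)) ∧
      α.map Prod.fst = ((τ.map Prod.fst).filter (fun v => v ∈ B)).dedup) ∧ IsD cs P (updL κ α) π

/-! ## Decision trees and canonical trees -/

/-- FP: specification of `fp`. -/
def T_FP : Prop := ∀ (V : Type) [DecidableEq V] (s : Bool) (t : DT V) (κ : PA V),
  (∀ τ, fp s t κ = some τ → IsPath t τ s ∧ Agree κ τ ∧ Cons τ) ∧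
  (fp s t κ = none ↔ ∀ y, Ext κ y → t.eval y ≠ s)

/-- FPL: the leftmost path stays leftmost. -/
def T_FPL : Prop := ∀ (V : Type) [DecidableEq V] (s : Bool) (tA tB : DT V) (κA κB : PA V)
  (τ : List (V × Bool)), Sub κB κA → Agree κA τ → (∀ y, Ext κA y → tA.eval y = tB.eval y) →
  IsPath tA τ s → fp s tB κB = some τ → fp s tA κA = some τ

/-- NXS: specification of `nxt`. -/
def T_NXS : Prop := ∀ (V : Type) [DecidableEq V] (cs : List (Bool × DT V)) (κ : PA V),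
  (∀ τ, nxt cs κ = some τ → Agree κ τ ∧ Cons τ ∧ ∃ c ∈ cs, IsPath c.2 τ c.1) ∧
  (nxt cs κ = none ↔ ∀ y, Ext κ y → ∀ c ∈ cs, c.2.eval y ≠ c.1)

/-- NXM: `nxt` is stable under extensions of `κ` which agree with the path found. -/
def T_NXM : Prop := ∀ (V : Type) [DecidableEq V] (cs : List (Bool × DT V)) (κ κ' : PA V)
  (τ : List (V × Bool)), nxt cs κ = some τ → Sub κ κ' → Agree κ' τ → nxt cs κ' = some τ

/-- NXL: locality of `nxt`. -/
def T_NXL : Prop := ∀ (V : Type) [DecidableEq V] (D : Set V) (κA κB : PA V)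
  (csA csB : List (Bool × DT V)), Sim D κA csA csB → ExtOn D κA κB →
  (nxt csB κB = none → nxt csA κA = none) ∧
  (∀ τ, nxt csB κB = some τ → Avoid D τ → nxt csA κA = some τ)

/-- BPN: the queries of a block path are free and distinct. -/
def T_BPN : Prop := ∀ (V : Type) [DecidableEq V] [Fintype V] (cs : List (Bool × DT V)) (κ : PA V)
  (π : List (List (V × Bool))), IsBP cs κ π →
  (π.flatten.map Prod.fst).Nodup ∧ (∀ c ∈ π.flatten, κ c.1 = none) ∧ π.length ≤ Fintype.card V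

/-- BPS: block paths with one more block. -/
def T_BPS : Prop := ∀ (V : Type) [DecidableEq V] (cs : List (Bool × DT V)) (κ : PA V)
  (π : List (List (V × Bool))) (α : List (V × Bool)), IsBP cs κ (π ++ [α]) ↔
  (IsBP cs κ π ∧ ∃ τ, nxt cs (updL κ π.flatten) = some τ ∧ fr (updL κ π.flatten) τ ≠ [] ∧
    α.map Prod.fst = fr (updL κ π.flatten) τ)

/-- CANE: the canonical tree computes the disjunction. -/
def T_CANE : Prop := ∀ (V : Type) [DecidableEq V] [Fintype V] (cs : List (Bool × DT V)) (n : ℕ)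
  (κ : PA V) (y : V → Bool), nfree κ < n → Ext κ y →
  ((can cs n κ).eval y = true ↔ ∃ c ∈ cs, c.2.eval y = c.1)

/-- CANP: the paths of the canonical tree are block paths. -/
def T_CANP : Prop := ∀ (V : Type) [DecidableEq V] [Fintype V] (cs : List (Bool × DT V)) (n : ℕ)
  (κ : PA V) (ψ : List (V × Bool)) (c : Bool), nfree κ < n → IsPath (can cs n κ) ψ c →
  ∃ π, π.flatten = ψ ∧ IsBP cs κ π ∧ Stop cs (updL κ ψ) c

/-- CANB: the block paths where the tree stops are paths of the canonical tree. -/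
def T_CANB : Prop := ∀ (V : Type) [DecidableEq V] [Fintype V] (cs : List (Bool × DT V)) (n : ℕ)
  (κ : PA V) (π : List (List (V × Bool))) (c : Bool), nfree κ < n → IsBP cs κ π →
  Stop cs (updL κ π.flatten) c → IsPath (can cs n κ) π.flatten c

/-- LOC: locality of block paths. -/
def T_LOC : Prop := ∀ (V : Type) [DecidableEq V] [Fintype V] (D : Set V) (κA κB : PA V)
  (csA csB : List (Bool × DT V)) (π : List (List (V × Bool))), Sim D κA csA csB → ExtOn D κA κB →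
  IsBP csB κB π → Avoid D π.flatten →
  IsBP csA κA π ∧ ∀ c, Stop csB (updL κB π.flatten) c → Stop csA (updL κA π.flatten) c

/-! ## The switching lemma -/

/-- SWS: the weighted number of decodings. -/
def T_SWS : Prop := ∀ (V : Type) [DecidableEq V] [Fintype V] (cs : List (Bool × DT V)) (w : ℕ)
  (P : Finset V) (κ : PA V) (μ : ℝ) (S : Finset (List (List (V × Bool)))), 1 ≤ w →
  (∀ c ∈ cs, c.2.depth ≤ w) → 0 ≤ μ → 16 * w * μ ≤ 1 → (∀ π ∈ S, IsD cs P κ π) →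
  ∑ π ∈ S, gW μ P π.flatten ≤ 3 / 2

/-- SWM: the encoding of a pair (restriction, block path) by a heavier restriction. -/
def T_SWM : Prop := ∀ (V : Type) [DecidableEq V] [Fintype V] (cs : List (Bool × DT V))
  (P : Finset V) (ρ : PA V) (R : PA V) (π : List (List (V × Bool))),
  IsBP cs (mask P (mrg ρ R)) π → ∃ R' : PA V,
    (∀ v, (v ∈ P ∨ v ∉ π.flatten.map Prod.fst) → R' v = R v) ∧
    (∀ v, v ∉ P → v ∈ π.flatten.map Prod.fst → R v = none ∧ R' v ≠ none) ∧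
    IsD cs P (mask P (mrg ρ R')) π

/-- SW: the switching lemma with planted set `P`. -/
def T_SW : Prop := ∀ (V : Type) [DecidableEq V] [Fintype V] (cs : List (Bool × DT V)) (w : ℕ)
  (P : Finset V) (ρ : PA V) (p q : ℝ) (n : ℕ), 1 ≤ w → (∀ c ∈ cs, c.2.depth ≤ w) →
  0 < p → p ≤ 1 / 2 → 0 < q → q ≤ 1 / 2 → 64 * w * q ≤ p →
  ∑ R : PA V, wt q p R * ∑ π ∈ BPF cs n (mask P (mrg ρ R)), gW 2 P π.flatten ≤ 3 / 2

/-! ## Weights -/

/-- FUB: fix all rounds but one. -/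
def T_FUB : Prop := ∀ (V : Type) [DecidableEq V] [Fintype V] (d : ℕ) (q p : ℝ)
  (F : (Fin d → PA V) → ℝ) (j : Fin d) (B : ℝ), 0 ≤ q → q ≤ 1 → 0 ≤ p → p ≤ 1 →
  (∀ R, ∑ Q : PA V, wt q p Q * F (Function.update R j Q) ≤ B) → ∑ R, Wt q p R * F R ≤ B

/-- IND: if `F` does not depend on the entries in `P`, one may condition on them being free. -/
def T_IND : Prop := ∀ (V : Type) [DecidableEq V] [Fintype V] (d : ℕ) (q p : ℝ) (P : Finset V)
  (F : (Fin d → PA V) → ℝ), (∀ R R', (∀ j v, v ∉ P → R j v = R' j v) → F R = F R') →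
  q ^ (d * P.card) * ∑ R, Wt q p R * F R =
    ∑ R : Fin d → PA V, Wt q p R * (ind (∀ j, ∀ v ∈ P, R j v = none) * F R)

/-- PUSH: the merged rounds with a `p`-biased completion are `p`-biased. -/
def T_PUSH : Prop := ∀ (V : Type) [DecidableEq V] [Fintype V] (d : ℕ) (q p : ℝ)
  (F : (V → Bool) → ℝ),
  ∑ R : Fin d → PA V, ∑ z : V → Bool, Wt q p R * wz p z * F (fun v => (fd R d v).getD (z v)) =
    ∑ z : V → Bool, wz p z * F z

/-- U: there is usually no second solution. -/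
def T_U : Prop := ∀ (k r : ℕ) (A : Type) [DecidableEq A] [Fintype A] (e : Fin k → Fin r → Fin k)
  (x : Fin k → A) (p : ℝ), 0 ≤ p → p ≤ 1 →
  ∑ z : VV k r A → Bool, wz p z * ind (∃ x', x' ≠ x ∧ ∀ j, pos e x' j ≠ pos e x j →
    z (pos e x' j) = true) ≤ (1 + Fintype.card A * p) ^ k - 1

/-! ## The levels of the circuit -/

/-- INV: what the trees depend on. -/
def T_INV : Prop := ∀ (V : Type) [DecidableEq V] [Fintype V] (s d : ℕ) (C : Ckt V s d) (P : Finset V)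
  (R R' : Fin d → PA V),
  ((∀ j v, v ∉ P → R j v = R' j v) → (∀ j, rho P R j = rho P R' j) ∧ ∀ g, C.cht P R g = C.cht P R' g) ∧
  ((∀ j, ∀ v ∈ P, R j v = none) → (∀ j, rho P R j = rho ∅ R j) ∧ ∀ g, C.cht P R g = C.cht ∅ R g) ∧
  (∀ g, (∀ i : Fin d, i.1 < C.lev g → R i = R' i) → C.cht P R g = C.cht P R' g)

/-- COR: the trees compute the values of the gates. -/
def T_COR : Prop := ∀ (V : Type) [DecidableEq V] [Fintype V] (s d : ℕ) (C : Ckt V s d) (P : Finset V)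
  (R : Fin d → PA V) (g : Fin s) (y : V → Bool), Ext (rho P R (C.lev g + 1)) y →
  (C.T P R g).eval y = C.val y g

/-- LOCW: locality of the worlds. -/
def T_LOCW : Prop := ∀ (V : Type) [DecidableEq V] [Fintype V] (s d : ℕ) (C : Ckt V s d)
  (A B : Finset V) (R : Fin d → PA V) (g : Fin s), A ⊆ B →
  (∀ ψ c, IsPath (C.T B R g) ψ c → Avoid {v | v ∈ B ∧ v ∉ A} ψ → IsPath (C.T A R g) ψ c) ∧
  (∀ π, IsBP (C.cht B R g) (rho B R (C.lev g + 1)) π → Avoid {v | v ∈ B ∧ v ∉ A} π.flatten →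
    IsBP (C.cht A R g) (rho A R (C.lev g + 1)) π)

/-- The bad event for `P` and `g`: the children are shallow and some block path touches all of `P`. -/
def EB {V : Type} [DecidableEq V] [Fintype V] {s d : ℕ} (C : Ckt V s d) (w : ℕ) (P Q : Finset V)
    (R : Fin d → PA V) (g : Fin s) : Prop :=
  (∀ c ∈ C.cht Q R g, c.2.depth ≤ w) ∧
    ∃ π, IsBP (C.cht Q R g) (rho Q R (C.lev g + 1)) π ∧ ∀ v ∈ P, v ∈ π.flatten.map Prod.fst

/-- A: in a fixed world, all trees are shallow. -/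
def T_A : Prop := ∀ (V : Type) [DecidableEq V] [Fintype V] (s d : ℕ) (C : Ckt V s d) (w : ℕ)
  (P : Finset V) (p q : ℝ), 1 ≤ w → 0 < p → p ≤ 1 / 2 → 0 < q → q ≤ 1 / 2 → 64 * w * q ≤ p →
  ∑ R : Fin d → PA V, Wt q p R * ind (∃ g, w < (C.T P R g).depth) ≤
    s * (3 / 2 * 16 ^ P.card / 2 ^ (w + 1))

/-- BA: comparison of world `P` with world `∅`. -/
def T_BA : Prop := ∀ (V : Type) [DecidableEq V] [Fintype V] (s d : ℕ) (C : Ckt V s d) (w : ℕ)
  (P : Finset V) (g : Fin s) (p q : ℝ), 0 ≤ p → p ≤ 1 → 0 ≤ q → q ≤ 1 →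
  q ^ (d * P.card) * ∑ R : Fin d → PA V, Wt q p R * ind (EB C w P P R g) ≤
    ∑ R : Fin d → PA V, Wt q p R * ind (EB C w P ∅ R g)

/-- BB: the total probability in world `∅`. -/
def T_BB : Prop := ∀ (V : Type) [DecidableEq V] [Fintype V] (s d : ℕ) (C : Ckt V s d) (w : ℕ)
  (F : Finset (Finset V)) (g : Fin s) (p q : ℝ), 1 ≤ w → 0 < p → p ≤ 1 / 2 → 0 < q → q ≤ 1 / 2 →
  64 * w * q ≤ p → ∑ P ∈ F, ∑ R : Fin d → PA V, Wt q p R * ind (EB C w P ∅ R g) ≤ 3 / 2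

/-- BC: averaging over the planted solution. -/
def T_BC : Prop := ∀ (k r : ℕ) (A : Type) [DecidableEq A] [Fintype A] (e : Fin k → Fin r → Fin k)
  (H : Finset (Fin k)) (F : Finset (VV k r A) → ℝ), (∀ P, 0 ≤ F P) →
  ∑ x : Fin k → A, F (K e x H) ≤
    (Fintype.card A : ℝ) ^ (k - (VS e H).card) * ∑ P ∈ univ.image (fun x : Fin k → A => K e x H), F P

/-- B: the probability of the bad event for the set `H` of constraints. -/
def T_B : Prop := ∀ (k r s d : ℕ) (A : Type) [DecidableEq A] [Fintype A] (C : Ckt (VV k r A) s d)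
  (w : ℕ) (e : Fin k → Fin r → Fin k) (H : Finset (Fin k)) (p q : ℝ), 1 ≤ w → 0 < p → p ≤ 1 / 2 →
  0 < q → q ≤ 1 / 2 → 64 * w * q ≤ p →
  q ^ (d * H.card) * ∑ x : Fin k → A, ∑ R : Fin d → PA (VV k r A),
    Wt q p R * ind (∃ g, EB C w (K e x H) (K e x H) R g) ≤
    s * (3 / 2 * (Fintype.card A : ℝ) ^ (k - (VS e H).card))

/-! ## Good outcomes -/

/-- The planted solution is the only solution. -/
def GoodU {k r d : ℕ} {A : Type} (e : Fin k → Fin r → Fin k) (x : Fin k → A)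
    (R : Fin d → PA (VV k r A)) (z : VV k r A → Bool) : Prop :=
  ∀ x', x' ≠ x → ∃ j, pos e x' j ≠ pos e x j ∧ (fd R d (pos e x' j)).getD (z (pos e x' j)) = false

/-- No block path touches all planted positions of a set of at most `2 * h` constraints covering more
than `β` vertices. -/
def GoodB {k r s d : ℕ} {A : Type} [DecidableEq A] [Fintype A] (C : Ckt (VV k r A) s d)
    (e : Fin k → Fin r → Fin k) (x : Fin k → A) (R : Fin d → PA (VV k r A)) (β h : ℕ) : Prop :=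
  ∀ H : Finset (Fin k), β < (VS e H).card → H.card ≤ 2 * h → ∀ g π,
    IsBP (C.cht (K e x H) R g) (rho (K e x H) R (C.lev g + 1)) π →
    ∃ v ∈ K e x H, v ∉ π.flatten.map Prod.fst

/-- The numerical condition. -/
def HN (k N s w β h d : ℕ) (p q : ℝ) : Prop :=
  ((1 + N * p) ^ k - 1) + 2 ^ k * (s * (3 / 2 * 16 ^ k / 2 ^ (w + 1))) +
    2 ^ k * (s * (3 / 2 * (1 / q) ^ (d * (2 * h)) / N ^ (β + 1))) < 1

/-- UNI: union bound. -/
def T_UNI : Prop := ∀ (k r s d : ℕ) (A : Type) [DecidableEq A] [Fintype A] (C : Ckt (VV k r A) s d)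
  (w β h : ℕ) (e : Fin k → Fin r → Fin k) (p q : ℝ), 1 ≤ w → 0 < p → p ≤ 1 / 2 →
  0 < q → q ≤ 1 / 2 → 64 * w * q ≤ p → 1 ≤ Fintype.card A → HN k (Fintype.card A) s w β h d p q →
  ∃ (x : Fin k → A) (R : Fin d → PA (VV k r A)) (z : VV k r A → Bool),
    GoodU e x R z ∧ GoodB C e x R β h

/-- FL: the first-large argument. -/
def T_FL : Prop := ∀ (k r s d : ℕ) (A : Type) [DecidableEq A] [Fintype A] (C : Ckt (VV k r A) s d)
  (e : Fin k → Fin r → Fin k) (x : Fin k → A) (R : Fin d → PA (VV k r A)) (β h : ℕ),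
  Expd e β h → 1 ≤ h → GoodB C e x R β h → ∀ g ψ c, IsPath (C.T (K e x univ) R g) ψ c →
  (VS e (univ.filter (fun j => pos e x j ∈ ψ.map Prod.fst))).card ≤ β

/-- DET: a good outcome fools the circuit. -/
def T_DET : Prop := ∀ (k r s d : ℕ) (A : Type) [DecidableEq A] [Fintype A] (C : Ckt (VV k r A) s d)
  (e : Fin k → Fin r → Fin k) (x : Fin k → A) (R : Fin d → PA (VV k r A)) (z : VV k r A → Bool)
  (β h : ℕ), Expd e β h → 1 ≤ h → β < k → GoodU e x R z → GoodB C e x R β h →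
  ∀ b, ¬ ∀ y, (C.val y C.out = b ↔ fE e y)

/-! ## Hypergraph, encoding, parameters -/

/-- HG: expanding hypergraphs exist. -/
def T_HG : Prop := ∀ (β δ : ℝ), 0 < β → β < 1 → 0 < δ → ∃ r : ℕ, ∀ k : ℕ, 1 ≤ k →
  ∃ e : Fin k → Fin r → Fin k, Expd e ⌊β * k⌋₊ ⌊δ * k⌋₊

/-- ENA: the function is a projection of satisfiability of CNFs with short clauses. -/
def T_ENA : Prop := ∀ (k r ℓ n m : ℕ) (e : Fin k → Fin r → Fin k), 1 ≤ ℓ → 1 ≤ k → k * ℓ ≤ n →
  k * (2 ^ ℓ) ^ (r + 1) ≤ m → ∃ inc : Fin m × Fin n × Bool → Inp (VV k r (Fin ℓ → Bool)),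
    ∀ y, (Satisfiable (fun i => (inc i).val y) ↔ fE e y) ∧
      ∀ j, width (fun i => (inc i).val y) j ≤ (r + 1) * ℓ + 1

/-- ENB: conversion of circuits. -/
def T_ENB : Prop := ∀ (I V : Type) [Fintype I] (s d : ℕ) (C : Circuit I s) (inc : I → Inp V), C.DepthLE d →
  ∃ (C' : Ckt V s d) (b : Bool), ∀ y, (C'.val y C'.out = b ↔ C.Holds (fun i => (inc i).val y) C.out)

/-- PAR: the parameters. -/
def T_PAR : Prop := ∀ (d : ℕ) (ε : ℝ), 0 < ε → ε ≤ 1 → ∃ β δ : ℝ, 0 < β ∧ β < 1 ∧ 0 < δ ∧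
  ∀ r : ℕ, ∃ c : ℕ, ∀ᶠ n : ℕ in atTop, ∃ (k ℓ w : ℕ) (p q : ℝ), 1 ≤ k ∧ 1 ≤ ℓ ∧ k * ℓ ≤ n ∧
    k * (2 ^ ℓ) ^ (r + 1) ≤ n ^ c ∧ (r + 1) * ℓ + 1 ≤ c * Nat.log 2 n ∧ ⌊β * k⌋₊ < k ∧
    1 ≤ ⌊δ * k⌋₊ ∧ 1 ≤ w ∧ 0 < p ∧ p ≤ 1 / 2 ∧ 0 < q ∧ q ≤ 1 / 2 ∧ 64 * w * q ≤ p ∧
    ∀ s : ℕ, (s : ℝ) < 2 ^ ((1 - ε) * n) → HN k (2 ^ ℓ) s w ⌊β * k⌋₊ ⌊δ * k⌋₊ d p q

/-- MAIN: SETH for constant-depth circuits. -/
def T_MAIN : Prop := ∀ (d : ℕ) (ε : ℝ), 0 < ε → ∃ c : ℕ, ∀ᶠ n : ℕ in atTop, ∀ m : ℕ, n ^ c ≤ m →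
  ∀ (s : ℕ) (C : Circuit (Fin m × Fin n × Bool) s), C.DepthLE d →
    (∀ φ, (∀ j, width φ j ≤ c * Nat.log 2 n) → (C.Holds φ C.out ↔ Satisfiable φ)) →
    (2 : ℝ) ^ ((1 - ε) * n) ≤ s

end Pool.Agent.H68.AC
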