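import Pool.Agent.H68.AC.Lev

/-!
# SETH for constant-depth circuits: BA, BC, B
-/

namespace Pool.Agent.H68.AC

open Finset

theorem ind_nonneg (p : Prop) : 0 ≤ ind p := by
  unfold ind; split_ifs <;> norm_num

theorem ind_le_one (p : Prop) : ind p ≤ 1 := by
  unfold ind; split_ifs <;> norm_num

theorem ind_true {p : Prop} (h : p) : ind p = 1 := by
  unfold ind; simp [h]

theorem ind_false {p : Prop} (h : ¬ p) : ind p = 0 := by
  unfold ind; simp [h]

theorem ind_mono {p q : Prop} (h : p → q) : ind p ≤ ind q := by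
  by_cases hp : p
  · rw [ind_true hp, ind_true (h hp)]
  · rw [ind_false hp]; exact ind_nonneg q

theorem ind_exists_le {ι : Type} [Fintype ι] (p : ι → Prop) : ind (∃ i, p i) ≤ ∑ i, ind (p i) := by
  by_cases h : ∃ i, p i
  · obtain ⟨i, hi⟩ := h
    rw [ind_true ⟨i, hi⟩, ← ind_true hi]
    exact Finset.single_le_sum (f := fun i => ind (p i)) (fun j _ => ind_nonneg _) (mem_univ i)
  · rw [ind_false h]; exact Finset.sum_nonneg (fun j _ => ind_nonneg _)

theorem w1_nonneg {q p : ℝ} (hq : 0 ≤ q) (hq1 : q ≤ 1) (hp : 0 ≤ p) (hp1 : p ≤ 1) (o : Option Bool) :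
    0 ≤ w1 q p o := by
  rcases o with _ | _ | _
  · exact hq
  · exact mul_nonneg (by linarith) (by linarith)
  · exact mul_nonneg (by linarith) hp

theorem wt_nonneg {V : Type} [Fintype V] {q p : ℝ} (hq : 0 ≤ q) (hq1 : q ≤ 1) (hp : 0 ≤ p) (hp1 : p ≤ 1)
    (R : PA V) : 0 ≤ wt q p R := Finset.prod_nonneg (fun v _ => w1_nonneg hq hq1 hp hp1 _)

theorem Wt_nonneg {V : Type} [Fintype V] {d : ℕ} {q p : ℝ} (hq : 0 ≤ q) (hq1 : q ≤ 1) (hp : 0 ≤ p)
    (hp1 : p ≤ 1) (R : Fin d → PA V) : 0 ≤ Wt q p R :=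
  Finset.prod_nonneg (fun v _ => wt_nonneg hq hq1 hp hp1 _)

theorem ba_t (hI : T_IND) : T_BA := by
  intro V _ _ s d C w P g p q hp hp1 hq hq1
  rw [hI V d q p P (fun R => ind (EB C w P P R g)) ?_]
  · refine Finset.sum_le_sum (fun R _ => mul_le_mul_of_nonneg_left ?_ (Wt_nonneg hq hq1 hp hp1 R))
    by_cases h : ∀ j, ∀ v ∈ P, R j v = none
    · rw [ind_true h, one_mul]
      obtain ⟨_, h1, _⟩ := inv_t V s d C P R R
      obtain ⟨h2, h3⟩ := h1 h
      apply ind_mono
      unfold EB
      rw [h2, h3]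
      exact id
    · rw [ind_false h, zero_mul]; exact ind_nonneg _
  · intro R R' h
    obtain ⟨h1, _, _⟩ := inv_t V s d C P R R'
    obtain ⟨h2, h3⟩ := h1 h
    simp only [EB, h2, h3]

theorem pos_fst {k r : ℕ} {A : Type} (e : Fin k → Fin r → Fin k) (x : Fin k → A) (j : Fin k) :
    (pos e x j).1 = j := rfl

theorem pos_inj {k r : ℕ} {A : Type} (e : Fin k → Fin r → Fin k) (x : Fin k → A) :
    Function.Injective (pos e x) := fun i j h => by
  have := congrArg Prod.fst h
  exact this

theorem K_card {k r : ℕ} {A : Type} [DecidableEq A] (e : Fin k → Fin r → Fin k) (x : Fin k → A)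
    (H : Finset (Fin k)) : (K e x H).card = H.card := Finset.card_image_of_injective _ (pos_inj e x)

theorem bc_t : T_BC := by
  intro k r A _ _ e H F hF
  have h1 : ∑ x : Fin k → A, F (K e x H) = ∑ P ∈ univ.image (fun x : Fin k → A => K e x H),
      ∑ x ∈ univ.filter (fun x : Fin k → A => K e x H = P), F (K e x H) := by
    rw [Finset.sum_fiberwise_of_maps_to]
    intro x _
    exact Finset.mem_image_of_mem _ (mem_univ _)
  rw [h1, Finset.mul_sum]
  refine Finset.sum_le_sum (fun P hP => ?_)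
  have h2 : ∑ x ∈ univ.filter (fun x : Fin k → A => K e x H = P), F (K e x H)
      = ((univ.filter (fun x : Fin k → A => K e x H = P)).card : ℝ) * F P := by
    rw [Finset.sum_congr rfl (fun x hx => by rw [(Finset.mem_filter.1 hx).2]), Finset.sum_const,
      nsmul_eq_mul]
  rw [h2]
  refine mul_le_mul_of_nonneg_right ?_ (hF P)
  have h3 : (univ.filter (fun x : Fin k → A => K e x H = P)).card ≤
      (Fintype.card A) ^ (k - (VS e H).card) := by
    -- restrict to the complement of `VS`
    have h4 : Fintype.card ({v : Fin k // v ∉ VS e H} → A) = (Fintype.card A) ^ (k - (VS e H).card) := by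
      rw [Fintype.card_fun]
      congr 1
      rw [Fintype.card_subtype_compl]
      simp
    rw [← h4, ← Finset.card_univ]
    refine Finset.card_le_card_of_injOn (fun x v => x v.1) (fun _ _ => Finset.mem_coe.2 (mem_univ _)) ?_
    intro x hx x' hx' hxx
    rw [Finset.mem_coe, Finset.mem_filter] at hx hx'
    funext v
    by_cases hv : v ∈ VS e H
    · obtain ⟨j, hj, hv⟩ := Finset.mem_biUnion.1 hv
      obtain ⟨o, _, rfl⟩ := Finset.mem_image.1 hv
      have : pos e x j ∈ K e x' H := by
        rw [hx'.2, ← hx.2]; exact Finset.mem_image_of_mem _ hj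
      obtain ⟨i, hi, hij⟩ := Finset.mem_image.1 this
      have h5 : i = j := congrArg Prod.fst hij
      subst h5
      have h6 := congrArg Prod.snd hij
      exact (congrFun h6 o).symm
    · exact congrFun hxx ⟨v, hv⟩
  exact_mod_cast h3

theorem b_t (hBA : T_BA) (hBB : T_BB) : T_B := by
  intro k r s d A _ _ C w e H p q hw hp hp1 hq hq1 hwq
  set F : Finset (VV k r A) → ℝ := fun P =>
    ∑ g : Fin s, ∑ R : Fin d → PA (VV k r A), Wt q p R * ind (EB C w P ∅ R g) with hF
  have hF0 : ∀ P, 0 ≤ F P := fun P => Finset.sum_nonneg (fun g _ => Finset.sum_nonneg (fun R _ =>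
    mul_nonneg (Wt_nonneg hq.le (by linarith) hp.le (by linarith) R) (ind_nonneg _)))
  have h1 : q ^ (d * H.card) * ∑ x : Fin k → A, ∑ R : Fin d → PA (VV k r A),
      Wt q p R * ind (∃ g, EB C w (K e x H) (K e x H) R g) ≤ ∑ x : Fin k → A, F (K e x H) := by
    rw [Finset.mul_sum]
    refine Finset.sum_le_sum (fun x _ => ?_)
    have h2 : ∑ R : Fin d → PA (VV k r A), Wt q p R * ind (∃ g, EB C w (K e x H) (K e x H) R g) ≤
        ∑ g : Fin s, ∑ R : Fin d → PA (VV k r A), Wt q p R * ind (EB C w (K e x H) (K e x H) R g) := by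
      rw [Finset.sum_comm]
      refine Finset.sum_le_sum (fun R _ => ?_)
      rw [← Finset.mul_sum]
      exact mul_le_mul_of_nonneg_left (ind_exists_le _)
        (Wt_nonneg hq.le (by linarith) hp.le (by linarith) R)
    refine (mul_le_mul_of_nonneg_left h2 (pow_nonneg hq.le _)).trans ?_
    rw [Finset.mul_sum]
    refine Finset.sum_le_sum (fun g _ => ?_)
    have := hBA (VV k r A) s d C w (K e x H) g p q hp.le (by linarith) hq.le (by linarith)
    rwa [K_card] at this
  refine h1.trans ((bc_t k r A e H F hF0).trans ?_)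
  have h3 : ∑ P ∈ univ.image (fun x : Fin k → A => K e x H), F P ≤ s * (3 / 2) := by
    rw [hF, Finset.sum_comm]
    calc _ ≤ ∑ _g : Fin s, (3 / 2 : ℝ) := Finset.sum_le_sum (fun g _ =>
          hBB (VV k r A) s d C w _ g p q hw hp hp1 hq hq1 hwq)
      _ = s * (3 / 2) := by simp
  calc _ ≤ (Fintype.card A : ℝ) ^ (k - (VS e H).card) * (s * (3 / 2)) :=
        mul_le_mul_of_nonneg_left h3 (by positivity)
    _ = s * (3 / 2 * (Fintype.card A : ℝ) ^ (k - (VS e H).card)) := by ring

/-- The restriction of world `P` at the level of gate `g` as base plus one round. -/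
theorem rho_update {V : Type} [DecidableEq V] {d : ℕ} (P : Finset V) (R : Fin d → PA V) (j : Fin d)
    (Q : PA V) : rho P (Function.update R j Q) (j.1 + 1) = mask P (mrg (fd R j.1) Q) := by
  unfold rho
  rw [fd_succ _ j.1 j.2]
  simp only [Fin.eta, Function.update_self]
  congr 2
  funext v
  refine fd_congr _ _ _ v (fun i hi => ?_)
  rw [Function.update_of_ne]
  intro h; rw [h] at hi; exact lt_irrefl _ hi

theorem gW_empty {V : Type} [DecidableEq V] (μ : ℝ) (ψ : List (V × Bool)) :
    gW μ ∅ ψ = μ ^ ψ.length := by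
  unfold gW
  simp only [notMem_empty, if_false, List.map_const', List.prod_replicate]

theorem bb_t (hSW : T_SW) (hFUB : T_FUB) : T_BB := by
  intro V _ _ s d C w F g p q hw hp hp1 hq hq1 hwq
  rw [Finset.sum_comm]
  have h0 : ∀ R : Fin d → PA V, ∑ P ∈ F, Wt q p R * ind (EB C w P ∅ R g) =
      Wt q p R * ∑ P ∈ F, ind (EB C w P ∅ R g) := fun R => by rw [Finset.mul_sum]
  simp only [h0]
  refine hFUB V d q p (fun R => ∑ P ∈ F, ind (EB C w P ∅ R g)) ⟨C.lev g, C.lev_lt g⟩ (3 / 2)
    hq.le (by linarith) hp.le (by linarith) ?_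
  intro R
  -- the children do not depend on the round
  have hc : ∀ Q, C.cht ∅ (Function.update R ⟨C.lev g, C.lev_lt g⟩ Q) g = C.cht ∅ R g := by
    intro Q
    obtain ⟨_, _, h3⟩ := inv_t V s d C ∅ (Function.update R ⟨C.lev g, C.lev_lt g⟩ Q) R
    refine h3 g (fun i hi => ?_)
    rw [Function.update_of_ne]
    intro h; rw [h] at hi; exact lt_irrefl _ hi
  by_cases hsh : ∀ c ∈ C.cht ∅ R g, c.2.depth ≤ w
  · refine le_trans (Finset.sum_le_sum (fun Q _ => mul_le_mul_of_nonneg_left ?_
      (wt_nonneg hq.le (by linarith) hp.le (by linarith) Q)))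
      (hSW V (C.cht ∅ R g) w ∅ (fd R (C.lev g)) p q (Fintype.card V) hw hsh hp hp1 hq hq1 hwq)
    have hr := rho_update ∅ R ⟨C.lev g, C.lev_lt g⟩ Q
    simp only at hr
    have h1 : ∀ P ∈ F, ind (EB C w P ∅ (Function.update R ⟨C.lev g, C.lev_lt g⟩ Q) g) ≤
        ∑ π ∈ BPF (C.cht ∅ R g) (Fintype.card V) (mask ∅ (mrg (fd R (C.lev g)) Q)),
          (if P ⊆ (π.flatten.map Prod.fst).toFinset then (1 : ℝ) else 0) := by
      intro P _
      by_cases h : EB C w P ∅ (Function.update R ⟨C.lev g, C.lev_lt g⟩ Q) g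
      · rw [ind_true h]
        obtain ⟨_, π, h2, h3⟩ := h
        rw [hc, hr] at h2
        obtain ⟨_, _, h4⟩ := bpn_t V _ _ _ h2
        have h5 : P ⊆ (π.flatten.map Prod.fst).toFinset := fun v hv => List.mem_toFinset.2 (h3 v hv)
        have h6 := Finset.single_le_sum (f := fun π : List (List (V × Bool)) =>
          (if P ⊆ (π.flatten.map Prod.fst).toFinset then (1 : ℝ) else 0))
          (fun π _ => by split_ifs <;> norm_num) (mem_BPF.2 ⟨h2, h4⟩)
        simp only [h5, if_true] at h6
        exact h6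
      · rw [ind_false h]
        exact Finset.sum_nonneg (fun π _ => by split_ifs <;> norm_num)
    refine (Finset.sum_le_sum h1).trans ?_
    rw [Finset.sum_comm]
    refine Finset.sum_le_sum (fun π hπ => ?_)
    rw [gW_empty]
    rw [← Finset.sum_filter, Finset.sum_const, nsmul_eq_mul, mul_one]
    have h7 : (F.filter (fun P => P ⊆ (π.flatten.map Prod.fst).toFinset)).card ≤
        2 ^ π.flatten.length := by
      have h8 : (F.filter (fun P => P ⊆ (π.flatten.map Prod.fst).toFinset)) ⊆
          (π.flatten.map Prod.fst).toFinset.powerset := by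
        intro P hP
        exact Finset.mem_powerset.2 (Finset.mem_filter.1 hP).2
      refine (Finset.card_le_card h8).trans ?_
      rw [Finset.card_powerset]
      refine Nat.pow_le_pow_right (by norm_num) ((List.toFinset_card_le _).trans ?_)
      rw [List.length_map]
    exact_mod_cast h7
  · have h1 : ∀ Q : PA V, wt q p Q * ∑ P ∈ F, ind (EB C w P ∅
        (Function.update R ⟨C.lev g, C.lev_lt g⟩ Q) g) = 0 := by
      intro Q
      rw [Finset.sum_eq_zero, mul_zero]
      intro P _
      refine ind_false (fun h => hsh ?_)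
      have := h.1
      rwa [hc] at this
    rw [Finset.sum_eq_zero (fun Q _ => h1 Q)]
    norm_num

end Pool.Agent.H68.AC
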