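import Pool.Agent.H68.AC.FPs

/-!
# SETH for constant-depth circuits: canonical trees and block paths
-/

namespace Pool.Agent.H68.AC

open Finset

theorem bps_t : T_BPS := by
  intro V _ cs κ π α
  induction π generalizing κ with
  | nil => simp [IsBP, updL]
  | cons β π ih =>
    simp only [List.cons_append, IsBP, List.flatten_cons, updL_append, ih]
    constructor
    · rintro ⟨h1, h2, h3⟩; exact ⟨⟨h1, h2⟩, h3⟩
    · rintro ⟨⟨h1, h2⟩, h3⟩; exact ⟨h1, h2, h3⟩

theorem bpn_aux {V : Type} [DecidableEq V] (cs : List (Bool × DT V)) (κ : PA V)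
    (π : List (List (V × Bool))) (h : IsBP cs κ π) :
    (π.flatten.map Prod.fst).Nodup ∧ (∀ c ∈ π.flatten, κ c.1 = none) ∧ π.length ≤ π.flatten.length := by
  induction π generalizing κ with
  | nil => simp
  | cons α π ih =>
    obtain ⟨⟨τ, _, hne, hα⟩, hr⟩ := h
    obtain ⟨h1, h2, h3⟩ := ih _ hr
    have h4 : ∀ c ∈ α, κ c.1 = none := by
      intro c hc
      have : c.1 ∈ fr κ τ := by rw [← hα]; exact List.mem_map_of_mem hc
      exact (mem_fr.1 this).2
    refine ⟨?_, ?_, ?_⟩
    · rw [List.flatten_cons, List.map_append, List.nodup_append']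
      refine ⟨by rw [hα]; exact fr_nodup _ _, h1, ?_⟩
      intro v hv hv'
      obtain ⟨c, hc, rfl⟩ := List.mem_map.1 hv'
      exact updL_ne_none κ α c.1 hv (h2 c hc)
    · intro c hc
      rw [List.flatten_cons, List.mem_append] at hc
      rcases hc with hc | hc
      · exact h4 c hc
      · by_contra hk
        exact updL_ne_none_of κ α c.1 hk (h2 c hc)
    · have : α ≠ [] := by
        rintro rfl
        exact hne (by rw [← hα]; rfl)
      have := List.length_pos_iff.2 this
      simp only [List.length_cons, List.flatten_cons, List.length_append]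
      omega

theorem bpn_t : T_BPN := by
  intro V _ _ cs κ π h
  obtain ⟨h1, h2, h3⟩ := bpn_aux cs κ π h
  refine ⟨h1, h2, h3.trans ?_⟩
  have := h1.length_le_card
  rwa [List.length_map] at this

/-- The value at the end of a path. -/
theorem eval_of_path {V : Type} {t : DT V} {τ : List (V × Bool)} {c : Bool} (h : IsPath t τ c)
    (y : V → Bool) (hy : ∀ u ∈ τ, y u.1 = u.2) : t.eval y = c := by
  induction h with
  | leaf b => rfl
  | left v l r ψ c _ ih =>
    have := hy (v, false) List.mem_cons_self
    simp only [DT.eval]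
    simp only at this
    rw [this]
    exact ih (fun u hu => hy u (List.mem_cons_of_mem _ hu))
  | right v l r ψ c _ ih =>
    have := hy (v, true) List.mem_cons_self
    simp only [DT.eval]
    simp only at this
    rw [this]
    exact ih (fun u hu => hy u (List.mem_cons_of_mem _ hu))

/-- The path of `y`. -/
theorem exists_path {V : Type} (t : DT V) (y : V → Bool) :
    ∃ ψ, IsPath t ψ (t.eval y) ∧ ∀ u ∈ ψ, y u.1 = u.2 := by
  induction t with
  | leaf b => exact ⟨[], IsPath.leaf b, by simp⟩
  | node v l r ihl ihr =>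
    simp only [DT.eval]
    cases hv : y v with
    | false =>
      obtain ⟨ψ, h1, h2⟩ := ihl
      refine ⟨(v, false) :: ψ, IsPath.left _ _ _ _ _ h1, ?_⟩
      intro u hu
      rcases List.mem_cons.1 hu with rfl | hu
      · exact hv
      · exact h2 u hu
    | true =>
      obtain ⟨ψ, h1, h2⟩ := ihr
      refine ⟨(v, true) :: ψ, IsPath.right _ _ _ _ _ h1, ?_⟩
      intro u hu
      rcases List.mem_cons.1 hu with rfl | hu
      · exact hv
      · exact h2 u hu

/-- The longest path. -/
theorem exists_long_path {V : Type} (t : DT V) : ∃ ψ c, IsPath t ψ c ∧ ψ.length = t.depth := by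
  induction t with
  | leaf b => exact ⟨[], b, IsPath.leaf b, rfl⟩
  | node v l r ihl ihr =>
    obtain ⟨ψ, c, h1, h2⟩ := ihl
    obtain ⟨ψ', c', h3, h4⟩ := ihr
    rcases le_total l.depth r.depth with h | h
    · exact ⟨_, _, IsPath.right v l r ψ' c' h3, by simp [DT.depth, h4, max_eq_right h]⟩
    · exact ⟨_, _, IsPath.left v l r ψ c h1, by simp [DT.depth, h2, max_eq_left h]⟩

/-- Paths are not longer than the depth. -/
theorem path_length {V : Type} {t : DT V} {τ : List (V × Bool)} {c : Bool} (h : IsPath t τ c) :
    τ.length ≤ t.depth := by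
  induction h with
  | leaf b => simp
  | left v l r ψ c _ ih => simp only [List.length_cons, DT.depth]; omega
  | right v l r ψ c _ ih => simp only [List.length_cons, DT.depth]; omega

section

variable {V : Type} [DecidableEq V]

theorem qa_path {L : List V} {κ : PA V} {f : PA V → DT V} {ψ : List (V × Bool)} {c : Bool} :
    IsPath (qa L κ f) ψ c ↔ ∃ α ψ', ψ = α ++ ψ' ∧ α.map Prod.fst = L ∧ IsPath (f (updL κ α)) ψ' c := by
  induction L generalizing κ ψ with
  | nil =>
    simp only [qa, List.map_eq_nil_iff]
    constructor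
    · intro h; exact ⟨[], ψ, rfl, rfl, h⟩
    · rintro ⟨α, ψ', rfl, rfl, h⟩; exact h
  | cons v L ih =>
    simp only [qa]
    constructor
    · intro h
      cases h with
      | left _ _ _ ψ _ h =>
        obtain ⟨α, ψ', rfl, h2, h3⟩ := ih.1 h
        exact ⟨(v, false) :: α, ψ', rfl, by simp [h2], h3⟩
      | right _ _ _ ψ _ h =>
        obtain ⟨α, ψ', rfl, h2, h3⟩ := ih.1 h
        exact ⟨(v, true) :: α, ψ', rfl, by simp [h2], h3⟩
    · rintro ⟨α, ψ', rfl, h2, h3⟩
      cases α with
      | nil => simp at h2
      | cons a α =>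
        obtain ⟨u, b⟩ := a
        simp only [List.map_cons, List.cons.injEq] at h2
        obtain ⟨rfl, h2⟩ := h2
        cases b with
        | false => exact IsPath.left _ _ _ _ _ (ih.2 ⟨α, ψ', rfl, h2, h3⟩)
        | true => exact IsPath.right _ _ _ _ _ (ih.2 ⟨α, ψ', rfl, h2, h3⟩)

theorem qa_eval {L : List V} {κ : PA V} {f : PA V → DT V} {y : V → Bool} :
    (qa L κ f).eval y = (f (updL κ (L.map (fun v => (v, y v))))).eval y := by
  induction L generalizing κ with
  | nil => rfl
  | cons v L ih =>
    simp only [qa, DT.eval, List.map_cons, updL]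
    cases y v with
    | false => exact ih
    | true => exact ih

theorem nfree_updL [Fintype V] {κ : PA V} {α : List (V × Bool)} (hne : α ≠ [])
    (h : ∀ c ∈ α, κ c.1 = none) : nfree (updL κ α) < nfree κ := by
  unfold nfree
  apply Finset.card_lt_card
  rw [Finset.ssubset_iff_of_subset]
  · obtain ⟨c, hc⟩ := List.exists_mem_of_ne_nil α hne
    refine ⟨c.1, by simp [h c hc], ?_⟩
    simp only [mem_filter, mem_univ, true_and]
    exact updL_ne_none κ α c.1 (List.mem_map_of_mem hc)
  · intro v hv
    simp only [mem_filter, mem_univ, true_and] at hv ⊢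
    by_contra hk
    exact updL_ne_none_of κ α v hk hv

theorem block_free {κ : PA V} {τ α : List (V × Bool)} (hne : fr κ τ ≠ [])
    (hα : α.map Prod.fst = fr κ τ) : α ≠ [] ∧ ∀ c ∈ α, κ c.1 = none := by
  constructor
  · rintro rfl; exact hne (by rw [← hα]; rfl)
  · intro c hc
    have : c.1 ∈ fr κ τ := by rw [← hα]; exact List.mem_map_of_mem hc
    exact (mem_fr.1 this).2

theorem ext_updL {κ : PA V} {y : V → Bool} (h : Ext κ y) (L : List V) :
    Ext (updL κ (L.map (fun v => (v, y v)))) y := by
  induction L generalizing κ with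
  | nil => exact h
  | cons v L ih => exact ih (ext_upd' h rfl)

end

theorem cane_t : T_CANE := by
  intro V _ _ cs n
  induction n with
  | zero => intro κ y h; omega
  | succ n ih =>
    intro κ y hn hy
    obtain ⟨hS1, hS2⟩ := nxs_t V cs κ
    cases hx : nxt cs κ with
    | none =>
      simp only [can, hx, DT.eval, Bool.false_eq_true, false_iff]
      rintro ⟨c, hc, h⟩
      exact hS2.1 hx y hy c hc h
    | some τ =>
      by_cases hf : fr κ τ = []
      · simp only [can, hx, hf, if_true, DT.eval, true_iff]
        obtain ⟨h1, _, c, hc, hp⟩ := hS1 τ hx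
        refine ⟨c, hc, eval_of_path hp y ?_⟩
        intro u hu
        cases hk : κ u.1 with
        | none =>
          have : u.1 ∈ fr κ τ := mem_fr.2 ⟨List.mem_map_of_mem hu, hk⟩
          rw [hf] at this; simp at this
        | some b =>
          rw [hy u.1 b hk]
          exact h1 u hu b hk
      · simp only [can, hx, hf, if_false]
        rw [qa_eval]
        have hα : (((fr κ τ).map (fun v => (v, y v)))).map Prod.fst = fr κ τ := by
          rw [List.map_map]; exact List.map_id _
        obtain ⟨h1, h2⟩ := block_free hf hα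
        have := nfree_updL h1 h2
        exact ih _ y (by omega) (ext_updL hy _)

theorem canp_t : T_CANP := by
  intro V _ _ cs n
  induction n with
  | zero => intro κ ψ c h; omega
  | succ n ih =>
    intro κ ψ c hn hp
    cases hx : nxt cs κ with
    | none =>
      simp only [can, hx] at hp
      cases hp
      exact ⟨[], rfl, trivial, Or.inl ⟨hx, rfl⟩⟩
    | some τ =>
      by_cases hf : fr κ τ = []
      · simp only [can, hx, hf, if_true] at hp
        cases hp
        exact ⟨[], rfl, trivial, Or.inr ⟨τ, hx, hf, rfl⟩⟩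
      · simp only [can, hx, hf, if_false] at hp
        obtain ⟨α, ψ', rfl, hα, hp⟩ := qa_path.1 hp
        obtain ⟨h1, h2⟩ := block_free hf hα
        have := nfree_updL h1 h2
        obtain ⟨π, h3, h4, h5⟩ := ih (updL κ α) ψ' c (by omega) hp
        refine ⟨α :: π, by simp [h3], ⟨⟨τ, hx, hf, hα⟩, h4⟩, ?_⟩
        rw [updL_append]; exact h5

theorem canb_t : T_CANB := by
  intro V _ _ cs n
  induction n with
  | zero => intro κ π c h; omega
  | succ n ih =>
    intro κ π c hn hb hs
    cases π with
    | nil =>
      simp only [List.flatten_nil, updL] at hs ⊢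
      rcases hs with ⟨h1, rfl⟩ | ⟨τ, h1, h2, rfl⟩
      · simp only [can, h1]; exact IsPath.leaf _
      · simp only [can, h1, h2, if_true]; exact IsPath.leaf _
    | cons α π =>
      obtain ⟨⟨τ, hx, hf, hα⟩, hb⟩ := hb
      obtain ⟨h1, h2⟩ := block_free hf hα
      have := nfree_updL h1 h2
      simp only [can, hx, hf, if_false, List.flatten_cons]
      refine qa_path.2 ⟨α, π.flatten, rfl, hα, ih (updL κ α) π c (by omega) hb ?_⟩
      rw [List.flatten_cons, updL_append] at hs
      exact hs

end Pool.Agent.H68.AC
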