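import Pool.Agent.H68.AC.Targets

/-!
# SETH for constant-depth circuits: conversion of circuits (ENB)
-/

namespace Pool.Agent.H68.AC

open Finset

open Classical in
/-- The converted circuit: every gate is the disjunction of its sources (OR) or the disjunction of the
negated sources (AND). -/
noncomputable def conv {I V : Type} [Fintype I] {s d : ℕ} (C : Circuit I s) (inc : I → Inp V)
    (lev : Fin s → ℕ) (h1 : ∀ g, lev g < d) (h2 : ∀ g, ∀ c ∈ C.wires g, lev c.1 < lev g) : Ckt V s d where
  ch g := ((univ.filter (fun c : I × Bool => c ∈ C.lits g)).toList.map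
      (fun c => (xor (C.isAnd g) c.2, Sum.inl (inc c.1)))) ++
    ((univ.filter (fun c : Fin s × Bool => c ∈ C.wires g)).toList.map
      (fun c => (xor (xor (C.isAnd g) (C.isAnd c.1)) c.2, Sum.inr c.1)))
  lev := lev
  lev_lt := h1
  acyc := by
    intro g b g' h
    rw [List.mem_append] at h
    rcases h with h | h
    · obtain ⟨c, _, hc⟩ := List.mem_map.1 h
      simp only [Prod.mk.injEq, reduceCtorEq, and_false] at hc
    · obtain ⟨c, hc, he⟩ := List.mem_map.1 h
      simp only [Prod.mk.injEq, Sum.inr.injEq] at he
      rw [Finset.mem_toList, mem_filter] at hc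
      rw [← he.2]
      exact h2 g c hc.2
  out := C.out

theorem enb_t : T_ENB := by
  intro I V _ s d C inc hd
  obtain ⟨lev, h1, h2⟩ := hd
  set C' := conv C inc lev h1 h2 with hC'
  have key : ∀ y : V → Bool, ∀ n, ∀ g : Fin s, g.1 < n →
      (C'.val y g = !(C.isAnd g) ↔ C.Holds (fun i => (inc i).val y) g) := by
    intro y n
    induction n with
    | zero => intro g hg; omega
    | succ n ih =>
      intro g hg
      have hw : ∀ c ∈ C.wires g, (C'.val y c.1 = !(C.isAnd c.1) ↔ C.Holds (fun i => (inc i).val y) c.1) := by
        intro c hc
        have := C.topo g c hc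
        exact ih c.1 (by have := Fin.lt_def.1 this; omega)
      have hval : C'.val y g = true ↔
          (∃ c ∈ C.lits g, (inc c.1).val y = xor (C.isAnd g) c.2) ∨
          ∃ c ∈ C.wires g, C'.val y c.1 = xor (xor (C.isAnd g) (C.isAnd c.1)) c.2 := by
        rw [C'.val_eq]
        constructor
        · rintro ⟨c, hc, h⟩
          simp only [hC', conv, List.mem_append, List.mem_map, Finset.mem_toList, mem_filter, mem_univ,
            true_and] at hc
          rcases hc with ⟨a, ha, rfl⟩ | ⟨a, ha, rfl⟩
          · exact Or.inl ⟨a, ha, h⟩
          · exact Or.inr ⟨a, ha, h⟩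
        · rintro (⟨a, ha, h⟩ | ⟨a, ha, h⟩)
          · refine ⟨(xor (C.isAnd g) a.2, Sum.inl (inc a.1)), ?_, h⟩
            simp only [hC', conv, List.mem_append, List.mem_map, Finset.mem_toList, mem_filter, mem_univ,
              true_and]
            exact Or.inl ⟨a, ha, rfl⟩
          · refine ⟨(xor (xor (C.isAnd g) (C.isAnd a.1)) a.2, Sum.inr a.1), ?_, h⟩
            simp only [hC', conv, List.mem_append, List.mem_map, Finset.mem_toList, mem_filter, mem_univ,
              true_and]
            exact Or.inr ⟨a, ha, rfl⟩
      rw [Circuit.Holds]
      cases hg2 : C.isAnd g with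
      | false =>
        simp only [Bool.not_false, Bool.false_eq_true, if_false]
        rw [hval, hg2]
        simp only [Bool.false_xor]
        constructor
        · rintro (h | ⟨c, hc, h⟩)
          · exact Or.inl h
          · refine Or.inr ⟨c, hc, ?_⟩
            rw [← hw c hc, h]
            cases C.isAnd c.1 <;> cases c.2 <;> simp
        · rintro (h | ⟨c, hc, h⟩)
          · exact Or.inl h
          · refine Or.inr ⟨c, hc, ?_⟩
            rw [← hw c hc] at h
            revert h
            cases C.isAnd c.1 <;> cases c.2 <;> cases C'.val y c.1 <;> simp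
      | true =>
        simp only [Bool.not_true, if_true]
        rw [← Bool.not_eq_true, hval, hg2]
        push Not
        constructor
        · rintro ⟨h3, h4⟩
          refine ⟨fun c hc => ?_, fun c hc => ?_⟩
          · have := h3 c hc
            revert this
            cases c.2 <;> cases (inc c.1).val y <;> simp
          · have := h4 c hc
            rw [← hw c hc]
            revert this
            cases C.isAnd c.1 <;> cases c.2 <;> cases C'.val y c.1 <;> simp
        · rintro ⟨h3, h4⟩
          refine ⟨fun c hc => ?_, fun c hc => ?_⟩
          · have := h3 c hc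
            revert this
            cases c.2 <;> cases (inc c.1).val y <;> simp
          · have := h4 c hc
            rw [← hw c hc] at this
            revert this
            cases C.isAnd c.1 <;> cases c.2 <;> cases C'.val y c.1 <;> simp
  exact ⟨C', !(C.isAnd C.out), fun y => key y s C.out C.out.2⟩

end Pool.Agent.H68.AC
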