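import Pool.Agent.H68.AC.Can

/-!
# SETH for constant-depth circuits: the levels of the circuit (INV, COR, LOCW)
-/

namespace Pool.Agent.H68.AC

open Finset

section

variable {V : Type} [DecidableEq V] [Fintype V] {s d : ℕ}

theorem rho_congr (P : Finset V) (R R' : Fin d → PA V) (h : ∀ j v, v ∉ P → R j v = R' j v) (j : ℕ) :
    rho P R j = rho P R' j := by
  funext v
  simp only [rho, mask]
  by_cases hP : v ∈ P
  · simp [hP]
  · simp only [hP, if_false]
    exact fd_congr R R' j v (fun i _ => h i v hP)

theorem fd_none (P : Finset V) (R : Fin d → PA V) (h : ∀ j, ∀ v ∈ P, R j v = none) (j : ℕ) (v : V)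
    (hv : v ∈ P) : fd R j v = none := by
  induction j with
  | zero => rfl
  | succ j ih =>
    simp only [fd, mrg, ih]
    by_cases hj : j < d
    · simp only [hj, dite_true, h ⟨j, hj⟩ v hv]
    · simp only [hj, dite_false]

theorem rho_empty (P : Finset V) (R : Fin d → PA V) (h : ∀ j, ∀ v ∈ P, R j v = none) (j : ℕ) :
    rho P R j = rho ∅ R j := by
  funext v
  simp only [rho, mask, notMem_empty, if_false]
  by_cases hP : v ∈ P
  · simp [hP, fd_none P R h j v hP]
  · simp only [hP, if_false]

/-- If the trees of the gates of lower level are the same then so are the signed source trees. -/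
theorem cht_congr (C : Ckt V s d) (P P' : Finset V) (R R' : Fin d → PA V) (g : Fin s)
    (h : ∀ g', C.lev g' < C.lev g → C.T P R g' = C.T P' R' g') : C.cht P R g = C.cht P' R' g := by
  unfold Ckt.cht
  apply List.map_congr_left
  rintro ⟨b, i | g'⟩ hc
  · rfl
  · simp only [Ckt.stree, Sum.elim_inr]
    rw [h g' (C.acyc g b g' hc)]

end

theorem inv_t : T_INV := by
  intro V _ _ s d C P R R'
  refine ⟨?_, ?_, ?_⟩
  · intro h
    have h1 := rho_congr P R R' h
    refine ⟨h1, ?_⟩
    have h2 : ∀ n, ∀ g, C.lev g ≤ n → C.T P R g = C.T P R' g := by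
      intro n
      induction n with
      | zero =>
        intro g hg
        rw [C.T_eq, C.T_eq, h1, cht_congr C P P R R' g (fun g' hg' => by omega)]
      | succ n ih =>
        intro g hg
        rw [C.T_eq, C.T_eq, h1, cht_congr C P P R R' g (fun g' hg' => ih g' (by omega))]
    intro g
    exact cht_congr C P P R R' g (fun g' _ => h2 _ g' le_rfl)
  · intro h
    have h1 := rho_empty P R h
    refine ⟨h1, ?_⟩
    have h2 : ∀ n, ∀ g, C.lev g ≤ n → C.T P R g = C.T ∅ R g := by
      intro n
      induction n with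
      | zero =>
        intro g hg
        rw [C.T_eq, C.T_eq, h1, cht_congr C P ∅ R R g (fun g' hg' => by omega)]
      | succ n ih =>
        intro g hg
        rw [C.T_eq, C.T_eq, h1, cht_congr C P ∅ R R g (fun g' hg' => ih g' (by omega))]
    intro g
    exact cht_congr C P ∅ R R g (fun g' _ => h2 _ g' le_rfl)
  · have h0 : ∀ j, (∀ i : Fin d, i.1 < j → R i = R' i) → rho P R j = rho P R' j := by
      intro j hj
      funext v
      simp only [rho, mask]
      rw [fd_congr R R' j v (fun i hi => by rw [hj i hi])]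
    have h2 : ∀ n, ∀ g, C.lev g ≤ n → (∀ i : Fin d, i.1 < C.lev g + 1 → R i = R' i) →
        C.T P R g = C.T P R' g := by
      intro n
      induction n with
      | zero =>
        intro g hg hi
        rw [C.T_eq, C.T_eq, h0 _ hi, cht_congr C P P R R' g (fun g' hg' => by omega)]
      | succ n ih =>
        intro g hg hi
        rw [C.T_eq, C.T_eq, h0 _ hi, cht_congr C P P R R' g (fun g' hg' => ih g' (by omega)
          (fun i h => hi i (by omega)))]
    intro g hi
    exact cht_congr C P P R R' g (fun g' hg' => h2 _ g' le_rfl (fun i h => hi i (by omega)))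

theorem nfree_le {V : Type} [DecidableEq V] [Fintype V] (κ : PA V) : nfree κ < Fintype.card V + 1 :=
  Nat.lt_succ_of_le (Finset.card_le_univ _)

theorem cor_t : T_COR := by
  intro V _ _ s d C P R
  have h2 : ∀ n, ∀ g, C.lev g ≤ n → ∀ y, Ext (rho P R (C.lev g + 1)) y → (C.T P R g).eval y = C.val y g := by
    intro n
    induction n with
    | zero =>
      intro g hg y hy
      rw [C.T_eq, Bool.eq_iff_iff, cane_t V _ _ _ y (nfree_le _) hy, C.val_eq]
      constructor
      · rintro ⟨c, hc, h⟩
        obtain ⟨⟨b, i | g'⟩, ha, rfl⟩ := (C.mem_cht P R g c).1 hc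
        · exact ⟨_, ha, by cases i <;> simpa [Ckt.sval, Ckt.stree, Inp.tree, Inp.val, DT.eval] using h⟩
        · have := C.acyc g b g' ha; omega
      · rintro ⟨⟨b, i | g'⟩, ha, h⟩
        · exact ⟨_, (C.mem_cht P R g _).2 ⟨_, ha, rfl⟩,
            by cases i <;> simpa [Ckt.sval, Ckt.stree, Inp.tree, Inp.val, DT.eval] using h⟩
        · have := C.acyc g b g' ha; omega
    | succ n ih =>
      intro g hg y hy
      rw [C.T_eq, Bool.eq_iff_iff, cane_t V _ _ _ y (nfree_le _) hy, C.val_eq]
      have h3 : ∀ b g', (b, Sum.inr g') ∈ C.ch g → (C.T P R g').eval y = C.val y g' := by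
        intro b g' ha
        have := C.acyc g b g' ha
        exact ih g' (by omega) y (hy.of_sub (rho_mono P R (by omega)))
      constructor
      · rintro ⟨c, hc, h⟩
        obtain ⟨⟨b, i | g'⟩, ha, rfl⟩ := (C.mem_cht P R g c).1 hc
        · exact ⟨_, ha, by cases i <;> simpa [Ckt.sval, Ckt.stree, Inp.tree, Inp.val, DT.eval] using h⟩
        · refine ⟨_, ha, ?_⟩
          simp only [Ckt.sval, Sum.elim_inr, Ckt.stree] at h ⊢
          rw [← h3 b g' ha]; exact h
      · rintro ⟨⟨b, i | g'⟩, ha, h⟩
        · exact ⟨_, (C.mem_cht P R g _).2 ⟨_, ha, rfl⟩,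
            by cases i <;> simpa [Ckt.sval, Ckt.stree, Inp.tree, Inp.val, DT.eval] using h⟩
        · refine ⟨_, (C.mem_cht P R g _).2 ⟨_, ha, rfl⟩, ?_⟩
          simp only [Ckt.sval, Sum.elim_inr, Ckt.stree] at h ⊢
          rw [h3 b g' ha]; exact h
  intro g y hy
  exact h2 _ g le_rfl y hy

theorem locw_t (hL : T_LOC) : T_LOCW := by
  intro V _ _ s d C A B R
  -- by induction on the level
  have h2 : ∀ n, ∀ g, C.lev g < n → A ⊆ B →
      (∀ ψ c, IsPath (C.T B R g) ψ c → Avoid {v | v ∈ B ∧ v ∉ A} ψ → IsPath (C.T A R g) ψ c) ∧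
      (∀ π, IsBP (C.cht B R g) (rho B R (C.lev g + 1)) π → Avoid {v | v ∈ B ∧ v ∉ A} π.flatten →
        IsBP (C.cht A R g) (rho A R (C.lev g + 1)) π) := by
    intro n
    induction n with
    | zero => intro g hg; omega
    | succ n ih =>
      intro g hg hAB
      have hE : ExtOn {v | v ∈ B ∧ v ∉ A} (rho A R (C.lev g + 1)) (rho B R (C.lev g + 1)) := by
        constructor
        · intro v hv
          simp only [Set.mem_setOf_eq, not_and, not_not] at hv
          simp only [rho, mask]
          by_cases hB : v ∈ B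
          · simp [hB, hv hB]
          · have : v ∉ A := fun h => hB (hAB h)
            simp [hB, this]
        · intro v hv
          simp only [rho, mask, hv.1, if_true]
      have hS : Sim {v | v ∈ B ∧ v ∉ A} (rho A R (C.lev g + 1)) (C.cht A R g) (C.cht B R g) := by
        unfold Sim Ckt.cht
        rw [List.forall₂_map_left_iff, List.forall₂_map_right_iff, List.forall₂_same]
        rintro ⟨b, i | g'⟩ hc
        · exact ⟨rfl, fun _ _ => rfl, fun τ c h _ => h⟩
        · have hlt := C.acyc g b g' hc
          refine ⟨rfl, ?_, ?_⟩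
          · intro y hy
            simp only [Ckt.stree, Sum.elim_inr]
            rw [cor_t V s d C A R g' y (hy.of_sub (rho_mono A R (by omega))),
              cor_t V s d C B R g' y ((hy.of_sub hE.sub).of_sub (rho_mono B R (by omega)))]
          · intro τ c h hD
            exact (ih g' (by omega) hAB).1 τ c h hD
      have hbp := fun π => hL V {v | v ∈ B ∧ v ∉ A} _ _ _ _ π hS hE
      refine ⟨?_, fun π h1 h2 => (hbp π h1 h2).1⟩
      intro ψ c hp hD
      rw [C.T_eq] at hp ⊢
      obtain ⟨π, rfl, h3, h4⟩ := canp_t V _ _ _ _ _ (nfree_le _) hp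
      obtain ⟨h5, h6⟩ := hbp π h3 hD
      exact canb_t V _ _ _ _ _ (nfree_le _) h5 (h6 c h4)
  intro g hAB
  exact h2 _ g (Nat.lt_succ_self _) hAB

end Pool.Agent.H68.AC
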