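import Pool.Agent.H68.AC.Lev

/-!
# SETH for constant-depth circuits: locality of block paths (LOC)
-/

namespace Pool.Agent.H68.AC

open Finset

/-- If all queries of `τ` are set by `κB` or avoid `D`, then `τ` avoids `D`. -/
theorem avoid_of {V : Type} [DecidableEq V] {D : Set V} {κA κB : PA V} (hE : ExtOn D κA κB)
    {τ : List (V × Bool)} (h : ∀ v ∈ fr κB τ, v ∉ D) : Avoid D τ := by
  intro c hc hD
  refine h c.1 (mem_fr.2 ⟨List.mem_map_of_mem hc, hE.2 c.1 hD⟩) hD

theorem fr_eq {V : Type} [DecidableEq V] {D : Set V} {κA κB : PA V} (hE : ExtOn D κA κB)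
    {τ : List (V × Bool)} (h : Avoid D τ) : fr κA τ = fr κB τ := by
  unfold fr
  congr 1
  apply List.filter_congr
  intro v hv
  obtain ⟨c, hc, rfl⟩ := List.mem_map.1 hv
  rw [hE.1 c.1 (h c hc)]

theorem loc_t : T_LOC := by
  intro V _ _ D κA κB csA csB π hS hE
  induction π generalizing κA κB with
  | nil =>
    intro _ _
    refine ⟨trivial, ?_⟩
    obtain ⟨h1, h2⟩ := nxl_t V D κA κB csA csB hS hE
    intro c hc
    simp only [List.flatten_nil, updL] at hc ⊢
    rcases hc with ⟨h3, rfl⟩ | ⟨τ, h3, h4, rfl⟩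
    · exact Or.inl ⟨h1 h3, rfl⟩
    · have hav : Avoid D τ := avoid_of hE (by rw [h4]; simp)
      exact Or.inr ⟨τ, h2 τ h3 hav, by rw [fr_eq hE hav, h4], rfl⟩
  | cons α π ih =>
    intro hb hav
    obtain ⟨⟨τ, hx, hne, hα⟩, hb⟩ := hb
    rw [List.flatten_cons] at hav
    have hav1 : Avoid D α := fun c hc => hav c (List.mem_append_left _ hc)
    have hav2 : Avoid D π.flatten := fun c hc => hav c (List.mem_append_right _ hc)
    have hτ : Avoid D τ := avoid_of hE (by
      intro v hv
      rw [← hα] at hv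
      obtain ⟨c, hc, rfl⟩ := List.mem_map.1 hv
      exact hav1 c hc)
    obtain ⟨_, h2⟩ := nxl_t V D κA κB csA csB hS hE
    have hfr := fr_eq hE hτ
    have hfree : ∀ c ∈ α, κA c.1 = none := by
      intro c hc
      have : c.1 ∈ fr κA τ := by rw [hfr, ← hα]; exact List.mem_map_of_mem hc
      exact (mem_fr.1 this).2
    have hS' : Sim D (updL κA α) csA csB := by
      refine List.Forall₂.imp ?_ hS
      rintro a b ⟨h3, h4, h5⟩
      refine ⟨h3, fun y hy => h4 y (fun v b hv => hy v b ?_), h5⟩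
      rw [updL_not_mem]
      · exact hv
      · intro hm
        obtain ⟨c, hc, rfl⟩ := List.mem_map.1 hm
        rw [hfree c hc] at hv; simp at hv
    have hnd : (α.map Prod.fst).Nodup := by rw [hα]; exact fr_nodup _ _
    have hE' : ExtOn D (updL κA α) (updL κB α) := by
      constructor
      · intro v hv
        by_cases hm : v ∈ α.map Prod.fst
        · obtain ⟨c, hc, rfl⟩ := List.mem_map.1 hm
          rw [updL_mem _ _ hnd c hc, updL_mem _ _ hnd c hc]
        · rw [updL_not_mem _ _ _ hm, updL_not_mem _ _ _ hm]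
          exact hE.1 v hv
      · intro v hv
        rw [updL_not_mem]
        · exact hE.2 v hv
        · intro hm
          obtain ⟨c, hc, rfl⟩ := List.mem_map.1 hm
          exact hav1 c hc hv
    obtain ⟨h6, h7⟩ := ih (updL κA α) (updL κB α) hS' hE' hb hav2
    refine ⟨⟨⟨τ, h2 τ hx hτ, by rw [hfr]; exact hne, by rw [hfr]; exact hα⟩, h6⟩, ?_⟩
    intro c hc
    rw [List.flatten_cons, updL_append] at hc ⊢
    exact h7 c hc

end Pool.Agent.H68.AC
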