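import Pool.Agent.H68.AC.BCx
import Pool.Agent.H90.AC.W

/-!
# SETH for constant-depth circuits: the switching lemma (SW)
-/

namespace Pool.Agent.H68.AC

open Finset

/-- The weight `gW` as a product over all variables. -/
theorem gW_eq {V : Type} [DecidableEq V] [Fintype V] (μ : ℝ) (P : Finset V) (ψ : List (V × Bool))
    (h : (ψ.map Prod.fst).Nodup) : gW μ P ψ =
    ∏ v : V, (if v ∈ ψ.map Prod.fst then (if v ∈ P then (1 / 8 : ℝ) else μ) else 1) := by
  have h1 : gW μ P ψ = ∏ v ∈ (ψ.map Prod.fst).toFinset, (if v ∈ P then (1 / 8 : ℝ) else μ) := by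
    rw [List.prod_toFinset _ h, List.map_map]
    rfl
  rw [h1, ← Finset.prod_filter_mul_prod_filter_not univ (fun v => v ∈ ψ.map Prod.fst)]
  rw [Finset.prod_eq_one (s := univ.filter (fun v => ¬ v ∈ ψ.map Prod.fst)), mul_one]
  · refine Finset.prod_congr ?_ ?_
    · ext v; simp
    · intro v hv
      rw [Finset.mem_filter] at hv
      simp only [hv.2, if_true]
  · intro v hv
    rw [Finset.mem_filter] at hv
    simp only [hv.2, if_false]

theorem gW_nonneg {V : Type} [DecidableEq V] {μ : ℝ} (hμ : 0 ≤ μ) (P : Finset V)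
    (ψ : List (V × Bool)) : 0 ≤ gW μ P ψ := by
  unfold gW
  apply List.prod_nonneg
  intro a ha
  obtain ⟨c, _, rfl⟩ := List.mem_map.1 ha
  split_ifs
  · norm_num
  · exact hμ

theorem w1_ge {q p : ℝ} (hp : 0 < p) (hp1 : p ≤ 1 / 2) (hq : 0 < q) (hq1 : q ≤ 1 / 2) (o : Option Bool)
    (ho : o ≠ none) : p / 2 ≤ w1 q p o := by
  rcases o with _ | _ | _
  · exact absurd rfl ho
  · simp only [w1]; nlinarith
  · simp only [w1]; nlinarith

theorem sw_t (hSWS : T_SWS) (hSWM : T_SWM) (hBPN : T_BPN) : T_SW := by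
  classical
  intro V _ _ cs w P ρ p q n hw hd hp hp1 hq hq1 hwq
  set B : PA V → Finset (List (List (V × Bool))) := fun R => BPF cs n (mask P (mrg ρ R)) with hB
  have hE : ∀ (R : PA V) (π : List (List (V × Bool))), ∃ R' : PA V, π ∈ B R →
      ((∀ v, (v ∈ P ∨ v ∉ π.flatten.map Prod.fst) → R' v = R v) ∧
      (∀ v, v ∉ P → v ∈ π.flatten.map Prod.fst → R v = none ∧ R' v ≠ none) ∧
      IsD cs P (mask P (mrg ρ R')) π) := by
    intro R π
    by_cases h : π ∈ B R
    · obtain ⟨R', h1⟩ := hSWM V cs P ρ R π (mem_BPF.1 h).1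
      exact ⟨R', fun _ => h1⟩
    · exact ⟨R, fun h' => absurd h' h⟩
  choose E hE using hE
  have hμ : 0 ≤ 4 * q / p := by positivity
  have hμw : 16 * w * (4 * q / p) ≤ 1 := by
    rw [show (16 * (w : ℝ) * (4 * q / p)) = 64 * w * q / p by ring, div_le_one hp]
    exact hwq
  set U : Finset (List (List (V × Bool))) := univ.biUnion B with hU
  set S : PA V → Finset (List (List (V × Bool))) := fun R' =>
    U.filter (fun π => IsD cs P (mask P (mrg ρ R')) π) with hS
  set G : (Σ _ : PA V, List (List (V × Bool))) → ℝ := fun x =>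
    wt q p x.1 * gW (4 * q / p) P x.2.flatten with hG
  have hG0 : ∀ x, 0 ≤ G x := fun x =>
    mul_nonneg (wt_nonneg hq.le (by linarith) hp.le (by linarith) _) (gW_nonneg hμ P _)
  set Φ : (Σ _ : PA V, List (List (V × Bool))) → (Σ _ : PA V, List (List (V × Bool))) :=
    fun x => ⟨E x.1 x.2, x.2⟩ with hΦ
  have hstep : ∀ x ∈ univ.sigma B, wt q p x.1 * gW 2 P x.2.flatten ≤ G (Φ x) := by
    rintro ⟨R, π⟩ hx
    rw [Finset.mem_sigma] at hx
    obtain ⟨h1, h2, _⟩ := hE R π hx.2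
    have hnd := (hBPN V cs _ π (mem_BPF.1 hx.2).1).1
    simp only [hG, hΦ]
    rw [gW_eq 2 P _ hnd, gW_eq (4 * q / p) P _ hnd, wt, wt, ← Finset.prod_mul_distrib,
      ← Finset.prod_mul_distrib]
    refine Finset.prod_le_prod (fun v _ => ?_) (fun v _ => ?_)
    · refine mul_nonneg (w1_nonneg hq.le (by linarith) hp.le (by linarith) _) ?_
      split_ifs <;> norm_num
    · by_cases hv : v ∈ π.flatten.map Prod.fst
      · by_cases hvP : v ∈ P
        · rw [h1 v (Or.inl hvP)]
          simp only [hv, hvP, if_true]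
          exact le_rfl
        · obtain ⟨h3, h4⟩ := h2 v hvP hv
          simp only [hv, hvP, if_true, if_false]
          rw [h3]
          have h5 := w1_ge hp hp1 hq hq1 _ h4
          calc w1 q p none * 2 = p / 2 * (4 * q / p) := by simp only [w1]; field_simp; ring
            _ ≤ w1 q p (E R π v) * (4 * q / p) := mul_le_mul_of_nonneg_right h5 hμ
      · rw [h1 v (Or.inr hv)]
        simp only [hv, if_false]
        exact le_rfl
  have hinj : Set.InjOn Φ (univ.sigma B) := by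
    rintro ⟨R1, π1⟩ hx1 ⟨R2, π2⟩ hx2 h
    rw [Finset.mem_coe, Finset.mem_sigma] at hx1 hx2
    simp only [hΦ, Sigma.mk.injEq] at h
    obtain ⟨h0, h0'⟩ := h
    have h0' : π1 = π2 := eq_of_heq h0'
    subst h0'
    obtain ⟨h1, h2, _⟩ := hE R1 π1 hx1.2
    obtain ⟨h3, h4, _⟩ := hE R2 π1 hx2.2
    have : R1 = R2 := by
      funext v
      by_cases hv : v ∈ P ∨ v ∉ π1.flatten.map Prod.fst
      · rw [← h1 v hv, ← h3 v hv, h0]
      · push Not at hv
        rw [(h2 v hv.1 hv.2).1, (h4 v hv.1 hv.2).1]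
    rw [this]
  have hsub : (univ.sigma B).image Φ ⊆ univ.sigma S := by
    intro y hy
    obtain ⟨⟨R, π⟩, hx, rfl⟩ := Finset.mem_image.1 hy
    rw [Finset.mem_sigma] at hx
    rw [Finset.mem_sigma]
    refine ⟨mem_univ _, ?_⟩
    simp only [hS, hΦ, Finset.mem_filter]
    exact ⟨Finset.mem_biUnion.2 ⟨R, mem_univ _, hx.2⟩, (hE R π hx.2).2.2⟩
  calc ∑ R : PA V, wt q p R * ∑ π ∈ BPF cs n (mask P (mrg ρ R)), gW 2 P π.flatten
      = ∑ x ∈ univ.sigma B, wt q p x.1 * gW 2 P x.2.flatten := by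
        rw [Finset.sum_sigma]
        exact Finset.sum_congr rfl (fun R _ => Finset.mul_sum _ _ _)
    _ ≤ ∑ x ∈ univ.sigma B, G (Φ x) := Finset.sum_le_sum hstep
    _ = ∑ y ∈ (univ.sigma B).image Φ, G y := (Finset.sum_image hinj).symm
    _ ≤ ∑ y ∈ univ.sigma S, G y :=
        Finset.sum_le_sum_of_subset_of_nonneg hsub (fun y _ _ => hG0 y)
    _ = ∑ R' : PA V, wt q p R' * ∑ π ∈ S R', gW (4 * q / p) P π.flatten := by
        rw [Finset.sum_sigma]
        refine Finset.sum_congr rfl (fun R _ => ?_)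
        rw [Finset.mul_sum]
    _ ≤ ∑ R' : PA V, wt q p R' * (3 / 2) := by
        refine Finset.sum_le_sum (fun R' _ => mul_le_mul_of_nonneg_left ?_
          (wt_nonneg hq.le (by linarith) hp.le (by linarith) _))
        exact hSWS V cs w P (mask P (mrg ρ R')) (4 * q / p) (S R') hw hd hμ hμw
          (fun π hπ => (Finset.mem_filter.1 hπ).2)
    _ = 3 / 2 := by
        rw [← Finset.sum_mul, Pool.Agent.H90.AC.sum_wt, one_mul]

end Pool.Agent.H68.AC
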