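import Pool.Agent.H68.AC.TargetsU
import Pool.Agent.H68.AC.Can
import Pool.Agent.H68.AC.Lev
import Pool.Agent.H68.AC.Loc
import Pool.Agent.H68.AC.BCx
import Pool.Agent.H68.AC.Enb
import Pool.Agent.H68.AC.Hgu
import Pool.Agent.H68.AC.Sw
import Pool.Agent.H42.AC.SWS
import Pool.Agent.H42.AC.SWM
import Pool.Agent.H70.AC.A
import Pool.Agent.H70.AC.FL
import Pool.Agent.H90.AC.FUB
import Pool.Agent.H90.AC.IND
import Pool.Agent.H90.AC.PUSH
import Pool.Agent.H90.AC.U
import Pool.Agent.H79.AC.DET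
import Pool.Agent.H79.AC.ENA
import Pool.Agent.H81.AC.UNI
import Pool.Agent.H36.AC.PARU

/-!
# SETH for constant-depth circuits: assembly of all modules
-/

namespace Pool.Agent.H68.AC

theorem SWS : T_SWS := Pool.Agent.H42.AC.sws nxs_t

theorem SWM : T_SWM := Pool.Agent.H42.AC.swm nxs_t nxm_t bpn_t

theorem SW : T_SW := sw_t SWS SWM bpn_t

theorem A : T_A := Pool.Agent.H70.AC.a_t SW Pool.Agent.H90.AC.FUB inv_t canp_t bpn_t

theorem BA : T_BA := ba_t Pool.Agent.H90.AC.IND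

theorem BB : T_BB := bb_t SW Pool.Agent.H90.AC.FUB

theorem B : T_B := b_t BA BB

theorem UNI : T_UNI := Pool.Agent.H81.AC.uni Pool.Agent.H90.AC.PUSH Pool.Agent.H90.AC.U A B

theorem LOCW : T_LOCW := locw_t loc_t

theorem FL : T_FL := Pool.Agent.H70.AC.fl_t LOCW canp_t bps_t nxs_t

theorem DET : T_DET := Pool.Agent.H79.AC.det FL cor_t

theorem MAINU : T_MAINU := mainu_t UNI DET hgu_t Pool.Agent.H79.AC.ena enb_t Pool.Agent.H36.AC.paru

end Pool.Agent.H68.AC
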