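import Pool.Agent.H68.AC.Defs

/-!
# SETH for constant-depth circuits: basic facts
-/

namespace Pool.Agent.H68.AC

open Finset

/-! ### Partial assignments -/

section pa

variable {V : Type}

theorem Sub.refl (κ : PA V) : Sub κ κ := fun _ _ h => h

theorem Sub.trans {a b c : PA V} (h : Sub a b) (h' : Sub b c) : Sub a c := fun v x hv => h' v x (h v x hv)

theorem Ext.of_sub {κ κ' : PA V} {y : V → Bool} (h : Ext κ' y) (hs : Sub κ κ') : Ext κ y :=
  fun v b hv => h v b (hs v b hv)

variable [DecidableEq V]

theorem upd_self (κ : PA V) (v : V) (b : Bool) : upd κ v b v = some b := by simp [upd]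

theorem upd_ne (κ : PA V) {v u : V} (b : Bool) (h : u ≠ v) : upd κ v b u = κ u := by simp [upd, h]

theorem updL_nil (κ : PA V) : updL κ [] = κ := rfl

theorem updL_cons (κ : PA V) (c : V × Bool) (ψ : List (V × Bool)) :
    updL κ (c :: ψ) = updL (upd κ c.1 c.2) ψ := rfl

theorem updL_append (κ : PA V) (ψ ψ' : List (V × Bool)) :
    updL κ (ψ ++ ψ') = updL (updL κ ψ) ψ' := by
  induction ψ generalizing κ with
  | nil => rfl
  | cons c ψ ih => exact ih _

theorem updL_not_mem (κ : PA V) (ψ : List (V × Bool)) (v : V) (h : v ∉ ψ.map Prod.fst) :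
    updL κ ψ v = κ v := by
  induction ψ generalizing κ with
  | nil => rfl
  | cons c ψ ih =>
    simp only [List.map_cons, List.mem_cons, not_or] at h
    rw [updL_cons, ih _ h.2, upd_ne _ _ h.1]

theorem updL_mem (κ : PA V) (ψ : List (V × Bool)) (hn : (ψ.map Prod.fst).Nodup) (c : V × Bool)
    (h : c ∈ ψ) : updL κ ψ c.1 = some c.2 := by
  induction ψ generalizing κ with
  | nil => simp at h
  | cons a ψ ih =>
    simp only [List.map_cons, List.nodup_cons] at hn
    rw [updL_cons]
    rcases List.mem_cons.1 h with rfl | h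
    · rw [updL_not_mem _ _ _ hn.1, upd_self]
    · exact ih _ hn.2 h

theorem updL_ne_none (κ : PA V) (ψ : List (V × Bool)) (v : V) (h : v ∈ ψ.map Prod.fst) :
    updL κ ψ v ≠ none := by
  induction ψ generalizing κ with
  | nil => simp at h
  | cons c ψ ih =>
    rw [updL_cons]
    by_cases hv : v ∈ ψ.map Prod.fst
    · exact ih _ hv
    · rw [updL_not_mem _ _ _ hv]
      simp only [List.map_cons, List.mem_cons] at h
      rcases h with h | h
      · rw [h, upd_self]; simp
      · exact absurd h hv

theorem updL_ne_none_of (κ : PA V) (ψ : List (V × Bool)) (v : V) (h : κ v ≠ none) :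
    updL κ ψ v ≠ none := by
  by_cases hv : v ∈ ψ.map Prod.fst
  · exact updL_ne_none _ _ _ hv
  · rwa [updL_not_mem _ _ _ hv]

theorem mem_fr {κ : PA V} {τ : List (V × Bool)} {v : V} :
    v ∈ fr κ τ ↔ v ∈ τ.map Prod.fst ∧ κ v = none := by
  simp only [fr, List.mem_dedup, List.mem_filter, decide_eq_true_eq]

theorem fr_nodup (κ : PA V) (τ : List (V × Bool)) : (fr κ τ).Nodup := List.nodup_dedup _

theorem mem_ansF {L : List V} {α : List (V × Bool)} : α ∈ ansF L ↔ α.map Prod.fst = L := by
  induction L generalizing α with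
  | nil => simp [ansF]
  | cons v L ih =>
    simp only [ansF, mem_union, mem_image, ih]
    constructor
    · rintro (⟨β, h, rfl⟩ | ⟨β, h, rfl⟩) <;> simp [h]
    · intro h
      match α, h with
      | (u, true) :: β, h =>
        simp only [List.map_cons, List.cons.injEq] at h
        right; exact ⟨β, h.2, by rw [h.1]⟩
      | (u, false) :: β, h =>
        simp only [List.map_cons, List.cons.injEq] at h
        left; exact ⟨β, h.2, by rw [h.1]⟩

theorem mem_BPF {cs : List (Bool × DT V)} {n : ℕ} {κ : PA V} {π : List (List (V × Bool))} :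
    π ∈ BPF cs n κ ↔ IsBP cs κ π ∧ π.length ≤ n := by
  induction n generalizing κ π with
  | zero =>
    cases π with
    | nil => simp [BPF, IsBP]
    | cons α π => simp [BPF]
  | succ n ih =>
    cases π with
    | nil => simp [BPF, IsBP]
    | cons α π =>
      cases hn : nxt cs κ with
      | none => simp [BPF, IsBP, hn]
      | some τ =>
        by_cases hf : fr κ τ = []
        · simp [BPF, IsBP, hn, hf]
        · simp [BPF, IsBP, hn, hf, ih, mem_ansF, and_assoc]

end pa

/-! ### Circuits -/

namespace Ckt

variable {V : Type} {s d : ℕ}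

theorem valN_stable (C : Ckt V s d) (y : V → Bool) : ∀ (n m : ℕ) (g : Fin s), C.lev g < n → C.lev g < m →
    C.valN y n g = C.valN y m g := by
  intro n
  induction n with
  | zero => intro m g h; omega
  | succ n ih =>
    intro m g hn hm
    cases m with
    | zero => omega
    | succ m =>
      rw [Bool.eq_iff_iff]
      simp only [valN, List.any_eq_true]
      have : ∀ c ∈ C.ch g, Sum.elim (fun i => Inp.val y i) (C.valN y n) c.2
          = Sum.elim (fun i => Inp.val y i) (C.valN y m) c.2 := by
        rintro ⟨b, i | g'⟩ hc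
        · rfl
        · have := C.acyc g b g' hc
          exact ih m g' (by omega) (by omega)
      constructor
      · rintro ⟨c, hc, h⟩; exact ⟨c, hc, by rw [← this c hc]; exact h⟩
      · rintro ⟨c, hc, h⟩; exact ⟨c, hc, by rw [this c hc]; exact h⟩

/-- The value equation. -/
theorem val_eq (C : Ckt V s d) (y : V → Bool) (g : Fin s) :
    C.val y g = true ↔ ∃ c ∈ C.ch g, C.sval y c.2 = c.1 := by
  have h3 := C.lev_lt g
  have h1 : C.val y g = C.valN y (d + 1) g := C.valN_stable y _ _ g h3 (by omega)
  rw [h1]
  simp only [valN, List.any_eq_true, beq_iff_eq]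
  rfl

variable [DecidableEq V] [Fintype V]

theorem TN_stable (C : Ckt V s d) (P : Finset V) (R : Fin d → PA V) : ∀ (n m : ℕ) (g : Fin s),
    C.lev g < n → C.lev g < m → C.TN P R n g = C.TN P R m g := by
  intro n
  induction n with
  | zero => intro m g h; omega
  | succ n ih =>
    intro m g hn hm
    cases m with
    | zero => omega
    | succ m =>
      rw [TN, TN]
      congr 1
      apply List.map_congr_left
      rintro ⟨b, i | g'⟩ hc
      · rfl
      · have := C.acyc g b g' hc
        simp only [Sum.elim_inr]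
        rw [ih m g' (by omega) (by omega)]

/-- The equation of the canonical trees. -/
theorem T_eq (C : Ckt V s d) (P : Finset V) (R : Fin d → PA V) (g : Fin s) :
    C.T P R g = can (C.cht P R g) (Fintype.card V + 1) (rho P R (C.lev g + 1)) := by
  have h3 := C.lev_lt g
  have h1 : C.T P R g = C.TN P R (d + 1) g := C.TN_stable P R _ _ g h3 (by omega)
  rw [h1]
  rfl

theorem mem_cht (C : Ckt V s d) (P : Finset V) (R : Fin d → PA V) (g : Fin s) (c : Bool × DT V) :
    c ∈ C.cht P R g ↔ ∃ a ∈ C.ch g, c = (a.1, C.stree P R a.2) := by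
  simp only [cht, List.mem_map]
  constructor
  · rintro ⟨a, h, rfl⟩; exact ⟨a, h, rfl⟩
  · rintro ⟨a, h, rfl⟩; exact ⟨a, h, rfl⟩

end Ckt

/-! ### Rounds -/

section rounds

variable {V : Type} {d : ℕ}

theorem fd_succ (R : Fin d → PA V) (j : ℕ) (hj : j < d) : fd R (j + 1) = mrg (fd R j) (R ⟨j, hj⟩) := by
  funext v
  simp only [fd, mrg, hj, dite_true]

theorem mrg_sub (κ κ' : PA V) : Sub κ (mrg κ κ') := by
  intro v b h
  simp only [mrg, h]

theorem fd_mono (R : Fin d → PA V) {i j : ℕ} (h : i ≤ j) : Sub (fd R i) (fd R j) := by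
  induction j, h using Nat.le_induction with
  | base => exact Sub.refl _
  | succ j _ ih => exact ih.trans (mrg_sub _ _)

theorem fd_congr (R R' : Fin d → PA V) (j : ℕ) (v : V) (h : ∀ i : Fin d, i.1 < j → R i v = R' i v) :
    fd R j v = fd R' j v := by
  induction j with
  | zero => rfl
  | succ j ih =>
    have h1 := ih (fun i hi => h i (by omega))
    simp only [fd, mrg, h1]
    by_cases hj : j < d
    · simp only [hj, dite_true, h ⟨j, hj⟩ (by simp)]
    · simp only [hj, dite_false]

variable [DecidableEq V]

theorem rho_mono (P : Finset V) (R : Fin d → PA V) {i j : ℕ} (h : i ≤ j) : Sub (rho P R i) (rho P R j) := by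
  intro v b hv
  simp only [rho, mask] at hv ⊢
  by_cases hP : v ∈ P
  · simp [hP] at hv
  · simp only [hP, if_false] at hv ⊢
    exact fd_mono R h v b hv

theorem ext_yof (P : Finset V) (R : Fin d → PA V) (z : V → Bool) {j : ℕ} (hj : j ≤ d) :
    Ext (rho P R j) (yof P R z) := by
  intro v b hv
  simp only [rho, mask] at hv
  by_cases hP : v ∈ P
  · simp [hP] at hv
  · simp only [hP, if_false] at hv
    have := fd_mono R hj v b hv
    simp only [yof, hP, if_false, this, Option.getD_some]

end rounds

end Pool.Agent.H68.AC
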