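import Pool.Agent.H68.AC.Targets

/-!
# SETH for constant-depth circuits: leftmost paths
-/

namespace Pool.Agent.H68.AC

open Finset

theorem ext_upd {V : Type} [DecidableEq V] {κ : PA V} {v : V} {b : Bool} {y : V → Bool}
    (hk : κ v = none) (h : Ext (upd κ v b) y) : Ext κ y ∧ y v = b := by
  refine ⟨fun u c hu => ?_, h v b (upd_self κ v b)⟩
  have : u ≠ v := by rintro rfl; rw [hk] at hu; simp at hu
  exact h u c (by rw [upd_ne κ b this]; exact hu)

theorem ext_upd' {V : Type} [DecidableEq V] {κ : PA V} {v : V} {b : Bool} {y : V → Bool}
    (h : Ext κ y) (hy : y v = b) : Ext (upd κ v b) y := by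
  intro u c hu
  by_cases huv : u = v
  · subst huv
    rw [upd_self] at hu
    rw [hy]; exact Option.some.inj hu
  · rw [upd_ne κ b huv] at hu
    exact h u c hu

theorem agree_cons {V : Type} [DecidableEq V] {κ : PA V} {v : V} {b : Bool} {τ : List (V × Bool)}
    (hk : κ v = none) (h : Agree (upd κ v b) τ) (hc : Cons τ) :
    Agree κ ((v, b) :: τ) ∧ Cons ((v, b) :: τ) := by
  have hv : ∀ c ∈ τ, c.1 = v → c.2 = b := by
    intro c hcm hcv
    exact (h c hcm b (by rw [hcv]; exact upd_self κ v b)).symm
  constructor
  · intro c hcm a ha
    rcases List.mem_cons.1 hcm with rfl | hcm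
    · rw [hk] at ha; simp at ha
    · by_cases hcv : c.1 = v
      · rw [hcv, hk] at ha; simp at ha
      · exact h c hcm a (by rw [upd_ne κ b hcv]; exact ha)
  · intro c hcm c' hcm' hcc
    rcases List.mem_cons.1 hcm with rfl | hcm <;> rcases List.mem_cons.1 hcm' with rfl | hcm'
    · rfl
    · exact (hv c' hcm' hcc.symm).symm
    · exact hv c hcm hcc
    · exact hc c hcm c' hcm' hcc

theorem agree_cons' {V : Type} {κ : PA V} {v : V} {b : Bool} {τ : List (V × Bool)}
    (hk : κ v = some b) (h : Agree κ τ) (hc : Cons τ) :
    Agree κ ((v, b) :: τ) ∧ Cons ((v, b) :: τ) := by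
  have hv : ∀ c ∈ τ, c.1 = v → c.2 = b := by
    intro c hcm hcv
    exact (h c hcm b (by rw [hcv]; exact hk)).symm
  constructor
  · intro c hcm a ha
    rcases List.mem_cons.1 hcm with rfl | hcm
    · simp only at ha ⊢; rw [hk] at ha; exact (Option.some.inj ha).symm
    · exact h c hcm a ha
  · intro c hcm c' hcm' hcc
    rcases List.mem_cons.1 hcm with rfl | hcm <;> rcases List.mem_cons.1 hcm' with rfl | hcm'
    · rfl
    · exact (hv c' hcm' hcc.symm).symm
    · exact hv c hcm hcc
    · exact hc c hcm c' hcm' hcc

theorem fp_t : T_FP := by
  intro V _ s t
  induction t with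
  | leaf b =>
    intro κ
    constructor
    · intro τ h
      simp only [fp] at h
      split_ifs at h with hb
      · simp only [Option.some.injEq] at h
        subst h; subst hb
        exact ⟨IsPath.leaf _, fun c hc => by simp at hc, fun c hc => by simp at hc⟩
    · simp only [fp, DT.eval]
      constructor
      · intro h y _ hbs
        simp [hbs] at h
      · intro h
        have := h (fun v => (κ v).getD false) (fun v c hv => by simp [hv])
        simp [this]
  | node v l r ihl ihr =>
    intro κ
    cases hk : κ v with
    | none =>
      have hl := ihl (upd κ v false)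
      have hr := ihr (upd κ v true)
      constructor
      · intro τ h
        simp only [fp, hk] at h
        cases hfl : fp s l (upd κ v false) with
        | some τ' =>
          rw [hfl] at h
          simp only [Option.some.injEq] at h
          subst h
          obtain ⟨h1, h2, h3⟩ := hl.1 τ' hfl
          obtain ⟨h4, h5⟩ := agree_cons hk h2 h3
          exact ⟨IsPath.left _ _ _ _ _ h1, h4, h5⟩
        | none =>
          rw [hfl] at h
          simp only [Option.map_eq_some_iff] at h
          obtain ⟨τ', hfr, rfl⟩ := h
          obtain ⟨h1, h2, h3⟩ := hr.1 τ' hfr
          obtain ⟨h4, h5⟩ := agree_cons hk h2 h3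
          exact ⟨IsPath.right _ _ _ _ _ h1, h4, h5⟩
      · constructor
        · intro h y hy
          simp only [fp, hk] at h
          cases hfl : fp s l (upd κ v false) with
          | some τ' => rw [hfl] at h; simp at h
          | none =>
            rw [hfl] at h
            simp only [Option.map_eq_none_iff] at h
            simp only [DT.eval]
            cases hyv : y v with
            | false => exact hl.2.1 hfl y (ext_upd' hy hyv)
            | true => exact hr.2.1 h y (ext_upd' hy hyv)
        · intro h
          have h1 : fp s l (upd κ v false) = none := hl.2.2 (fun y hy => by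
            obtain ⟨h2, h3⟩ := ext_upd hk hy
            have := h y h2
            simpa only [DT.eval, h3, cond_false] using this)
          have h4 : fp s r (upd κ v true) = none := hr.2.2 (fun y hy => by
            obtain ⟨h2, h3⟩ := ext_upd hk hy
            have := h y h2
            simpa only [DT.eval, h3, cond_true] using this)
          simp only [fp, hk, h1, h4, Option.map_none]
    | some b =>
      cases b with
      | false =>
        have hl := ihl κ
        constructor
        · intro τ h
          simp only [fp, hk, Option.map_eq_some_iff] at h
          obtain ⟨τ', hf, rfl⟩ := h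
          obtain ⟨h1, h2, h3⟩ := hl.1 τ' hf
          obtain ⟨h4, h5⟩ := agree_cons' hk h2 h3
          exact ⟨IsPath.left _ _ _ _ _ h1, h4, h5⟩
        · simp only [fp, hk, Option.map_eq_none_iff]
          rw [hl.2]
          constructor
          · intro h y hy
            have := h y hy
            simpa only [DT.eval, hy v false hk, cond_false] using this
          · intro h y hy
            have := h y hy
            simpa only [DT.eval, hy v false hk, cond_false] using this
      | true =>
        have hr := ihr κ
        constructor
        · intro τ h
          simp only [fp, hk, Option.map_eq_some_iff] at h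
          obtain ⟨τ', hf, rfl⟩ := h
          obtain ⟨h1, h2, h3⟩ := hr.1 τ' hf
          obtain ⟨h4, h5⟩ := agree_cons' hk h2 h3
          exact ⟨IsPath.right _ _ _ _ _ h1, h4, h5⟩
        · simp only [fp, hk, Option.map_eq_none_iff]
          rw [hr.2]
          constructor
          · intro h y hy
            have := h y hy
            simpa only [DT.eval, hy v true hk, cond_true] using this
          · intro h y hy
            have := h y hy
            simpa only [DT.eval, hy v true hk, cond_true] using this

theorem sub_upd {V : Type} [DecidableEq V] {κB κA : PA V} {v : V} {b : Bool} (h : Sub κB κA) :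
    Sub (upd κB v b) (upd κA v b) := by
  intro u c hu
  by_cases huv : u = v
  · subst huv; rw [upd_self] at hu ⊢; exact hu
  · rw [upd_ne _ _ huv] at hu ⊢; exact h u c hu

theorem sub_upd' {V : Type} [DecidableEq V] {κB κA : PA V} {v : V} {b : Bool} (h : Sub κB κA)
    (hv : κA v = some b) : Sub (upd κB v b) κA := by
  intro u c hu
  by_cases huv : u = v
  · subst huv; rw [upd_self] at hu; rw [hv]; exact hu
  · rw [upd_ne _ _ huv] at hu; exact h u c hu

theorem agree_tail {V : Type} {κ : PA V} {c : V × Bool} {τ : List (V × Bool)} (h : Agree κ (c :: τ)) :
    Agree κ τ := fun c hc => h c (List.mem_cons_of_mem _ hc)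

theorem agree_upd {V : Type} [DecidableEq V] {κA κB : PA V} {v : V} {b : Bool} {τ : List (V × Bool)}
    (h : Agree κA τ) (h' : Agree (upd κB v b) τ) : Agree (upd κA v b) τ := by
  intro c hc a ha
  by_cases hcv : c.1 = v
  · rw [hcv, upd_self] at ha
    rw [← Option.some.inj ha]
    exact h' c hc b (by rw [hcv]; exact upd_self _ _ _)
  · rw [upd_ne _ _ hcv] at ha; exact h c hc a ha

theorem fpl_t : T_FPL := by
  intro V _ s tA tB
  induction tB generalizing tA with
  | leaf b =>
    intro κA κB τ hs ha he hp hf
    simp only [fp] at hf
    split_ifs at hf with hb
    simp only [Option.some.injEq] at hf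
    subst hf
    cases hp
    simp [fp]
  | node v lB rB ihl ihr =>
    intro κA κB τ hs ha he hp hf
    -- a helper for each side
    have hFP := fp_t V s
    cases hk : κB v with
    | some b =>
      have hkA := hs v b hk
      cases b with
      | false =>
        simp only [fp, hk, Option.map_eq_some_iff] at hf
        obtain ⟨τ', hf, rfl⟩ := hf
        cases hp with
        | left _ lA rA _ _ hp =>
          have := ihl lA κA κB τ' hs (agree_tail ha) (fun y hy => by
            have := he y hy
            simpa only [DT.eval, hy v false hkA, cond_false] using this) hp hf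
          simp only [fp, hkA, this, Option.map_some]
      | true =>
        simp only [fp, hk, Option.map_eq_some_iff] at hf
        obtain ⟨τ', hf, rfl⟩ := hf
        cases hp with
        | right _ lA rA _ _ hp =>
          have := ihr rA κA κB τ' hs (agree_tail ha) (fun y hy => by
            have := he y hy
            simpa only [DT.eval, hy v true hkA, cond_true] using this) hp hf
          simp only [fp, hkA, this, Option.map_some]
    | none =>
      simp only [fp, hk] at hf
      cases hfl : fp s lB (upd κB v false) with
      | some τ' =>
        rw [hfl] at hf
        simp only [Option.some.injEq] at hf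
        subst hf
        have h2 := ((hFP lB (upd κB v false)).1 τ' hfl).2.1
        cases hp with
        | left _ lA rA _ _ hp =>
          cases hkA : κA v with
          | none =>
            have := ihl lA (upd κA v false) (upd κB v false) τ' (sub_upd hs)
              (agree_upd (agree_tail ha) h2) (fun y hy => by
              obtain ⟨h3, h4⟩ := ext_upd hkA hy
              have := he y h3
              simpa only [DT.eval, h4, cond_false] using this) hp hfl
            simp only [fp, hkA, this]
          | some b =>
            have hb : b = false := ha (v, false) (List.mem_cons_self) b hkA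
            subst hb
            have := ihl lA κA (upd κB v false) τ' (sub_upd' hs hkA) (agree_tail ha) (fun y hy => by
              have := he y hy
              simpa only [DT.eval, hy v false hkA, cond_false] using this) hp hfl
            simp only [fp, hkA, this, Option.map_some]
      | none =>
        rw [hfl] at hf
        simp only [Option.map_eq_some_iff] at hf
        obtain ⟨τ', hf, rfl⟩ := hf
        have h2 := ((hFP rB (upd κB v true)).1 τ' hf).2.1
        cases hp with
        | right _ lA rA _ _ hp =>
          cases hkA : κA v with
          | none =>
            have h5 := ihr rA (upd κA v true) (upd κB v true) τ' (sub_upd hs)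
              (agree_upd (agree_tail ha) h2) (fun y hy => by
              obtain ⟨h3, h4⟩ := ext_upd hkA hy
              have := he y h3
              simpa only [DT.eval, h4, cond_true] using this) hp hf
            have h6 : fp s lA (upd κA v false) = none := (hFP lA (upd κA v false)).2.2 (fun y hy => by
              obtain ⟨h3, h4⟩ := ext_upd hkA hy
              have h7 := he y h3
              simp only [DT.eval, h4, cond_false] at h7
              rw [h7]
              exact (hFP lB (upd κB v false)).2.1 hfl y (hy.of_sub (sub_upd hs)))
            simp only [fp, hkA, h5, h6, Option.map_some]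
          | some b =>
            have hb : b = true := ha (v, true) (List.mem_cons_self) b hkA
            subst hb
            have := ihr rA κA (upd κB v true) τ' (sub_upd' hs hkA) (agree_tail ha) (fun y hy => by
              have := he y hy
              simpa only [DT.eval, hy v true hkA, cond_true] using this) hp hf
            simp only [fp, hkA, this, Option.map_some]

theorem nxs_t : T_NXS := by
  intro V _ cs κ
  induction cs with
  | nil =>
    constructor
    · intro τ h; simp [nxt] at h
    · simp [nxt]
  | cons c cs ih =>
    have hF := fp_t V c.1 c.2 κ
    cases hf : fp c.1 c.2 κ with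
    | some τ' =>
      constructor
      · intro τ h
        simp only [nxt, hf, Option.some.injEq] at h
        subst h
        obtain ⟨h1, h2, h3⟩ := hF.1 _ hf
        exact ⟨h2, h3, c, List.mem_cons_self, h1⟩
      · simp only [nxt, hf, reduceCtorEq, false_iff]
        intro h
        have : fp c.1 c.2 κ = none := hF.2.2 (fun y hy => h y hy c List.mem_cons_self)
        rw [hf] at this; simp at this
    | none =>
      constructor
      · intro τ h
        simp only [nxt, hf] at h
        obtain ⟨h1, h2, c', h3, h4⟩ := ih.1 τ h
        exact ⟨h1, h2, c', List.mem_cons_of_mem _ h3, h4⟩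
      · simp only [nxt, hf]
        rw [ih.2]
        constructor
        · intro h y hy c' hc'
          rcases List.mem_cons.1 hc' with rfl | hc'
          · exact hF.2.1 hf y hy
          · exact h y hy c' hc'
        · intro h y hy c' hc'
          exact h y hy c' (List.mem_cons_of_mem _ hc')

theorem nxm_t : T_NXM := by
  intro V _ cs κ κ' τ h hs ha
  induction cs with
  | nil => simp [nxt] at h
  | cons c cs ih =>
    have hF := fp_t V c.1 c.2
    cases hf : fp c.1 c.2 κ with
    | some τ' =>
      simp only [nxt, hf, Option.some.injEq] at h
      subst h
      have := fpl_t V c.1 c.2 c.2 κ' κ τ' hs ha (fun _ _ => rfl) ((hF κ).1 _ hf).1 hf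
      simp only [nxt, this]
    | none =>
      have h1 : fp c.1 c.2 κ' = none := (hF κ').2.2 (fun y hy => (hF κ).2.1 hf y (hy.of_sub hs))
      simp only [nxt, hf] at h
      simp only [nxt, h1]
      exact ih h

theorem ExtOn.sub {V : Type} {D : Set V} {κA κB : PA V} (h : ExtOn D κA κB) : Sub κB κA := by
  intro v b hv
  by_cases hD : v ∈ D
  · rw [h.2 v hD] at hv; simp at hv
  · rw [h.1 v hD]; exact hv

theorem nxl_t : T_NXL := by
  intro V _ D κA κB csA csB hS hE
  have hsub := hE.sub
  induction hS with
  | nil => simp [nxt]
  | @cons a b csA csB hab _ ih =>
    obtain ⟨h1, h2, h3⟩ := hab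
    cases hf : fp b.1 b.2 κB with
    | some τ' =>
      constructor
      · intro h; simp [nxt, hf] at h
      · intro τ h hD
        simp only [nxt, hf, Option.some.injEq] at h
        subst h
        obtain ⟨h4, h5, h6⟩ := (fp_t V b.1 b.2 κB).1 _ hf
        have hag : Agree κA τ' := fun c hc x hx => h5 c hc x (by rw [← hE.1 c.1 (hD c hc)]; exact hx)
        have h7 := fpl_t V b.1 a.2 b.2 κA κB τ' hsub hag h2 (h3 _ _ h4 hD) hf
        simp only [nxt, h1, h7]
    | none =>
      have h7 : fp b.1 a.2 κA = none := (fp_t V b.1 a.2 κA).2.2 (fun y hy => by
        rw [h2 y hy]
        exact (fp_t V b.1 b.2 κB).2.1 hf y (hy.of_sub hsub))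
      constructor
      · intro h
        simp only [nxt, hf] at h
        simp only [nxt, h1, h7]
        exact ih.1 h
      · intro τ h hD
        simp only [nxt, hf] at h
        simp only [nxt, h1, h7]
        exact ih.2 τ h hD

end Pool.Agent.H68.AC
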