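import Mathlib

/-!
# SETH for constant-depth circuits: definitions for the proof

Decision trees, canonical decision trees, block paths, random rounds of restrictions, circuits and the
constraint satisfaction function.
-/

namespace Pool.Agent.H68.AC

open Finset

/-- Decision trees over variables `V`. -/
inductive DT (V : Type) : Type
  | leaf (b : Bool) : DT V
  | node (v : V) (l r : DT V) : DT V

/-- Partial assignments. -/
abbrev PA (V : Type) := V → Option Bool

/-- The value of a tree (left child for `false`, right child for `true`). -/
def DT.eval {V : Type} (y : V → Bool) : DT V → Bool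
  | .leaf b => b
  | .node v l r => cond (y v) (DT.eval y r) (DT.eval y l)

/-- The depth of a tree. -/
def DT.depth {V : Type} : DT V → ℕ
  | .leaf _ => 0
  | .node _ l r => max l.depth r.depth + 1

/-- `IsPath t ψ c`: the list `ψ` of answered queries leads from the root of `t` to a leaf labelled `c`. -/
inductive IsPath {V : Type} : DT V → List (V × Bool) → Bool → Prop
  | leaf (b : Bool) : IsPath (.leaf b) [] b
  | left (v : V) (l r : DT V) (ψ : List (V × Bool)) (c : Bool) (h : IsPath l ψ c) :
      IsPath (.node v l r) ((v, false) :: ψ) c
  | right (v : V) (l r : DT V) (ψ : List (V × Bool)) (c : Bool) (h : IsPath r ψ c) :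
      IsPath (.node v l r) ((v, true) :: ψ) c

/-- The total assignment `y` extends `κ`. -/
def Ext {V : Type} (κ : PA V) (y : V → Bool) : Prop := ∀ v b, κ v = some b → y v = b

/-- `κ'` extends `κ`. -/
def Sub {V : Type} (κ κ' : PA V) : Prop := ∀ v b, κ v = some b → κ' v = some b

/-- `κ` does not contradict the answered queries `τ`. -/
def Agree {V : Type} (κ : PA V) (τ : List (V × Bool)) : Prop :=
  ∀ c ∈ τ, ∀ b, κ c.1 = some b → b = c.2

/-- `τ` does not query the variables in `D`. -/
def Avoid {V : Type} (D : Set V) (τ : List (V × Bool)) : Prop := ∀ c ∈ τ, c.1 ∉ D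

section trees

variable {V : Type} [DecidableEq V]

/-- Set one variable. -/
def upd (κ : PA V) (v : V) (b : Bool) : PA V := Function.update κ v (some b)

/-- Set several variables, one after the other. -/
def updL : PA V → List (V × Bool) → PA V
  | κ, [] => κ
  | κ, c :: ψ => updL (upd κ c.1 c.2) ψ

/-- The leftmost path of `t` to a leaf labelled `s` which is consistent with `κ`. -/
def fp (s : Bool) : DT V → PA V → Option (List (V × Bool))
  | .leaf b, _ => if b = s then some [] else none
  | .node v l r, κ =>
    match κ v with
    | some false => (fp s l κ).map (fun τ => (v, false) :: τ)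
    | some true => (fp s r κ).map (fun τ => (v, true) :: τ)
    | none =>
      match fp s l (upd κ v false) with
      | some τ => some ((v, false) :: τ)
      | none => (fp s r (upd κ v true)).map (fun τ => (v, true) :: τ)

/-- The leftmost path of the first tree of the list which is not yet decided negatively. The list
`(s₁,t₁), …` stands for the disjunction of the statements `tᵢ = sᵢ`. -/
def nxt : List (Bool × DT V) → PA V → Option (List (V × Bool))
  | [], _ => none
  | c :: cs, κ =>
    match fp c.1 c.2 κ with
    | some τ => some τ
    | none => nxt cs κ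

/-- The variables of `τ` which are not set by `κ` (without repetition). -/
def fr (κ : PA V) (τ : List (V × Bool)) : List V :=
  ((τ.map Prod.fst).filter (fun v => κ v = none)).dedup

/-- Query all variables of the list, then continue with `f`. -/
def qa : List V → PA V → (PA V → DT V) → DT V
  | [], κ, f => f κ
  | v :: L, κ, f => .node v (qa L (upd κ v false) f) (qa L (upd κ v true) f)

/-- The canonical decision tree (with fuel) of the disjunction of the statements `tᵢ = sᵢ`. -/
def can (cs : List (Bool × DT V)) : ℕ → PA V → DT V
  | 0, _ => .leaf false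
  | n + 1, κ =>
    match nxt cs κ with
    | none => .leaf false
    | some τ => if fr κ τ = [] then .leaf true else qa (fr κ τ) κ (can cs n)

/-- `π` is a block path: the list of the answered blocks at the beginning of a path of the canonical
tree. -/
def IsBP (cs : List (Bool × DT V)) : PA V → List (List (V × Bool)) → Prop
  | _, [] => True
  | κ, α :: π => (∃ τ, nxt cs κ = some τ ∧ fr κ τ ≠ [] ∧ α.map Prod.fst = fr κ τ) ∧
      IsBP cs (updL κ α) π

/-- The canonical tree stops at `κ` with value `c`. -/
def Stop (cs : List (Bool × DT V)) (κ : PA V) (c : Bool) : Prop :=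
  (nxt cs κ = none ∧ c = false) ∨ (∃ τ, nxt cs κ = some τ ∧ fr κ τ = [] ∧ c = true)

/-- All ways to answer a list of queries. -/
def ansF : List V → Finset (List (V × Bool))
  | [] => {[]}
  | v :: L => (ansF L).image (List.cons (v, false)) ∪ (ansF L).image (List.cons (v, true))

/-- The finite set of all block paths with at most `n` blocks. -/
def BPF (cs : List (Bool × DT V)) : ℕ → PA V → Finset (List (List (V × Bool)))
  | 0, _ => {[]}
  | n + 1, κ => {[]} ∪ (match nxt cs κ with
      | none => ∅
      | some τ => if fr κ τ = [] then ∅ else
          (ansF (fr κ τ)).biUnion (fun α => (BPF cs n (updL κ α)).image (List.cons α)))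

/-- The number of free variables. -/
def nfree [Fintype V] (κ : PA V) : ℕ := (univ.filter (fun v => κ v = none)).card

end trees

/-! ## Restrictions and weights -/

/-- First `κ`, then `κ'`. -/
def mrg {V : Type} (κ κ' : PA V) : PA V := fun v =>
  match κ v with
  | some b => some b
  | none => κ' v

/-- The first `j` rounds merged. -/
def fd {V : Type} {d : ℕ} (R : Fin d → PA V) : ℕ → PA V
  | 0 => fun _ => none
  | j + 1 => mrg (fd R j) (fun v => if h : j < d then R ⟨j, h⟩ v else none)

/-- Free the variables in `P`. -/
def mask {V : Type} [DecidableEq V] (P : Finset V) (κ : PA V) : PA V := fun v => if v ∈ P then none else κ v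

/-- The restriction after `j` rounds in the world with planted set `P`. -/
def rho {V : Type} [DecidableEq V] {d : ℕ} (P : Finset V) (R : Fin d → PA V) (j : ℕ) : PA V :=
  mask P (fd R j)

/-- The input of the world with planted set `P`: the planted variables are `true`. -/
def yof {V : Type} [DecidableEq V] {d : ℕ} (P : Finset V) (R : Fin d → PA V) (z : V → Bool) : V → Bool :=
  fun v => if v ∈ P then true else (fd R d v).getD (z v)

/-- Weight of one entry: free with probability `q`, otherwise `p`-biased. -/
def w1 (q p : ℝ) : Option Bool → ℝ
  | none => q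
  | some true => (1 - q) * p
  | some false => (1 - q) * (1 - p)

/-- Weight of one round. -/
def wt {V : Type} [Fintype V] (q p : ℝ) (R : PA V) : ℝ := ∏ v, w1 q p (R v)

/-- Weight of all rounds. -/
def Wt {V : Type} [Fintype V] {d : ℕ} (q p : ℝ) (R : Fin d → PA V) : ℝ := ∏ j, wt q p (R j)

/-- Weight of a total assignment. -/
def wz {V : Type} [Fintype V] (p : ℝ) (z : V → Bool) : ℝ := ∏ v, if z v then p else 1 - p

/-! ## Circuits -/

/-- An input of a circuit over the variables `V`: a constant or a variable. -/
inductive Inp (V : Type) : Type
  | const (b : Bool) : Inp V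
  | var (v : V) : Inp V

/-- The decision tree of an input. -/
def Inp.tree {V : Type} : Inp V → DT V
  | .const b => .leaf b
  | .var v => .node v (.leaf false) (.leaf true)

/-- The value of an input. -/
def Inp.val {V : Type} (y : V → Bool) : Inp V → Bool
  | .const b => b
  | .var v => y v

/-- Circuits in which every gate `g` is a disjunction of statements `source = sign`. -/
structure Ckt (V : Type) (s d : ℕ) where
  ch : Fin s → List (Bool × (Inp V ⊕ Fin s))
  lev : Fin s → ℕ
  lev_lt : ∀ g, lev g < d
  acyc : ∀ g b g', (b, Sum.inr g') ∈ ch g → lev g' < lev g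
  out : Fin s

namespace Ckt

variable {V : Type} {s d : ℕ}

/-- The value of the gates, with fuel. -/
def valN (C : Ckt V s d) (y : V → Bool) : ℕ → Fin s → Bool
  | 0, _ => false
  | n + 1, g => (C.ch g).any (fun c => Sum.elim (fun i => Inp.val y i) (valN C y n) c.2 == c.1)

/-- The value of gate `g` at input `y`. -/
def val (C : Ckt V s d) (y : V → Bool) (g : Fin s) : Bool := C.valN y d g

/-- The value of a source. -/
def sval (C : Ckt V s d) (y : V → Bool) : Inp V ⊕ Fin s → Bool :=
  Sum.elim (fun i => Inp.val y i) (C.val y)

variable [DecidableEq V] [Fintype V]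

/-- The canonical trees of the gates in the world with planted set `P`, with fuel. -/
def TN (C : Ckt V s d) (P : Finset V) (R : Fin d → PA V) : ℕ → Fin s → DT V
  | 0, _ => .leaf false
  | n + 1, g => can ((C.ch g).map (fun c => (c.1, Sum.elim Inp.tree (TN C P R n) c.2)))
      (Fintype.card V + 1) (rho P R (C.lev g + 1))

/-- The canonical tree of gate `g` in the world with planted set `P`. -/
def T (C : Ckt V s d) (P : Finset V) (R : Fin d → PA V) (g : Fin s) : DT V := C.TN P R d g

/-- The tree of a source. -/
def stree (C : Ckt V s d) (P : Finset V) (R : Fin d → PA V) : Inp V ⊕ Fin s → DT V :=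
  Sum.elim Inp.tree (C.T P R)

/-- The signed trees of the sources of gate `g`. -/
def cht (C : Ckt V s d) (P : Finset V) (R : Fin d → PA V) (g : Fin s) : List (Bool × DT V) :=
  (C.ch g).map (fun c => (c.1, C.stree P R c.2))

end Ckt

/-! ## The constraint satisfaction function -/

/-- The variables of the function: `(j, a)` where `j` is a constraint and `a` a possible local
assignment. The constraint `j` has the scope `j, e j 0, …, e j (r-1)`. -/
abbrev VV (k r : ℕ) (A : Type) := Fin k × (Option (Fin r) → A)

/-- The scope of constraint `j`. -/
def sc {k r : ℕ} (e : Fin k → Fin r → Fin k) (j : Fin k) : Option (Fin r) → Fin k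
  | none => j
  | some i => e j i

/-- The variable of constraint `j` selected by `x`. -/
def pos {k r : ℕ} {A : Type} (e : Fin k → Fin r → Fin k) (x : Fin k → A) (j : Fin k) : VV k r A :=
  (j, fun o => x (sc e j o))

/-- The planted set for the constraints in `H`. -/
def K {k r : ℕ} {A : Type} [DecidableEq A] (e : Fin k → Fin r → Fin k) (x : Fin k → A)
    (H : Finset (Fin k)) : Finset (VV k r A) := H.image (pos e x)

/-- The vertices in the scopes of the constraints in `H`. -/
def VS {k r : ℕ} (e : Fin k → Fin r → Fin k) (H : Finset (Fin k)) : Finset (Fin k) :=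
  H.biUnion (fun j => univ.image (sc e j))

/-- The function: some `x` selects only variables with value `true`. -/
def fE {k r : ℕ} {A : Type} (e : Fin k → Fin r → Fin k) (y : VV k r A → Bool) : Prop :=
  ∃ x : Fin k → A, ∀ j, y (pos e x j) = true

/-- The hypergraph is expanding: every set of at most `β` vertices contains at most `h` scopes. -/
def Expd {k r : ℕ} (e : Fin k → Fin r → Fin k) (β h : ℕ) : Prop :=
  ∀ S : Finset (Fin k), S.card ≤ β → (univ.filter (fun j => ∀ o, sc e j o ∈ S)).card ≤ h

end Pool.Agent.H68.AC
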