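import Pool.Agent.H81.AC.UNI

/-!
# SETH for constant-depth circuits: quantitative union bound

The proof is that of helper81 (module UNI).
-/

namespace Pool.Agent.H68.AC

open Finset Pool.Agent.H81.AC

/-- The left side of the numerical condition. -/
noncomputable def HNL (k N s w β h d : ℕ) (p q : ℝ) : ℝ :=
  ((1 + N * p) ^ k - 1) + 2 ^ k * (s * (3 / 2 * 16 ^ k / 2 ^ (w + 1))) +
    2 ^ k * (s * (3 / 2 * (1 / q) ^ (d * (2 * h)) / N ^ (β + 1)))

/-- UNIQ: quantitative union bound. -/
def T_UNIQ : Prop := ∀ (k r s d : ℕ) (A : Type) [DecidableEq A] [Fintype A] (C : Ckt (VV k r A) s d)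
  (w β h : ℕ) (e : Fin k → Fin r → Fin k) (p q : ℝ), 1 ≤ w → 0 < p → p ≤ 1 / 2 →
  0 < q → q ≤ 1 / 2 → 64 * w * q ≤ p → 1 ≤ Fintype.card A →
  ∑ x : Fin k → A, ∑ R : Fin d → PA (VV k r A), ∑ z : VV k r A → Bool, Wt q p R * wz p z *
    ind (¬ (GoodU e x R z ∧ GoodB C e x R β h)) ≤
    (Fintype.card A : ℝ) ^ k * HNL k (Fintype.card A) s w β h d p q

theorem uniq_t (hPUSH : T_PUSH) (hU : T_U) (hA : T_A) (hB : T_B) : T_UNIQ := by
  intro k r s d A _ _ C w β h e p q hw hp hp2 hq hq2 h64 hcA
  have hp1 : p ≤ 1 := by linarith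
  have hq1 : q ≤ 1 := by linarith
  set N := Fintype.card A with hN
  have hN1 : (1 : ℝ) ≤ N := by exact_mod_cast hcA
  set FF : Finset (Finset (Fin k)) := univ.filter (fun H => β < (VS e H).card ∧ H.card ≤ 2 * h) with hFF
  -- pointwise
  have hpt : ∀ (x : Fin k → A) (R : Fin d → PA (VV k r A)) (z : VV k r A → Bool),
      ind (¬ (GoodU e x R z ∧ GoodB C e x R β h)) ≤ ind (¬ GoodU e x R z) + ∑ H : Finset (Fin k), ind (∃ g, w < (C.T (K e x H) R g).depth) +
        ∑ H ∈ FF, ind (∃ g, EB C w (K e x H) (K e x H) R g) := by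
    intro x R z
    have h2 : 0 ≤ ∑ H : Finset (Fin k), ind (∃ g, w < (C.T (K e x H) R g).depth) :=
      sum_nonneg fun _ _ => ind_nonneg _
    have h3 : 0 ≤ ∑ H ∈ FF, ind (∃ g, EB C w (K e x H) (K e x H) R g) :=
      sum_nonneg fun _ _ => ind_nonneg _
    by_cases hall2 : GoodU e x R z ∧ GoodB C e x R β h
    · have h0 : ind (¬ (GoodU e x R z ∧ GoodB C e x R β h)) = 0 := by
        unfold ind; rw [if_neg (not_not.2 hall2)]
      have h1 := ind_nonneg (¬ GoodU e x R z)
      linarith
    rw [ind_of hall2]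
    by_cases hG : GoodU e x R z
    · have hGB : ¬ GoodB C e x R β h := fun h' => hall2 ⟨hG, h'⟩
      unfold GoodB at hGB
      push Not at hGB
      obtain ⟨H, hH1, hH2, g, π, hπ, hall⟩ := hGB
      have h1 := ind_nonneg (¬ GoodU e x R z)
      by_cases hd : ∃ g, w < (C.T (K e x H) R g).depth
      · have : ind (∃ g, w < (C.T (K e x H) R g).depth) ≤
            ∑ H : Finset (Fin k), ind (∃ g, w < (C.T (K e x H) R g).depth) :=
          single_le_sum (f := fun H => ind (∃ g, w < (C.T (K e x H) R g).depth))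
            (fun _ _ => ind_nonneg _) (mem_univ H)
        rw [ind_of hd] at this
        linarith
      · push Not at hd
        have hE : ∃ g, EB C w (K e x H) (K e x H) R g := by
          refine ⟨g, ?_, π, hπ, hall⟩
          intro c hc
          rw [Ckt.mem_cht] at hc
          obtain ⟨⟨b, a⟩, _, rfl⟩ := hc
          rcases a with i | g'
          · refine le_trans ?_ hw
            simp only [Ckt.stree, Sum.elim_inl]
            cases i <;> simp [Inp.tree, DT.depth]
          · exact hd g'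
        have hHF : H ∈ FF := by
          simp only [hFF, mem_filter, mem_univ, true_and]
          exact ⟨hH1, hH2⟩
        have : ind (∃ g, EB C w (K e x H) (K e x H) R g) ≤
            ∑ H ∈ FF, ind (∃ g, EB C w (K e x H) (K e x H) R g) :=
          single_le_sum (f := fun H => ind (∃ g, EB C w (K e x H) (K e x H) R g))
            (fun _ _ => ind_nonneg _) hHF
        rw [ind_of hE] at this
        linarith
    · rw [ind_of hG]
      linarith
  have hWn : ∀ R : Fin d → PA (VV k r A), 0 ≤ Wt q p R := fun R => Wt_nonneg hq.le hq1 hp.le hp1 R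
  have hzn : ∀ z : VV k r A → Bool, 0 ≤ wz p z := fun z => wz_nonneg hp.le hp1 z
  have hz1 : ∑ z : VV k r A → Bool, wz p z = 1 := sum_wz p
  have hW1 : ∑ R : Fin d → PA (VV k r A), ∑ z : VV k r A → Bool, Wt q p R * wz p z = 1 := by
    have := hPUSH (VV k r A) d q p (fun _ => 1)
    simpa [hz1] using this
  -- for one x
  have hx : ∀ x : Fin k → A, ∑ R : Fin d → PA (VV k r A), ∑ z : VV k r A → Bool, Wt q p R * wz p z *
      ind (¬ (GoodU e x R z ∧ GoodB C e x R β h)) ≤ ((1 + N * p) ^ k - 1) +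
      2 ^ k * (s * (3 / 2 * 16 ^ k / 2 ^ (w + 1))) +
      ∑ H ∈ FF, ∑ R : Fin d → PA (VV k r A), Wt q p R *
        ind (∃ g, EB C w (K e x H) (K e x H) R g) := by
    intro x
    have h0 : ∑ R : Fin d → PA (VV k r A), ∑ z : VV k r A → Bool, Wt q p R * wz p z *
      ind (¬ (GoodU e x R z ∧ GoodB C e x R β h)) ≤
        ∑ R : Fin d → PA (VV k r A), ∑ z : VV k r A → Bool, Wt q p R * wz p z *
        (ind (¬ GoodU e x R z) + ∑ H : Finset (Fin k), ind (∃ g, w < (C.T (K e x H) R g).depth) +
        ∑ H ∈ FF, ind (∃ g, EB C w (K e x H) (K e x H) R g)) := by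
      apply sum_le_sum; intro R _
      apply sum_le_sum; intro z _
      exact mul_le_mul_of_nonneg_left (hpt x R z) (mul_nonneg (hWn R) (hzn z))
    have h1 : ∑ R : Fin d → PA (VV k r A), ∑ z : VV k r A → Bool, Wt q p R * wz p z *
        ind (¬ GoodU e x R z) ≤ (1 + N * p) ^ k - 1 := by
      refine le_trans (le_of_eq ?_) (hU k r A e x p hp.le hp1)
      rw [← hPUSH (VV k r A) d q p (fun z => ind (∃ x', x' ≠ x ∧ ∀ j, pos e x' j ≠ pos e x j →
        z (pos e x' j) = true))]
      apply sum_congr rfl; intro R _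
      apply sum_congr rfl; intro z _
      congr 1
      apply ind_congr
      unfold GoodU
      push Not
      apply exists_congr; intro x'
      apply and_congr_right; intro _
      apply forall_congr'; intro j
      apply imp_congr_right; intro _
      simp
    have hsep : ∀ G : (Fin d → PA (VV k r A)) → ℝ,
        ∑ R : Fin d → PA (VV k r A), ∑ z : VV k r A → Bool, Wt q p R * wz p z * G R =
        ∑ R : Fin d → PA (VV k r A), Wt q p R * G R := by
      intro G
      apply sum_congr rfl; intro R _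
      have : ∀ z : VV k r A → Bool, Wt q p R * wz p z * G R = (Wt q p R * G R) * wz p z := fun z => by ring
      simp_rw [this]
      rw [← mul_sum, hz1, mul_one]
    have h2 : ∑ R : Fin d → PA (VV k r A), ∑ z : VV k r A → Bool, Wt q p R * wz p z *
        (∑ H : Finset (Fin k), ind (∃ g, w < (C.T (K e x H) R g).depth)) ≤
        2 ^ k * (s * (3 / 2 * 16 ^ k / 2 ^ (w + 1))) := by
      rw [hsep]
      simp_rw [mul_sum]
      rw [sum_comm]
      have : ∀ H ∈ (univ : Finset (Finset (Fin k))), ∑ R : Fin d → PA (VV k r A), Wt q p R *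
          ind (∃ g, w < (C.T (K e x H) R g).depth) ≤ s * (3 / 2 * 16 ^ k / 2 ^ (w + 1)) := by
        intro H _
        refine (hA (VV k r A) s d C w (K e x H) p q hw hp hp2 hq hq2 h64).trans ?_
        have hc : (K e x H).card ≤ k :=
          (card_image_le).trans ((card_le_univ H).trans (by simp))
        have : (16 : ℝ) ^ (K e x H).card ≤ 16 ^ k := pow_le_pow_right₀ (by norm_num) hc
        gcongr
      refine (sum_le_sum this).trans (le_of_eq ?_)
      rw [sum_const, nsmul_eq_mul, card_univ, Fintype.card_finset, Fintype.card_fin]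
      push_cast
      ring
    have h3 : ∑ R : Fin d → PA (VV k r A), ∑ z : VV k r A → Bool, Wt q p R * wz p z *
        (∑ H ∈ FF, ind (∃ g, EB C w (K e x H) (K e x H) R g)) =
        ∑ H ∈ FF, ∑ R : Fin d → PA (VV k r A), Wt q p R *
          ind (∃ g, EB C w (K e x H) (K e x H) R g) := by
      rw [hsep]
      simp_rw [mul_sum]
      rw [sum_comm]
    refine h0.trans ?_
    simp only [mul_add, sum_add_distrib]
    rw [h3]
    gcongr
  -- the third sum
  have h3 : ∑ x : Fin k → A, ∑ H ∈ FF, ∑ R : Fin d → PA (VV k r A), Wt q p R *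
        ind (∃ g, EB C w (K e x H) (K e x H) R g) ≤
      (N : ℝ) ^ k * (2 ^ k * (s * (3 / 2 * (1 / q) ^ (d * (2 * h)) / N ^ (β + 1)))) := by
    rw [sum_comm]
    have hH : ∀ H ∈ FF, ∑ x : Fin k → A, ∑ R : Fin d → PA (VV k r A), Wt q p R *
        ind (∃ g, EB C w (K e x H) (K e x H) R g) ≤
        (N : ℝ) ^ k * (s * (3 / 2 * (1 / q) ^ (d * (2 * h)) / N ^ (β + 1))) := by
      intro H hHF
      simp only [hFF, mem_filter, mem_univ, true_and] at hHF
      have hb := hB k r s d A C w e H p q hw hp hp2 hq hq2 h64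
      have hqp : 0 < q ^ (d * H.card) := by positivity
      have h1 : ∑ x : Fin k → A, ∑ R : Fin d → PA (VV k r A), Wt q p R *
          ind (∃ g, EB C w (K e x H) (K e x H) R g) ≤
          (1 / q) ^ (d * H.card) * (s * (3 / 2 * (N : ℝ) ^ (k - (VS e H).card))) := by
        rw [one_div, inv_pow]
        rw [inv_mul_eq_div, le_div_iff₀ hqp, mul_comm]
        exact hb
      refine h1.trans ?_
      have hq1' : 1 ≤ 1 / q := by rw [le_div_iff₀ hq]; linarith
      have h2 : (1 / q) ^ (d * H.card) ≤ (1 / q) ^ (d * (2 * h)) :=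
        pow_le_pow_right₀ hq1' (Nat.mul_le_mul_left _ hHF.2)
      have hVk : (VS e H).card ≤ k := (card_le_univ _).trans (by simp)
      have h4 : (N : ℝ) ^ (k - (VS e H).card) ≤ (N : ℝ) ^ k / N ^ (β + 1) := by
        rw [le_div_iff₀ (by positivity), ← pow_add]
        exact pow_le_pow_right₀ hN1 (by omega)
      calc (1 / q) ^ (d * H.card) * (s * (3 / 2 * (N : ℝ) ^ (k - (VS e H).card)))
          ≤ (1 / q) ^ (d * (2 * h)) * (s * (3 / 2 * ((N : ℝ) ^ k / N ^ (β + 1)))) := by gcongr
        _ = _ := by ring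
    refine (sum_le_sum hH).trans ?_
    rw [sum_const, nsmul_eq_mul]
    have hc : (FF.card : ℝ) ≤ 2 ^ k := by
      have : FF.card ≤ 2 ^ k := (card_le_univ _).trans (by simp)
      exact_mod_cast this
    have hpos : 0 ≤ (N : ℝ) ^ k * (s * (3 / 2 * (1 / q) ^ (d * (2 * h)) / N ^ (β + 1))) := by positivity
    calc (FF.card : ℝ) * ((N : ℝ) ^ k * (s * (3 / 2 * (1 / q) ^ (d * (2 * h)) / N ^ (β + 1))))
        ≤ 2 ^ k * ((N : ℝ) ^ k * (s * (3 / 2 * (1 / q) ^ (d * (2 * h)) / N ^ (β + 1)))) :=
          mul_le_mul_of_nonneg_right hc hpos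
      _ = _ := by ring
  -- sum over x
  have hsum := sum_le_sum (fun x (_ : x ∈ (univ : Finset (Fin k → A))) => hx x)
  rw [sum_add_distrib, sum_const, card_univ, Fintype.card_fun, Fintype.card_fin, ← hN,
    nsmul_eq_mul] at hsum
  push_cast at hsum
  unfold HNL
  rw [mul_add]
  linarith

end Pool.Agent.H68.AC
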