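import Pool.Agent.H36.AC.PARU
import Pool.Agent.H68.AC.Uniq

/-!
# SETH for constant-depth circuits: quantitative parameters

The proofs are those of helper81 (module PAR) and helper36 (module PARU).
-/

namespace Pool.Agent.H68.AC

open Finset Filter Pool.Agent.H36.AC

/-- PARUQ: the parameters, uniformly in the depth `d ≤ √n`, quantitative. -/
def T_PARUQ : Prop := ∀ (ε : ℝ), 0 < ε → ε ≤ 1 → ∃ β : ℝ, 0 < β ∧ β < 1 ∧ ∀ c₀ : ℝ, 0 < c₀ →
  ∃ c : ℕ, ∀ᶠ n : ℕ in atTop, ∀ d : ℕ, 1 ≤ d → d ^ 2 ≤ n → ∃ (k ℓ w r : ℕ) (δ p q : ℝ),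
    0 < δ ∧ c₀ ≤ δ * r ∧ 1 ≤ k ∧ 1 ≤ ℓ ∧ k * ℓ ≤ n ∧ k * (2 ^ ℓ) ^ (r + 1) ≤ n ^ (c * d) ∧
    (r + 1) * ℓ + 1 ≤ c * d * Nat.log 2 n ∧ ⌊β * k⌋₊ < k ∧ 1 ≤ ⌊δ * k⌋₊ ∧
    (⌊δ * k⌋₊ : ℝ) ≤ ε / 8 * k ∧ 1 ≤ w ∧
    0 < p ∧ p ≤ 1 / 2 ∧ 0 < q ∧ q ≤ 1 / 2 ∧ 64 * w * q ≤ p ∧
    ∀ s : ℕ, (s : ℝ) < 2 ^ ((1 - ε) * n) → HNL k (2 ^ ℓ) s w ⌊β * k⌋₊ ⌊δ * k⌋₊ d p q ≤ ε / 8

/-- The numerical core. -/
theorem par_coreQ (d : ℕ) (ε : ℝ) (hε : 0 < ε) (hε1 : ε ≤ 1) (n L k h : ℕ) (δ : ℝ)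
    (hδ : δ = ε / (32 * (d + 1))) (hL5 : 5 ≤ L) (hLε : 8 / ε ≤ L) (hgn : (2 : ℝ) ^ L ≤ n)
    (hng : (n : ℝ) < 2 * 2 ^ L) (hk : 1 ≤ k) (hkn : k * (6 * L) ≤ n) (hnk : n < (k + 1) * (6 * L))
    (hLn : (7 * L : ℝ) + 4 ≤ ε * n / 2) (hh : h = ⌊δ * k⌋₊) (s : ℕ)
    (hs : (s : ℝ) < 2 ^ ((1 - ε) * n)) :
    HNL k (2 ^ (6 * L)) s (8 * n) ⌊(1 - ε / 4) * k⌋₊ h d (1 / (2 ^ L) ^ 9)
      (1 / (2 ^ L) ^ 9 / (512 * n)) ≤ 1 / n := by
  unfold HNL
  set g : ℝ := 2 ^ L with hg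
  have hg32 : (32 : ℝ) ≤ g := by
    calc (32 : ℝ) = 2 ^ 5 := by norm_num
      _ ≤ 2 ^ L := pow_le_pow_right₀ (by norm_num) hL5
  have hg0 : 0 < g := by linarith
  have hn0 : (0 : ℝ) < n := by linarith
  have hN : ((2 ^ (6 * L) : ℕ) : ℝ) = g ^ 6 := by
    push_cast
    rw [hg, ← pow_mul, mul_comm]
  have hkn' : (k : ℝ) ≤ n := by
    have : k ≤ n := le_trans (Nat.le_mul_of_pos_right k (by omega)) hkn
    exact_mod_cast this
  have hk0 : (0 : ℝ) < k := by exact_mod_cast hk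
  have hkn2 : (k : ℝ) * (6 * L) ≤ n := by exact_mod_cast hkn
  have hnk2 : (n : ℝ) < (k + 1) * (6 * L) := by exact_mod_cast hnk
  have hL0 : (5 : ℝ) ≤ L := by exact_mod_cast hL5
  -- first term
  have h1 : (1 + ((2 ^ (6 * L) : ℕ) : ℝ) * (1 / g ^ 9)) ^ k - 1 ≤ 1 / (4 * n) := by
    have hu : ((2 ^ (6 * L) : ℕ) : ℝ) * (1 / g ^ 9) = 1 / g ^ 3 := by
      rw [hN]; field_simp
    rw [hu]
    have hu0 : 0 < 1 / g ^ 3 := by positivity
    have hk2 : (k : ℝ) * 15 ≤ g := by nlinarith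
    have hku : k * (1 / g ^ 3) ≤ 1 / (15 * g ^ 2) := by
      rw [mul_one_div, div_le_div_iff₀ (by positivity) (by positivity)]
      have : 0 < g ^ 2 := by positivity
      nlinarith
    have hg22 : (1024 : ℝ) ≤ g ^ 2 := by nlinarith
    have hku2 : k * (1 / g ^ 3) ≤ 1 / 2 := by
      refine hku.trans ?_
      rw [div_le_div_iff₀ (by positivity) (by norm_num)]
      linarith
    have he : (1 + 1 / g ^ 3) ^ k ≤ Real.exp (k * (1 / g ^ 3)) := by
      rw [Real.exp_nat_mul]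
      exact pow_le_pow_left₀ (by linarith) (by linarith [Real.add_one_le_exp (1 / g ^ 3)]) k
    have he2 : Real.exp (k * (1 / g ^ 3)) ≤ 1 / (1 - k * (1 / g ^ 3)) := by
      have h3 := Real.add_one_le_exp (-(k * (1 / g ^ 3)))
      have h4 : 0 < 1 - k * (1 / g ^ 3) := by linarith
      rw [le_div_iff₀ h4]
      calc Real.exp (k * (1 / g ^ 3)) * (1 - k * (1 / g ^ 3))
          ≤ Real.exp (k * (1 / g ^ 3)) * Real.exp (-(k * (1 / g ^ 3))) :=
            mul_le_mul_of_nonneg_left (by linarith) (Real.exp_pos _).le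
        _ = 1 := by rw [← Real.exp_add]; simp
    have he3 : 1 / (1 - k * (1 / g ^ 3)) ≤ 1 + 2 * (k * (1 / g ^ 3)) := by
      rw [div_le_iff₀ (by linarith)]
      have : 0 ≤ k * (1 / g ^ 3) := by positivity
      nlinarith
    have he4 : 2 * ((k : ℝ) * (1 / g ^ 3)) ≤ 1 / (4 * (n : ℝ)) := by
      refine (mul_le_mul_of_nonneg_left hku (by norm_num : (0 : ℝ) ≤ 2)).trans ?_
      rw [mul_one_div, div_le_div_iff₀ (by positivity) (by positivity)]
      nlinarith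
    linarith
  -- second term
  have hs2 : (s : ℝ) ≤ 2 ^ n := by
    refine hs.le.trans ?_
    rw [← Real.rpow_natCast]
    apply Real.rpow_le_rpow_of_exponent_le (by norm_num)
    nlinarith
  have hkn3 : k ≤ n := by exact_mod_cast hkn'
  have hn1 : 1 ≤ n := le_trans hk hkn3
  have h2 : (2 : ℝ) ^ k * (s * (3 / 2 * 16 ^ k / 2 ^ (8 * n + 1))) ≤ 1 / (4 * n) := by
    have e1 : (2 : ℝ) ^ k ≤ 2 ^ n := pow_le_pow_right₀ (by norm_num) hkn3
    have e2 : (16 : ℝ) ^ k ≤ 16 ^ n := pow_le_pow_right₀ (by norm_num) hkn3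
    calc (2 : ℝ) ^ k * (s * (3 / 2 * 16 ^ k / 2 ^ (8 * n + 1)))
        ≤ 2 ^ n * (2 ^ n * (3 / 2 * 16 ^ n / 2 ^ (8 * n + 1))) := by gcongr
      _ = 3 / 4 * (1 / 4) ^ n := by
          have : (16 : ℝ) ^ n = 2 ^ (4 * n) := by rw [pow_mul]; norm_num
          rw [this]
          have e3 : (1 / 4 : ℝ) ^ n = 1 / 2 ^ (2 * n) := by
            rw [pow_mul, one_div, inv_pow, one_div]; norm_num
          rw [e3]
          have e4 : (2 : ℝ) ^ (8 * n + 1) = 2 * 2 ^ n * 2 ^ n * 2 ^ (4 * n) * 2 ^ (2 * n) := by ring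
          rw [e4]
          field_simp
          norm_num
      _ ≤ 1 / (4 * n) := by
          have e5 : (n : ℝ) + 1 ≤ 2 ^ n := by exact_mod_cast Nat.lt_two_pow_self
          have e6 : (1 / 4 : ℝ) ^ n = 1 / (2 ^ n * 2 ^ n) := by
            rw [one_div, inv_pow, ← mul_pow, one_div]; norm_num
          rw [e6, mul_one_div, div_le_div_iff₀ (by positivity) (by positivity)]
          have e7 : (n : ℝ) * 4 ≤ 2 ^ n * 2 ^ n := by
            have e8 : (4 : ℝ) ≤ 2 ^ n := by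
              calc (4 : ℝ) = 2 ^ 2 := by norm_num
                _ ≤ 2 ^ n := pow_le_pow_right₀ (by norm_num) (by
                  have : (5 : ℝ) ≤ n := by nlinarith
                  have : 5 ≤ n := by exact_mod_cast this
                  omega)
            nlinarith
          linarith
  -- third term
  have h3 : (2 : ℝ) ^ k * (s * (3 / 2 * (1 / (1 / g ^ 9 / (512 * n))) ^ (d * (2 * h)) /
      ((2 ^ (6 * L) : ℕ) : ℝ) ^ (⌊(1 - ε / 4) * k⌋₊ + 1))) ≤ 1 / (4 * n) := by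
    have hq : 1 / (1 / g ^ 9 / (512 * n)) ≤ g ^ 12 := by
      have : 1 / (1 / g ^ 9 / (512 * n)) = 512 * n * g ^ 9 := by field_simp
      rw [this]
      have e1 : 512 * (n : ℝ) ≤ g ^ 3 := by
        nlinarith [mul_pos hg0 hg0, mul_le_mul hg32 hg32 (by norm_num) hg0.le]
      calc 512 * n * g ^ 9 ≤ g ^ 3 * g ^ 9 := by gcongr
        _ = g ^ 12 := by ring
    have hq0 : 0 ≤ 1 / (1 / g ^ 9 / (512 * n)) := by positivity
    have hg2 : ∀ m : ℕ, g ^ m = (2 : ℝ) ^ ((L : ℝ) * m) := by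
      intro m
      rw [hg, ← pow_mul, ← Real.rpow_natCast]; push_cast; rfl
    have hA : (1 / (1 / g ^ 9 / (512 * n))) ^ (d * (2 * h)) ≤ (2 : ℝ) ^ ((6 * L : ℝ) * k * (ε / 8)) := by
      calc (1 / (1 / g ^ 9 / (512 * n))) ^ (d * (2 * h)) ≤ (g ^ 12) ^ (d * (2 * h)) := by gcongr
        _ = g ^ (12 * (d * (2 * h))) := by rw [← pow_mul]
        _ = (2 : ℝ) ^ ((L : ℝ) * ((12 * (d * (2 * h)) : ℕ) : ℝ)) := hg2 _
        _ ≤ (2 : ℝ) ^ ((6 * L : ℝ) * k * (ε / 8)) := by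
          apply Real.rpow_le_rpow_of_exponent_le (by norm_num)
          push_cast
          have e1 : (h : ℝ) ≤ δ * k := by rw [hh]; exact Nat.floor_le (by rw [hδ]; positivity)
          have e2 : (d : ℝ) * h ≤ ε * k / 32 := by
            calc (d : ℝ) * h ≤ (d + 1) * (δ * k) :=
                mul_le_mul (by linarith) e1 (Nat.cast_nonneg _) (by positivity)
              _ = ε * k / 32 := by rw [hδ]; field_simp
          have e3 : (L : ℝ) * (12 * (d * (2 * h))) = 24 * L * (d * h) := by ring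
          rw [e3]
          have : 24 * L * (d * h) ≤ 24 * L * (ε * k / 32) :=
            mul_le_mul_of_nonneg_left e2 (by positivity)
          linarith
    have hB : (2 : ℝ) ^ k ≤ (2 : ℝ) ^ ((6 * L : ℝ) * k * (ε / 8)) := by
      rw [← Real.rpow_natCast]
      apply Real.rpow_le_rpow_of_exponent_le (by norm_num)
      rw [div_le_iff₀ hε] at hLε
      nlinarith
    have hC : (2 : ℝ) ^ ((6 * L : ℝ) * k * (1 - ε / 4)) ≤
        ((2 ^ (6 * L) : ℕ) : ℝ) ^ (⌊(1 - ε / 4) * k⌋₊ + 1) := by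
      rw [hN, ← pow_mul, hg2]
      apply Real.rpow_le_rpow_of_exponent_le (by norm_num)
      have e1 : (1 - ε / 4) * k < ⌊(1 - ε / 4) * k⌋₊ + 1 := Nat.lt_floor_add_one _
      push_cast
      calc (6 * L : ℝ) * k * (1 - ε / 4) = 6 * L * ((1 - ε / 4) * k) := by ring
        _ ≤ 6 * L * (⌊(1 - ε / 4) * k⌋₊ + 1) := mul_le_mul_of_nonneg_left e1.le (by positivity)
        _ = _ := by ring
    calc (2 : ℝ) ^ k * (s * (3 / 2 * (1 / (1 / g ^ 9 / (512 * n))) ^ (d * (2 * h)) /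
        ((2 ^ (6 * L) : ℕ) : ℝ) ^ (⌊(1 - ε / 4) * k⌋₊ + 1)))
        ≤ (2 : ℝ) ^ ((6 * L : ℝ) * k * (ε / 8)) * ((2 : ℝ) ^ ((1 - ε) * n) *
          (3 / 2 * (2 : ℝ) ^ ((6 * L : ℝ) * k * (ε / 8)) / (2 : ℝ) ^ ((6 * L : ℝ) * k * (1 - ε / 4)))) := by
          gcongr
      _ = 3 / 2 * (2 : ℝ) ^ ((6 * L : ℝ) * k * (ε / 8) + (1 - ε) * n + (6 * L : ℝ) * k * (ε / 8)
            - (6 * L : ℝ) * k * (1 - ε / 4)) := by
          rw [Real.rpow_sub (by norm_num), Real.rpow_add (by norm_num), Real.rpow_add (by norm_num)]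
          ring
      _ ≤ 3 / 2 * (2 : ℝ) ^ (-(L + 4) : ℝ) := by
          have : (6 * L : ℝ) * k * (ε / 8) + (1 - ε) * n + (6 * L : ℝ) * k * (ε / 8)
            - (6 * L : ℝ) * k * (1 - ε / 4) ≤ -(L + 4) := by
            have e1 : (6 * L : ℝ) * k ≥ n - 6 * L := by linarith
            have e2 : (1 - ε / 2) * ((6 * L : ℝ) * k) ≥ (1 - ε / 2) * (n - 6 * L) :=
              mul_le_mul_of_nonneg_left e1 (by linarith)
            nlinarith
          have := Real.rpow_le_rpow_of_exponent_le (show (1 : ℝ) ≤ 2 by norm_num) this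
          linarith
      _ ≤ 1 / (4 * n) := by
          rw [Real.rpow_neg (by norm_num), Real.rpow_add (by norm_num), Real.rpow_natCast, ← hg,
            show (2 : ℝ) ^ (4 : ℝ) = 16 by norm_num, ← one_div, mul_one_div,
            div_le_div_iff₀ (by positivity) (by positivity)]
          linarith
  have hsum : 1 / (4 * (n : ℝ)) + 1 / (4 * n) + 1 / (4 * n) ≤ 1 / n := by
    rw [← sub_nonneg]
    have : 1 / (n : ℝ) - (1 / (4 * n) + 1 / (4 * n) + 1 / (4 * n)) = 1 / (4 * n) := by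
      field_simp; norm_num
    rw [this]; positivity
  linarith

/-- PARUQ: the parameters, uniformly in the depth `d ≤ √n`. -/
theorem paruq_t : T_PARUQ := by
  intro ε hε hε1
  refine ⟨1 - ε / 4, by linarith, by linarith, fun c₀ hc₀ => ?_⟩
  obtain ⟨K0, hK0⟩ := exists_nat_ge (64 * c₀ / ε)
  refine ⟨6 * (K0 + 1) + 7, ?_⟩
  obtain ⟨M, hM⟩ := exists_nat_ge (8 / ε)
  have hE3 : ∀ᶠ n : ℕ in atTop, 1 / ε ≤ (n : ℝ) := by
    exact tendsto_natCast_atTop_atTop.eventually_ge_atTop _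
  have hE4 : ∀ᶠ n : ℕ in atTop, 8 / ε ≤ (n : ℝ) := by
    exact tendsto_natCast_atTop_atTop.eventually_ge_atTop _
  filter_upwards [log_le_sqrt (ε / 396) (by positivity), eventually_ge_atTop (2 ^ (max 5 M)),
    hE3, hE4] with n hn1 hn4 hn5 hn6 d hd1 hdn
  set L := Nat.log 2 n with hL
  have hn0 : n ≠ 0 := by
    have : 0 < 2 ^ (max 5 M) := by positivity
    omega
  have hLM : max 5 M ≤ L := by
    rw [hL]
    exact Nat.le_log_of_pow_le (by norm_num) hn4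
  have hL5 : 5 ≤ L := (le_max_left _ _).trans hLM
  have hML : M ≤ L := (le_max_right _ _).trans hLM
  have hgn : 2 ^ L ≤ n := Nat.pow_log_le_self 2 hn0
  have hng : n < 2 ^ (L + 1) := Nat.lt_pow_succ_log_self (by norm_num) n
  have hgnR : (2 : ℝ) ^ L ≤ n := by exact_mod_cast hgn
  have hngR : (n : ℝ) < 2 * 2 ^ L := by
    have : (n : ℝ) < 2 ^ (L + 1) := by exact_mod_cast hng
    rw [pow_succ] at this; linarith
  have hnR : (0 : ℝ) < n := by exact_mod_cast Nat.pos_of_ne_zero hn0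
  have hn1' : (1 : ℝ) ≤ n := by exact_mod_cast Nat.pos_of_ne_zero hn0
  have hd1R : (1 : ℝ) ≤ d := by exact_mod_cast hd1
  set δ : ℝ := ε / (32 * (d + 1)) with hδ
  have hδ0 : 0 < δ := by positivity
  have hsq : (√(n : ℝ)) ^ 2 = n := Real.sq_sqrt hnR.le
  have hs1 : 1 ≤ √(n : ℝ) := by rw [Real.one_le_sqrt]; exact hn1'
  have hds : (d : ℝ) ≤ √(n : ℝ) := by
    apply Real.le_sqrt_of_sq_le
    exact_mod_cast hdn
  set S : ℝ := √(n : ℝ) with hS
  set k := n / (6 * L) with hk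
  have h6L : 0 < 6 * L := by omega
  have hkn : k * (6 * L) ≤ n := Nat.div_mul_le_self n (6 * L)
  have hnk : n < (k + 1) * (6 * L) := by
    have := Nat.lt_div_mul_add (a := n) h6L
    rw [add_mul, one_mul]; exact this
  have hnkR : (n : ℝ) < (k + 1) * (6 * L) := by exact_mod_cast hnk
  have h6LR : (0 : ℝ) < 6 * L := by exact_mod_cast h6L
  have hinv : 1 + 1 / δ ≤ 65 / ε * S := by
    have e0 : 1 / δ = 32 * (d + 1) / ε := by rw [hδ]; field_simp
    rw [e0]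
    have e1 : 1 ≤ 1 / ε * S := by
      have : 1 ≤ 1 / ε := by rw [le_div_iff₀ hε]; linarith
      nlinarith
    have e2 : 32 * ((d : ℝ) + 1) / ε ≤ 64 / ε * S := by
      rw [div_mul_eq_mul_div, div_le_div_iff_of_pos_right hε]
      linarith
    have e3 : 65 / ε * S = 1 / ε * S + 64 / ε * S := by ring
    linarith
  have hδk : 1 ≤ δ * k := by
    have e1 : (6 * L : ℝ) * (1 + 1 / δ) ≤ n := by
      calc (6 * L : ℝ) * (1 + 1 / δ) ≤ (6 * (ε / 396 * S)) * (65 / ε * S) := by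
            apply mul_le_mul (by linarith) hinv (by positivity) (by positivity)
        _ = 390 / 396 * S ^ 2 := by field_simp; norm_num
        _ ≤ n := by rw [hsq]; linarith
    have e2 : (6 * L : ℝ) * (1 + 1 / δ) < (k + 1) * (6 * L) := lt_of_le_of_lt e1 hnkR
    have e3 : 1 + 1 / δ < k + 1 := by
      by_contra hc
      push Not at hc
      nlinarith
    have e4 : 1 / δ < k := by linarith
    rw [div_lt_iff₀ hδ0] at e4
    linarith
  have hk1 : 1 ≤ k := by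
    by_contra hc
    have : k = 0 := Nat.eq_zero_of_not_pos hc
    rw [this] at hδk
    norm_num at hδk
  have hg2 : (32 : ℝ) ≤ 2 ^ L := by
    calc (32 : ℝ) = 2 ^ 5 := by norm_num
      _ ≤ 2 ^ L := pow_le_pow_right₀ (by norm_num) hL5
  have hg9 : (2 : ℝ) ≤ (2 ^ L) ^ 9 := by
    calc (2 : ℝ) ≤ 32 ^ 9 := by norm_num
      _ ≤ (2 ^ L) ^ 9 := pow_le_pow_left₀ (by norm_num) hg2 9
  have hp2 : 1 / ((2 : ℝ) ^ L) ^ 9 ≤ 1 / 2 := one_div_le_one_div_of_le (by norm_num) hg9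
  obtain ⟨r, hr⟩ : ∃ r : ℕ, r = ⌈c₀ / δ⌉₊ := ⟨_, rfl⟩
  have hr1 : c₀ ≤ δ * r := by
    have : c₀ / δ ≤ r := by rw [hr]; exact Nat.le_ceil _
    rw [div_le_iff₀ hδ0] at this
    linarith
  have hr2 : r ≤ (K0 + 1) * d := by
    have e0 : (r : ℝ) < c₀ / δ + 1 := by
      rw [hr]; exact Nat.ceil_lt_add_one (by positivity)
    have e1 : c₀ / δ ≤ K0 * d := by
      have : c₀ / δ = 32 * c₀ / ε * (d + 1) := by rw [hδ]; field_simp
      rw [this]
      calc 32 * c₀ / ε * ((d : ℝ) + 1) ≤ 32 * c₀ / ε * (d + d) := by gcongr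
        _ = 64 * c₀ / ε * d := by ring
        _ ≤ K0 * d := by gcongr
    have e2 : (r : ℝ) < ((K0 * d + 1 : ℕ) : ℝ) := by push_cast; linarith
    have e3 : r < K0 * d + 1 := by exact_mod_cast e2
    nlinarith
  refine ⟨k, 6 * L, 8 * n, r, δ, 1 / (2 ^ L) ^ 9, 1 / (2 ^ L) ^ 9 / (512 * n), hδ0, hr1, hk1,
    by omega, hkn, ?_, ?_, ?_, ?_, ?_, by omega, by positivity, hp2, by positivity, ?_, ?_, ?_⟩
  · calc k * (2 ^ (6 * L)) ^ (r + 1) ≤ n * (n ^ 6) ^ (r + 1) := by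
          apply Nat.mul_le_mul
          · exact Nat.div_le_self _ _
          · apply Nat.pow_le_pow_left
            rw [mul_comm, pow_mul]
            exact Nat.pow_le_pow_left hgn 6
      _ = n ^ (6 * (r + 1) + 1) := by ring
      _ ≤ n ^ ((6 * (K0 + 1) + 7) * d) := Nat.pow_le_pow_right (by omega) (by nlinarith)
  · have e1 : 6 * r ≤ 6 * ((K0 + 1) * d) := Nat.mul_le_mul_left 6 hr2
    have e2 : 6 * r + 6 + 1 ≤ (6 * (K0 + 1) + 7) * d := by nlinarith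
    calc (r + 1) * (6 * L) + 1 ≤ (6 * r + 6 + 1) * L := by nlinarith
      _ ≤ (6 * (K0 + 1) + 7) * d * L := Nat.mul_le_mul_right L e2
  · rw [Nat.floor_lt (by have : (0:ℝ) ≤ k := Nat.cast_nonneg _; nlinarith)]
    have : (0 : ℝ) < k := by exact_mod_cast hk1
    nlinarith
  · exact Nat.le_floor (by exact_mod_cast hδk)
  · have hfl : (⌊δ * k⌋₊ : ℝ) ≤ δ * k := Nat.floor_le (by positivity)
    refine hfl.trans ?_
    have : δ ≤ ε / 8 := by
      rw [hδ, div_le_div_iff₀ (by positivity) (by norm_num)]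
      nlinarith
    exact mul_le_mul_of_nonneg_right this (Nat.cast_nonneg _)
  · have : 1 / ((2 : ℝ) ^ L) ^ 9 / (512 * n) ≤ 1 / ((2 : ℝ) ^ L) ^ 9 :=
      div_le_self (by positivity) (by nlinarith)
    linarith
  · push_cast
    apply le_of_eq
    field_simp
    norm_num
  · intro s hs
    refine (par_coreQ d ε hε hε1 n L k ⌊δ * k⌋₊ δ hδ hL5 ?_ hgnR hngR hk1 hkn hnk ?_ rfl s hs).trans ?_
    · exact hM.trans (by exact_mod_cast hML)
    · have hLR : (5 : ℝ) ≤ L := by exact_mod_cast hL5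
      have e1 : (L : ℝ) ≤ ε / 396 * S := hn1
      have e2 : S ≤ n := by nlinarith
      have e3 : (L : ℝ) ≤ ε / 396 * n := e1.trans (by gcongr)
      nlinarith
    · rw [div_le_div_iff₀ hnR (by norm_num)]
      rw [div_le_iff₀ hε] at hn6
      linarith

end Pool.Agent.H68.AC
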