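import Pool.Agent.H68.AC.Final
import Pool.Agent.H68.AC.Uniq
import Pool.Agent.H68.AC.Paruq

/-!
# SETH for constant-depth circuits: the average-case form
-/

namespace Pool.Agent.H68.AC

open Finset Filter

/-- The planted input. -/
def yP {V : Type} [DecidableEq V] (P : Finset V) (z : V → Bool) : V → Bool :=
  fun v => if v ∈ P then true else z v

/-- The planted solution is the only one. -/
def Uq {k r : ℕ} {A : Type} (e : Fin k → Fin r → Fin k) (x : Fin k → A) (z : VV k r A → Bool) : Prop :=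
  ∀ x', x' ≠ x → ∃ j, pos e x' j ≠ pos e x j ∧ z (pos e x' j) = false

theorem sat_yP {k r : ℕ} {A : Type} [DecidableEq A] (e : Fin k → Fin r → Fin k) (x : Fin k → A)
    (z : VV k r A → Bool) : fE e (yP (K e x univ) z) := by
  refine ⟨x, fun j => ?_⟩
  have : pos e x j ∈ K e x univ := mem_image_of_mem _ (mem_univ j)
  simp only [yP, this, if_true]

theorem unsat_yP {k r : ℕ} {A : Type} [DecidableEq A] (e : Fin k → Fin r → Fin k) (x : Fin k → A)
    (z : VV k r A → Bool) (hU : Uq e x z) (j : Fin k) :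
    ¬ fE e (Function.update (yP (K e x univ) z) (pos e x j) false) := by
  rintro ⟨x', hx'⟩
  have hne : x' ≠ x := by
    rintro rfl
    have := hx' j
    rw [Function.update_self] at this
    exact Bool.false_ne_true this
  obtain ⟨i, hi1, hi2⟩ := hU x' hne
  have hiP : pos e x' i ∉ K e x univ := by
    intro hmem
    rw [K, mem_image] at hmem
    obtain ⟨i', _, hi'⟩ := hmem
    have h1 : i' = i := congrArg Prod.fst hi'
    rw [h1] at hi'
    exact hi1 hi'.symm
  have hyi : yP (K e x univ) z (pos e x' i) = false := by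
    simp only [yP, hiP, if_false]
    exact hi2
  have hne2 : pos e x' i ≠ pos e x j := fun he => hiP (he ▸ mem_image_of_mem _ (mem_univ j))
  have := hx' i
  rw [Function.update_of_ne hne2, hyi] at this
  exact Bool.false_ne_true this

/-- In a good outcome the circuit notices the removal of at most `h` of the planted positions. -/
theorem detq {k r s d : ℕ} {A : Type} [DecidableEq A] [Fintype A] (C : Ckt (VV k r A) s d)
    (e : Fin k → Fin r → Fin k) (x : Fin k → A) (R : Fin d → PA (VV k r A)) (z : VV k r A → Bool)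
    (β h : ℕ) (hE : Expd e β h) (hh : 1 ≤ h) (hB : GoodB C e x R β h) :
    (univ.filter (fun j => C.val (Function.update (yof (K e x univ) R z) (pos e x j) false) C.out ≠
      C.val (yof (K e x univ) R z) C.out)).card ≤ h := by
  classical
  set P : Finset (VV k r A) := K e x univ with hP
  have hKm : ∀ j, pos e x j ∈ P := fun j => mem_image_of_mem _ (mem_univ j)
  set y : VV k r A → Bool := yof P R z with hy
  have hlev : C.lev C.out + 1 ≤ d := C.lev_lt C.out
  have hext : Ext (rho P R (C.lev C.out + 1)) y := ext_yof P R z hlev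
  obtain ⟨ψ, hψ, hψy⟩ := exists_path (C.T P R C.out) y
  have hcard := FL k r s d A C e x R β h hE hh hB C.out ψ _ hψ
  set H := univ.filter (fun j => pos e x j ∈ ψ.map Prod.fst) with hH
  have h1 : H.card ≤ h := by
    refine le_trans (card_le_card ?_) (hE (VS e H) hcard)
    intro j hj
    rw [mem_filter]
    refine ⟨mem_univ _, fun o => ?_⟩
    rw [VS, mem_biUnion]
    exact ⟨j, hj, mem_image_of_mem _ (mem_univ o)⟩
  refine le_trans (card_le_card ?_) h1
  intro j hj
  rw [mem_filter] at hj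
  rw [hH, mem_filter]
  refine ⟨mem_univ _, ?_⟩
  by_contra hjψ
  apply hj.2
  have hext' : Ext (rho P R (C.lev C.out + 1)) (Function.update y (pos e x j) false) := by
    intro v b hv
    have hvP : v ∉ P := by
      intro hvP
      simp [rho, mask, hvP] at hv
    have hne : v ≠ pos e x j := by
      rintro rfl
      exact hvP (hKm j)
    rw [Function.update_of_ne hne]
    exact hext v b hv
  have hev : (C.T P R C.out).eval (Function.update y (pos e x j) false) = (C.T P R C.out).eval y := by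
    apply eval_of_path hψ
    intro u hu
    have hne : u.1 ≠ pos e x j := by
      intro he
      exact hjψ (he ▸ List.mem_map_of_mem hu)
    rw [Function.update_of_ne hne]
    exact hψy u hu
  rw [← cor_t _ s d C P R C.out _ hext', ← cor_t _ s d C P R C.out y hext, hev]

/-- The number of positions of the planted solution whose removal is noticed by the circuit. -/
noncomputable def cnt {k r s d : ℕ} {A : Type} [DecidableEq A] (C : Ckt (VV k r A) s d)
    (e : Fin k → Fin r → Fin k) (x : Fin k → A) (z : VV k r A → Bool) : ℕ :=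
  (univ.filter (fun j => C.val (Function.update (yP (K e x univ) z) (pos e x j) false) C.out ≠
      C.val (yP (K e x univ) z) C.out)).card

theorem cnt_le {k r s d : ℕ} {A : Type} [DecidableEq A] (C : Ckt (VV k r A) s d)
    (e : Fin k → Fin r → Fin k) (x : Fin k → A) (z : VV k r A → Bool) : cnt C e x z ≤ k :=
  (card_le_univ _).trans (by simp)

theorem avg_core {k r s d : ℕ} {A : Type} [DecidableEq A] [Fintype A] (C : Ckt (VV k r A) s d)
    (e : Fin k → Fin r → Fin k) (w β h : ℕ) (p q : ℝ) (hE : Expd e β h) (hh : 1 ≤ h) (hw : 1 ≤ w)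
    (hp : 0 < p) (hp1 : p ≤ 1 / 2) (hq : 0 < q) (hq1 : q ≤ 1 / 2) (hwq : 64 * w * q ≤ p)
    (hA : 1 ≤ Fintype.card A) :
    ∑ x : Fin k → A, ∑ z : VV k r A → Bool, wz p z * (ind (Uq e x z) * cnt C e x z) ≤
      (Fintype.card A : ℝ) ^ k * (k * HNL k (Fintype.card A) s w β h d p q + h) := by
  have hWn : ∀ R : Fin d → PA (VV k r A), 0 ≤ Wt q p R := fun R =>
    Wt_nonneg hq.le (by linarith) hp.le (by linarith) R
  have hzn : ∀ z : VV k r A → Bool, 0 ≤ wz p z := fun z =>
    Pool.Agent.H81.AC.wz_nonneg hp.le (by linarith) z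
  have hW1 : ∑ R : Fin d → PA (VV k r A), ∑ z : VV k r A → Bool, Wt q p R * wz p z = 1 := by
    have := Pool.Agent.H90.AC.PUSH (VV k r A) d q p (fun _ => 1)
    simpa [Pool.Agent.H81.AC.sum_wz] using this
  have hpt : ∀ (x : Fin k → A) (R : Fin d → PA (VV k r A)) (z : VV k r A → Bool),
      ind (Uq e x (fun v => (fd R d v).getD (z v))) * (cnt C e x (fun v => (fd R d v).getD (z v)) : ℝ) ≤
      k * ind (¬ (GoodU e x R z ∧ GoodB C e x R β h)) + h := by
    intro x R z
    by_cases hG : GoodU e x R z ∧ GoodB C e x R β h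
    · have h1 : (cnt C e x (fun v => (fd R d v).getD (z v)) : ℝ) ≤ h := by
        exact_mod_cast detq C e x R z β h hE hh hG.2
      rw [ind_false (not_not.2 hG), mul_zero, zero_add]
      calc _ ≤ 1 * (cnt C e x (fun v => (fd R d v).getD (z v)) : ℝ) :=
            mul_le_mul_of_nonneg_right (ind_le_one _) (Nat.cast_nonneg _)
        _ ≤ h := by rw [one_mul]; exact h1
    · rw [ind_true hG, mul_one]
      have h1 : (cnt C e x (fun v => (fd R d v).getD (z v)) : ℝ) ≤ k := by
        exact_mod_cast cnt_le C e x _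
      have h2 : (0 : ℝ) ≤ h := Nat.cast_nonneg h
      calc _ ≤ 1 * (cnt C e x (fun v => (fd R d v).getD (z v)) : ℝ) :=
            mul_le_mul_of_nonneg_right (ind_le_one _) (Nat.cast_nonneg _)
        _ ≤ k + h := by rw [one_mul]; linarith
  calc ∑ x : Fin k → A, ∑ z : VV k r A → Bool, wz p z * (ind (Uq e x z) * cnt C e x z)
      = ∑ x : Fin k → A, ∑ R : Fin d → PA (VV k r A), ∑ z : VV k r A → Bool, Wt q p R * wz p z *
          (ind (Uq e x (fun v => (fd R d v).getD (z v))) *
            (cnt C e x (fun v => (fd R d v).getD (z v)) : ℝ)) :=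
        Finset.sum_congr rfl (fun x _ =>
          (Pool.Agent.H90.AC.PUSH (VV k r A) d q p (fun z => ind (Uq e x z) * (cnt C e x z : ℝ))).symm)
    _ ≤ ∑ x : Fin k → A, ∑ R : Fin d → PA (VV k r A), ∑ z : VV k r A → Bool, Wt q p R * wz p z *
          (k * ind (¬ (GoodU e x R z ∧ GoodB C e x R β h)) + h) :=
        Finset.sum_le_sum (fun x _ => Finset.sum_le_sum (fun R _ => Finset.sum_le_sum (fun z _ =>
          mul_le_mul_of_nonneg_left (hpt x R z) (mul_nonneg (hWn R) (hzn z)))))
    _ = k * (∑ x : Fin k → A, ∑ R : Fin d → PA (VV k r A), ∑ z : VV k r A → Bool, Wt q p R * wz p z *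
          ind (¬ (GoodU e x R z ∧ GoodB C e x R β h))) + (Fintype.card A : ℝ) ^ k * h := by
        have h1 : ∀ (x : Fin k → A) (R : Fin d → PA (VV k r A)) (z : VV k r A → Bool),
            Wt q p R * wz p z * (k * ind (¬ (GoodU e x R z ∧ GoodB C e x R β h)) + h) =
            k * (Wt q p R * wz p z * ind (¬ (GoodU e x R z ∧ GoodB C e x R β h))) +
              (Wt q p R * wz p z) * h := fun x R z => by ring
        simp_rw [h1, Finset.sum_add_distrib, ← Finset.mul_sum, ← Finset.sum_mul]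
        rw [hW1, Finset.sum_const, card_univ, Fintype.card_fun, Fintype.card_fin, nsmul_eq_mul, mul_one]
        push_cast
        ring
    _ ≤ k * ((Fintype.card A : ℝ) ^ k * HNL k (Fintype.card A) s w β h d p q) +
          (Fintype.card A : ℝ) ^ k * h := by
        have := uniq_t Pool.Agent.H90.AC.PUSH Pool.Agent.H90.AC.U Pool.Agent.H68.AC.A Pool.Agent.H68.AC.B
          k r s d A C w β h e p q hw hp hp1
          hq hq1 hwq hA
        have h2 := mul_le_mul_of_nonneg_left this (Nat.cast_nonneg k : (0 : ℝ) ≤ k)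
        linarith
    _ = _ := by ring

/-- The normalisation. -/
theorem norm_ge {k r : ℕ} {A : Type} [DecidableEq A] [Fintype A] (e : Fin k → Fin r → Fin k) (p : ℝ)
    (hp : 0 ≤ p) (hp1 : p ≤ 1) :
    (Fintype.card A : ℝ) ^ k * (1 - ((1 + Fintype.card A * p) ^ k - 1)) ≤
      ∑ x : Fin k → A, ∑ z : VV k r A → Bool, wz p z * ind (Uq e x z) := by
  have h1 : ∀ x : Fin k → A, 1 - ((1 + Fintype.card A * p) ^ k - 1) ≤
      ∑ z : VV k r A → Bool, wz p z * ind (Uq e x z) := by
    intro x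
    have h2 := Pool.Agent.H90.AC.U k r A e x p hp hp1
    have h3 : ∀ z : VV k r A → Bool, wz p z * ind (Uq e x z) = wz p z -
        wz p z * ind (∃ x', x' ≠ x ∧ ∀ j, pos e x' j ≠ pos e x j → z (pos e x' j) = true) := by
      intro z
      by_cases hU : Uq e x z
      · rw [ind_true hU, ind_false, mul_zero, mul_one, sub_zero]
        rintro ⟨x', h4, h5⟩
        obtain ⟨j, h6, h7⟩ := hU x' h4
        rw [h5 j h6] at h7
        exact Bool.false_ne_true h7.symm
      · rw [ind_false hU, ind_true, mul_zero, mul_one, sub_self]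
        unfold Uq at hU
        push Not at hU
        obtain ⟨x', h4, h5⟩ := hU
        exact ⟨x', h4, fun j hj => by simpa using h5 j hj⟩
    simp_rw [h3]
    rw [Finset.sum_sub_distrib, Pool.Agent.H81.AC.sum_wz]
    linarith
  calc _ = ∑ _x : Fin k → A, (1 - ((1 + Fintype.card A * p) ^ k - 1)) := by
        rw [Finset.sum_const, card_univ, Fintype.card_fun, Fintype.card_fin, nsmul_eq_mul]
        push_cast
        ring
    _ ≤ _ := Finset.sum_le_sum (fun x _ => h1 x)

/-- AVG: the average-case form. -/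
def T_AVG : Prop := ∀ ε : ℝ, 0 < ε → ∃ c : ℕ, ∀ᶠ n : ℕ in atTop, ∀ d : ℕ, 1 ≤ d → d ^ 2 ≤ n →
  ∀ m : ℕ, n ^ (c * d) ≤ m → ∃ (ι : Type) (_ : Fintype ι) (μ : ι → ℝ)
    (S U : ι → Fin m × Fin n × Bool → Bool), (∀ i, 0 ≤ μ i) ∧ ∑ i, μ i = 1 ∧
    (∀ i, Satisfiable (S i) ∧ ¬ Satisfiable (U i) ∧
      ∀ j, width (S i) j ≤ c * d * Nat.log 2 n ∧ width (U i) j ≤ c * d * Nat.log 2 n) ∧
    ∀ (s : ℕ) (C : Circuit (Fin m × Fin n × Bool) s), C.DepthLE d → (s : ℝ) < 2 ^ ((1 - ε) * n) →
      C.diffProb μ S U ≤ ε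

theorem avg_le (ε : ℝ) (hε : 0 < ε) (hε1 : ε ≤ 1) : ∃ c : ℕ, ∀ᶠ n : ℕ in atTop, ∀ d : ℕ, 1 ≤ d →
    d ^ 2 ≤ n → ∀ m : ℕ, n ^ (c * d) ≤ m → ∃ (ι : Type) (_ : Fintype ι) (μ : ι → ℝ)
    (S U : ι → Fin m × Fin n × Bool → Bool), (∀ i, 0 ≤ μ i) ∧ ∑ i, μ i = 1 ∧
    (∀ i, Satisfiable (S i) ∧ ¬ Satisfiable (U i) ∧
      ∀ j, width (S i) j ≤ c * d * Nat.log 2 n ∧ width (U i) j ≤ c * d * Nat.log 2 n) ∧
    ∀ (s : ℕ) (C : Circuit (Fin m × Fin n × Bool) s), C.DepthLE d → (s : ℝ) < 2 ^ ((1 - ε) * n) →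
      C.diffProb μ S U ≤ ε := by
  classical
  obtain ⟨β, hβ, hβ1, hP⟩ := paruq_t ε hε hε1
  obtain ⟨c₀, hc₀, hr⟩ := hgu_t β hβ hβ1
  obtain ⟨c, hc⟩ := hP c₀ hc₀
  refine ⟨c, ?_⟩
  filter_upwards [hc] with n hn d hd1 hdn
  obtain ⟨k, ℓ, w, r, δ, p, q, hδ, hδr, hk, hℓ, hkl, hkn, hwid, hβk, hδk, hδk2, hw, hp, hp1, hq, hq1,
    hwq, hHN⟩ := hn d hd1 hdn
  intro m hm
  obtain ⟨e, he⟩ := hr δ r k hδ hδr hk
  obtain ⟨inc, hinc⟩ := Pool.Agent.H79.AC.ena k r ℓ n m e hℓ hk hkl (hkn.trans hm)
  have hcard : Fintype.card (Fin ℓ → Bool) = 2 ^ ℓ := by simp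
  set Z : ℝ := ∑ x : Fin k → Fin ℓ → Bool, ∑ z : VV k r (Fin ℓ → Bool) → Bool,
    wz p z * ind (Uq e x z) with hZ
  have hzn : ∀ z : VV k r (Fin ℓ → Bool) → Bool, 0 ≤ wz p z := fun z =>
    Pool.Agent.H81.AC.wz_nonneg hp.le (by linarith) z
  have hNpos : (0 : ℝ) < (Fintype.card (Fin ℓ → Bool) : ℝ) ^ k := by rw [hcard]; positivity
  have hk0 : (0 : ℝ) < k := by exact_mod_cast hk
  -- the normalisation
  have hZ1 : (Fintype.card (Fin ℓ → Bool) : ℝ) ^ k * (7 / 8) ≤ Z := by
    refine le_trans ?_ (norm_ge e p hp.le (by linarith))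
    refine mul_le_mul_of_nonneg_left ?_ hNpos.le
    have h0 := hHN 0 (by rw [Nat.cast_zero]; positivity)
    unfold HNL at h0
    rw [hcard]
    simp only [Nat.cast_zero, zero_mul, mul_zero, add_zero] at h0
    linarith
  have hZ0 : 0 < Z := lt_of_lt_of_le (by positivity) hZ1
  have hsum : ∀ F : (Fin k → Fin ℓ → Bool) × (VV k r (Fin ℓ → Bool) → Bool) × Fin k → ℝ,
      ∑ i : {i : (Fin k → Fin ℓ → Bool) × (VV k r (Fin ℓ → Bool) → Bool) × Fin k //
        Uq e i.1 i.2.1}, F i.1 = ∑ x : Fin k → Fin ℓ → Bool, ∑ z : VV k r (Fin ℓ → Bool) → Bool,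
          ind (Uq e x z) * ∑ j : Fin k, F (x, z, j) := by
    intro F
    rw [← Finset.sum_subtype (univ.filter (fun i : (Fin k → Fin ℓ → Bool) ×
      (VV k r (Fin ℓ → Bool) → Bool) × Fin k => Uq e i.1 i.2.1)) (by simp) F, Finset.sum_filter,
      Fintype.sum_prod_type]
    refine Finset.sum_congr rfl (fun x _ => ?_)
    rw [Fintype.sum_prod_type]
    refine Finset.sum_congr rfl (fun z _ => ?_)
    simp only
    by_cases hU : Uq e x z
    · simp only [hU, if_true, ind_true, one_mul]
    · rw [ind_false hU, zero_mul]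
      exact Finset.sum_eq_zero (fun j _ => if_neg hU)
  refine ⟨{i : (Fin k → Fin ℓ → Bool) × (VV k r (Fin ℓ → Bool) → Bool) × Fin k // Uq e i.1 i.2.1},
    inferInstance, fun i => wz p i.1.2.1 / (k * Z),
    fun i l => (inc l).val (yP (K e i.1.1 univ) i.1.2.1),
    fun i l => (inc l).val (Function.update (yP (K e i.1.1 univ) i.1.2.1) (pos e i.1.1 i.1.2.2) false),
    fun i => div_nonneg (hzn _) (by positivity), ?_, ?_, ?_⟩
  · -- total weight
    rw [hsum (fun i => wz p i.2.1 / (k * Z))]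
    simp only [Finset.sum_const, card_univ, Fintype.card_fin, nsmul_eq_mul]
    have h1 : ∀ (x : Fin k → Fin ℓ → Bool) (z : VV k r (Fin ℓ → Bool) → Bool),
        ind (Uq e x z) * (k * (wz p z / (k * Z))) = wz p z * ind (Uq e x z) * (1 / Z) := by
      intro x z
      field_simp
    simp_rw [h1, ← Finset.sum_mul]
    rw [← hZ]
    field_simp
  · rintro ⟨⟨x, z, j⟩, hi⟩
    refine ⟨(hinc _).1.2 (sat_yP e x z), fun h => unsat_yP e x z hi j ((hinc _).1.1 h), fun jj =>
      ⟨((hinc _).2 jj).trans hwid, ((hinc _).2 jj).trans hwid⟩⟩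
  · intro s C hd hs
    obtain ⟨C', b, hb⟩ := enb_t _ (VV k r (Fin ℓ → Bool)) s d C inc hd
    have hcore := avg_core C' e w ⌊β * k⌋₊ ⌊δ * k⌋₊ p q he hδk hw hp hp1 hq hq1 hwq
      (by rw [hcard]; exact Nat.one_le_two_pow)
    have hH := hHN s hs
    rw [← hcard] at hH
    set F : (Fin k → Fin ℓ → Bool) × (VV k r (Fin ℓ → Bool) → Bool) × Fin k → ℝ := fun i =>
        if (C.Holds (fun l => (inc l).val (yP (K e i.1 univ) i.2.1)) C.out ↔
      C.Holds (fun l => (inc l).val (Function.update (yP (K e i.1 univ) i.2.1) (pos e i.1 i.2.2) false))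
        C.out) then 0 else wz p i.2.1 / (k * Z) with hF
    have hdiff : C.diffProb (fun i : {i : (Fin k → Fin ℓ → Bool) ×
        (VV k r (Fin ℓ → Bool) → Bool) × Fin k // Uq e i.1 i.2.1} => wz p i.1.2.1 / (k * Z))
        (fun i l => (inc l).val (yP (K e i.1.1 univ) i.1.2.1))
        (fun i l => (inc l).val (Function.update (yP (K e i.1.1 univ) i.1.2.1)
          (pos e i.1.1 i.1.2.2) false)) =
        ∑ i : {i : (Fin k → Fin ℓ → Bool) ×
        (VV k r (Fin ℓ → Bool) → Bool) × Fin k // Uq e i.1 i.2.1}, F i.1 := by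
      unfold Circuit.diffProb
      refine Finset.sum_congr rfl (fun i _ => ?_)
      simp only [hF]
    rw [hdiff, hsum F]
    simp only [hF]
    have h1 : ∀ (x : Fin k → Fin ℓ → Bool) (z : VV k r (Fin ℓ → Bool) → Bool),
        ind (Uq e x z) * ∑ j : Fin k, (if (C.Holds (fun l => (inc l).val (yP (K e x univ) z)) C.out ↔
          C.Holds (fun l => (inc l).val (Function.update (yP (K e x univ) z) (pos e x j) false)) C.out)
          then 0 else wz p z / (k * Z)) =
        wz p z * (ind (Uq e x z) * cnt C' e x z) * (1 / (k * Z)) := by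
      intro x z
      have h2 : ∀ j : Fin k, (C.Holds (fun l => (inc l).val (yP (K e x univ) z)) C.out ↔
          C.Holds (fun l => (inc l).val (Function.update (yP (K e x univ) z) (pos e x j) false)) C.out) ↔
          ¬ (C'.val (Function.update (yP (K e x univ) z) (pos e x j) false) C'.out ≠
            C'.val (yP (K e x univ) z) C'.out) := by
        intro j
        rw [← hb, ← hb]
        cases C'.val (Function.update (yP (K e x univ) z) (pos e x j) false) C'.out <;>
          cases C'.val (yP (K e x univ) z) C'.out <;> cases b <;> simp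
      have h3 : ∀ j : Fin k, (if (C.Holds (fun l => (inc l).val (yP (K e x univ) z)) C.out ↔
          C.Holds (fun l => (inc l).val (Function.update (yP (K e x univ) z) (pos e x j) false)) C.out)
          then 0 else wz p z / (k * Z)) =
          (if C'.val (Function.update (yP (K e x univ) z) (pos e x j) false) C'.out ≠
            C'.val (yP (K e x univ) z) C'.out then wz p z / (k * Z) else 0) := by
        intro j
        by_cases hj : C'.val (Function.update (yP (K e x univ) z) (pos e x j) false) C'.out ≠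
            C'.val (yP (K e x univ) z) C'.out
        · rw [if_pos hj, if_neg (fun h => (h2 j).1 h hj)]
        · rw [if_neg hj, if_pos ((h2 j).2 hj)]
      simp only [h3]
      rw [← Finset.sum_filter, Finset.sum_const, nsmul_eq_mul]
      unfold cnt
      ring
    simp only [h1, ← Finset.sum_mul]
    rw [mul_one_div, div_le_iff₀ (by positivity)]
    refine hcore.trans ?_
    have h3 : (k : ℝ) * HNL k (Fintype.card (Fin ℓ → Bool)) s w ⌊β * k⌋₊ ⌊δ * k⌋₊ d p q +
        (⌊δ * k⌋₊ : ℝ) ≤ k * (ε / 4) := by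
      have h4 := mul_le_mul_of_nonneg_left hH hk0.le
      linarith
    calc (Fintype.card (Fin ℓ → Bool) : ℝ) ^ k * (k * HNL k (Fintype.card (Fin ℓ → Bool)) s w
          ⌊β * k⌋₊ ⌊δ * k⌋₊ d p q + (⌊δ * k⌋₊ : ℝ))
        ≤ (Fintype.card (Fin ℓ → Bool) : ℝ) ^ k * (k * (ε / 4)) :=
          mul_le_mul_of_nonneg_left h3 hNpos.le
      _ ≤ ε * (k * Z) := by
          have h5 : (Fintype.card (Fin ℓ → Bool) : ℝ) ^ k * (1 / 4) ≤ Z := by linarith
          have h6 := mul_le_mul_of_nonneg_left h5 (mul_pos hε hk0).le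
          calc _ = ε * k * ((Fintype.card (Fin ℓ → Bool) : ℝ) ^ k * (1 / 4)) := by ring
            _ ≤ ε * k * Z := h6
            _ = ε * (k * Z) := by ring

theorem AVG : T_AVG := by
  intro ε hε
  by_cases hε1 : ε ≤ 1
  · exact avg_le ε hε hε1
  · push Not at hε1
    obtain ⟨c, hc⟩ := avg_le 1 one_pos le_rfl
    refine ⟨c, ?_⟩
    filter_upwards [hc] with n hn d hd1 hdn m hm
    obtain ⟨ι, hι, μ, S, U, h1, h2, h3, h4⟩ := hn d hd1 hdn m hm
    refine ⟨ι, hι, μ, S, U, h1, h2, h3, fun s C hC hs => ?_⟩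
    exfalso
    have h5 : (1 : ℝ) ≤ s := by
      have : 0 < s := lt_of_le_of_lt (Nat.zero_le _) C.out.2
      exact_mod_cast this
    have h6 : (2 : ℝ) ^ ((1 - ε) * n) ≤ 1 := by
      apply Real.rpow_le_one_of_one_le_of_nonpos (by norm_num)
      have : (0 : ℝ) ≤ n := Nat.cast_nonneg n
      nlinarith
    linarith

end Pool.Agent.H68.AC
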