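import Pool.Agent.H68.AC.Targets

/-!
# SETH for constant-depth circuits: assembly
-/

namespace Pool.Agent.H68.AC

open Finset Filter

theorem main_t (hUNI : T_UNI) (hDET : T_DET) (hHG : T_HG) (hENA : T_ENA) (hENB : T_ENB) (hPAR : T_PAR) :
    T_MAIN := by
  intro d ε hε
  have hs1 : ∀ (m n s : ℕ) (C : Circuit (Fin m × Fin n × Bool) s), (1 : ℝ) ≤ s := by
    intro m n s C
    have : 0 < s := lt_of_le_of_lt (Nat.zero_le _) C.out.2
    exact_mod_cast this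
  by_cases hε1 : 1 ≤ ε
  · refine ⟨0, Filter.Eventually.of_forall (fun n m _ s C _ _ => ?_)⟩
    refine le_trans ?_ (hs1 m n s C)
    apply Real.rpow_le_one_of_one_le_of_nonpos (by norm_num)
    have : (0 : ℝ) ≤ n := Nat.cast_nonneg n
    nlinarith
  · push Not at hε1
    obtain ⟨β, δ, hβ, hβ1, hδ, hP⟩ := hPAR d ε hε hε1.le
    obtain ⟨r, hr⟩ := hHG β δ hβ hβ1 hδ
    obtain ⟨c, hc⟩ := hP r
    refine ⟨c, ?_⟩
    filter_upwards [hc] with n hn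
    obtain ⟨k, ℓ, w, p, q, hk, hℓ, hkl, hkn, hwid, hβk, hδk, hw, hp, hp1, hq, hq1, hwq, hHN⟩ := hn
    intro m hm s C hd hC
    by_contra hlt
    push Not at hlt
    obtain ⟨e, he⟩ := hr k hk
    obtain ⟨inc, hinc⟩ := hENA k r ℓ n m e hℓ hk hkl (hkn.trans hm)
    obtain ⟨C', b, hb⟩ := hENB _ (VV k r (Fin ℓ → Bool)) s d C inc hd
    have hcard : Fintype.card (Fin ℓ → Bool) = 2 ^ ℓ := by simp
    obtain ⟨x, R, z, hU, hB⟩ := hUNI k r s d (Fin ℓ → Bool) C' w ⌊β * k⌋₊ ⌊δ * k⌋₊ e p q hw hp hp1 hq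
      hq1 hwq (by rw [hcard]; exact Nat.one_le_two_pow) (by rw [hcard]; exact hHN s hlt)
    refine hDET k r s d (Fin ℓ → Bool) C' e x R z ⌊β * k⌋₊ ⌊δ * k⌋₊ he hδk hβk hU hB b ?_
    intro y
    rw [hb y, hC _ (fun j => ((hinc y).2 j).trans hwid), (hinc y).1]

end Pool.Agent.H68.AC
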