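import Pool.Agent.H68.AC.Targets

/-!
# SETH for constant-depth circuits: targets for the version uniform in the depth
-/

namespace Pool.Agent.H68.AC

open Finset Filter

/-- HGU: expanding hypergraphs exist, with explicit dependence of the arity. -/
def T_HGU : Prop := ∀ β : ℝ, 0 < β → β < 1 → ∃ c₀ : ℝ, 0 < c₀ ∧ ∀ (δ : ℝ) (r k : ℕ), 0 < δ →
  c₀ ≤ δ * r → 1 ≤ k → ∃ e : Fin k → Fin r → Fin k, Expd e ⌊β * k⌋₊ ⌊δ * k⌋₊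

/-- PARU: the parameters, uniformly in the depth `d ≤ √n`. -/
def T_PARU : Prop := ∀ (ε : ℝ), 0 < ε → ε ≤ 1 → ∃ β : ℝ, 0 < β ∧ β < 1 ∧ ∀ c₀ : ℝ, 0 < c₀ →
  ∃ c : ℕ, ∀ᶠ n : ℕ in atTop, ∀ d : ℕ, 1 ≤ d → d ^ 2 ≤ n → ∃ (k ℓ w r : ℕ) (δ p q : ℝ),
    0 < δ ∧ c₀ ≤ δ * r ∧ 1 ≤ k ∧ 1 ≤ ℓ ∧ k * ℓ ≤ n ∧ k * (2 ^ ℓ) ^ (r + 1) ≤ n ^ (c * d) ∧
    (r + 1) * ℓ + 1 ≤ c * d * Nat.log 2 n ∧ ⌊β * k⌋₊ < k ∧ 1 ≤ ⌊δ * k⌋₊ ∧ 1 ≤ w ∧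
    0 < p ∧ p ≤ 1 / 2 ∧ 0 < q ∧ q ≤ 1 / 2 ∧ 64 * w * q ≤ p ∧
    ∀ s : ℕ, (s : ℝ) < 2 ^ ((1 - ε) * n) → HN k (2 ^ ℓ) s w ⌊β * k⌋₊ ⌊δ * k⌋₊ d p q

/-- MAINU: SETH for constant-depth circuits, uniformly in the depth. -/
def T_MAINU : Prop := ∀ ε : ℝ, 0 < ε → ∃ c : ℕ, ∀ᶠ n : ℕ in atTop, ∀ d : ℕ, 1 ≤ d → d ^ 2 ≤ n →
  ∀ m : ℕ, n ^ (c * d) ≤ m → ∀ (s : ℕ) (C : Circuit (Fin m × Fin n × Bool) s), C.DepthLE d →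
    (∀ φ, (∀ j, width φ j ≤ c * d * Nat.log 2 n) → (C.Holds φ C.out ↔ Satisfiable φ)) →
    (2 : ℝ) ^ ((1 - ε) * n) ≤ s

theorem mainu_t (hUNI : T_UNI) (hDET : T_DET) (hHG : T_HGU) (hENA : T_ENA) (hENB : T_ENB)
    (hPAR : T_PARU) : T_MAINU := by
  intro ε hε
  have hs1 : ∀ (m n s : ℕ) (C : Circuit (Fin m × Fin n × Bool) s), (1 : ℝ) ≤ s := by
    intro m n s C
    have : 0 < s := lt_of_le_of_lt (Nat.zero_le _) C.out.2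
    exact_mod_cast this
  by_cases hε1 : 1 ≤ ε
  · refine ⟨0, Filter.Eventually.of_forall (fun n d _ _ m _ s C _ _ => ?_)⟩
    refine le_trans ?_ (hs1 m n s C)
    apply Real.rpow_le_one_of_one_le_of_nonpos (by norm_num)
    have : (0 : ℝ) ≤ n := Nat.cast_nonneg n
    nlinarith
  · push Not at hε1
    obtain ⟨β, hβ, hβ1, hP⟩ := hPAR ε hε hε1.le
    obtain ⟨c₀, hc₀, hr⟩ := hHG β hβ hβ1
    obtain ⟨c, hc⟩ := hP c₀ hc₀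
    refine ⟨c, ?_⟩
    filter_upwards [hc] with n hn d hd1 hdn
    obtain ⟨k, ℓ, w, r, δ, p, q, hδ, hδr, hk, hℓ, hkl, hkn, hwid, hβk, hδk, hw, hp, hp1, hq, hq1, hwq,
      hHN⟩ := hn d hd1 hdn
    intro m hm s C hd hC
    by_contra hlt
    push Not at hlt
    obtain ⟨e, he⟩ := hr δ r k hδ hδr hk
    obtain ⟨inc, hinc⟩ := hENA k r ℓ n m e hℓ hk hkl (hkn.trans hm)
    obtain ⟨C', b, hb⟩ := hENB _ (VV k r (Fin ℓ → Bool)) s d C inc hd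
    have hcard : Fintype.card (Fin ℓ → Bool) = 2 ^ ℓ := by simp
    obtain ⟨x, R, z, hU, hB⟩ := hUNI k r s d (Fin ℓ → Bool) C' w ⌊β * k⌋₊ ⌊δ * k⌋₊ e p q hw hp hp1 hq
      hq1 hwq (by rw [hcard]; exact Nat.one_le_two_pow) (by rw [hcard]; exact hHN s hlt)
    refine hDET k r s d (Fin ℓ → Bool) C' e x R z ⌊β * k⌋₊ ⌊δ * k⌋₊ he hδk hβk hU hB b ?_
    intro y
    rw [hb y, hC _ (fun j => ((hinc y).2 j).trans hwid), (hinc y).1]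

end Pool.Agent.H68.AC
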